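import Mathlib

open TensorProduct

namespace H80R

open scoped IntermediateField.algebraAdjoinAdjoin in
/-- Derivations of `ℂ` take arbitrary prescribed values on a transcendence basis. -/
theorem exists_derivation_of_basis {ι : Type*} (v : ι → ℂ) (hv : IsTranscendenceBasis ℚ v)
    (c : ι → ℂ) : ∃ D : Derivation ℚ ℂ ℂ, ∀ i, D (v i) = c i := by
  have hb := hv.1
  let A := Algebra.adjoin ℚ (Set.range v)
  let K := IntermediateField.adjoin ℚ (Set.range v)
  have h1 : Algebra.FormallyEtale A K :=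
    Algebra.FormallyEtale.of_isLocalization (nonZeroDivisors A)
  have h2 : Algebra.IsAlgebraic K ℂ := hv.isAlgebraic_field
  have h3 : Algebra.FormallyEtale K ℂ := Algebra.FormallyEtale.of_isSeparable _ ℂ
  have h4 : Algebra.FormallyEtale A ℂ := Algebra.FormallyEtale.comp A K ℂ
  let e : MvPolynomial ι ℚ ≃ₐ[ℚ] A := hb.aevalEquiv
  have he : ∀ p, ((e p : A) : ℂ) = MvPolynomial.aeval v p := fun p => rfl
  let _ : Algebra (MvPolynomial ι ℚ) ℂ := (MvPolynomial.aeval (R := ℚ) v).toAlgebra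
  have hsm : ∀ (p : MvPolynomial ι ℚ) (z : ℂ), p • z = MvPolynomial.aeval v p * z :=
    fun p z => rfl
  have _ : IsScalarTower ℚ (MvPolynomial ι ℚ) ℂ := by
    refine ⟨fun a b z => ?_⟩
    rw [hsm, hsm]
    simp [Algebra.smul_def, mul_assoc]
  let D₁ : Derivation ℚ (MvPolynomial ι ℚ) ℂ := MvPolynomial.mkDerivation ℚ c
  let D₀ : Derivation ℚ A ℂ :=
    { toLinearMap := D₁.toLinearMap ∘ₗ e.symm.toLinearMap
      map_one_eq_zero' := by
        simp
      leibniz' := by
        intro a b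
        have : ∀ a : A, ∀ z : ℂ, a • z = e.symm a • z := by
          intro a z
          rw [hsm, ← he]
          simp [Algebra.smul_def]
        simp [this] }
  let L₀ : Ω[A⁄ℚ] →ₗ[A] ℂ := D₀.liftKaehlerDifferential
  let E := KaehlerDifferential.tensorKaehlerEquivOfFormallyEtale ℚ A ℂ
  let L₁ : ℂ ⊗[A] Ω[A⁄ℚ] →ₗ[ℂ] ℂ := L₀.liftBaseChange ℂ
  let L₂ : Ω[ℂ⁄ℚ] →ₗ[ℂ] ℂ := L₁ ∘ₗ E.symm.toLinearMap
  refine ⟨L₂.compDer (KaehlerDifferential.D ℚ ℂ), fun i => ?_⟩
  let w : A := ⟨v i, Algebra.subset_adjoin ⟨i, rfl⟩⟩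
  have h5 : E.symm (KaehlerDifferential.D ℚ ℂ (algebraMap A ℂ w)) =
      1 ⊗ₜ KaehlerDifferential.D ℚ A w :=
    KaehlerDifferential.tensorKaehlerEquivOfFormallyEtale_symm_D_algebraMap ℚ A ℂ _
  change L₁ (E.symm (KaehlerDifferential.D ℚ ℂ (algebraMap A ℂ w))) = c i
  rw [h5]
  simp only [L₁, LinearMap.liftBaseChange_tmul, one_smul, L₀]
  rw [Derivation.liftKaehlerDifferential_comp_D]
  have h6 : e.symm w = MvPolynomial.X i := by
    rw [AlgEquiv.symm_apply_eq]
    apply Subtype.ext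
    rw [he]
    simp [w]
  change D₁ (e.symm _) = c i
  rw [h6]
  exact MvPolynomial.mkDerivation_X _ _ _

/-- Derivations of `ℂ` take arbitrary prescribed values on an algebraically independent
family. -/
theorem exists_derivation {ι : Type*} (v : ι → ℂ) (hv : AlgebraicIndependent ℚ v)
    (c : ι → ℂ) : ∃ D : Derivation ℚ ℂ ℂ, ∀ i, D (v i) = c i := by
  classical
  have hinj : Function.Injective v := hv.injective
  have h1 : AlgebraicIndepOn ℚ id (Set.range v) := hv.coe_range
  obtain ⟨t, hst, ht⟩ := exists_isTranscendenceBasis_superset h1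
  obtain ⟨D, hD⟩ := exists_derivation_of_basis (fun x : t => (x : ℂ)) ht
    (fun x => if h : ∃ i, v i = x then c h.choose else 0)
  refine ⟨D, fun i => ?_⟩
  have h2 := hD ⟨v i, hst ⟨i, rfl⟩⟩
  simp only at h2
  rw [h2]
  have h3 : ∃ j, v j = v i := ⟨i, rfl⟩
  rw [dif_pos h3]
  congr 1
  exact hinj h3.choose_spec

/-- `ℂ` contains algebraically independent families indexed by any countable type. -/
theorem exists_algebraicIndependent (ι : Type) [Countable ι] :
    ∃ v : ι → ℂ, AlgebraicIndependent ℚ v := by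
  obtain ⟨κ, x, hx⟩ := exists_isTranscendenceBasis' ℚ ℂ
  have h1 : Infinite κ := by
    by_contra hfin
    rw [not_infinite_iff_finite] at hfin
    have h2 := IsAlgClosed.cardinal_le_max_transcendence_basis (R := ℚ) x hx
    have h3 : Cardinal.mk ℂ ≤ Cardinal.aleph0 := by
      rw [Cardinal.lift_id] at h2
      refine h2.trans ?_
      simp
    have h4 : Cardinal.aleph0 < Cardinal.mk ℂ := by
      rw [Cardinal.mk_complex]
      exact Cardinal.aleph0_lt_continuum
    exact absurd h3 (not_le.mpr h4)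
  obtain ⟨f, hf⟩ := exists_injective_nat ι
  let g : ℕ ↪ κ := Infinite.natEmbedding κ
  refine ⟨fun i => x (g (f i)), ?_⟩
  exact hx.1.comp (g ∘ f) (g.injective.comp hf)

end H80R
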