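import Mathlib

namespace H80R

open Matrix

/-- Specialisation: if a matrix of rational polynomials defines a surjective map at one complex
point, then it does so at every algebraically independent point. -/
theorem spec {τ ι κ : Type*} [Fintype ι] [Fintype κ] [DecidableEq ι]
    (M : Matrix ι κ (MvPolynomial τ ℚ)) (c₀ : τ → ℂ)
    (h₀ : ∀ b : ι → ℂ, ∃ a : κ → ℂ, (M.map (MvPolynomial.aeval c₀)).mulVec a = b)
    (c : τ → ℂ) (hc : AlgebraicIndependent ℚ c) (b : ι → ℂ) :
    ∃ a : κ → ℂ, (M.map (MvPolynomial.aeval c)).mulVec a = b := by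
  classical
  set M0 : Matrix ι κ ℂ := M.map (MvPolynomial.aeval c₀) with hM0
  -- the columns span
  have hspan : Submodule.span ℂ (Set.range (fun j : κ => fun i : ι => M0 i j)) = ⊤ := by
    rw [eq_top_iff]
    rintro b -
    obtain ⟨a, ha⟩ := h₀ b
    have : b = ∑ j, a j • (fun i : ι => M0 i j) := by
      rw [← ha]
      ext i
      simp [Matrix.mulVec, dotProduct, mul_comm]
    rw [this]
    exact Submodule.sum_mem _ fun j _ => Submodule.smul_mem _ _ (Submodule.subset_span ⟨j, rfl⟩)
  obtain ⟨κ', a, ha, hsp, hli⟩ := exists_linearIndependent' ℂ (fun j : κ => fun i : ι => M0 i j)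
  rw [hspan] at hsp
  have hfin : Finite κ' := Finite.of_injective a ha
  let B : Module.Basis κ' ℂ (ι → ℂ) := Module.Basis.mk hli (by rw [hsp])
  have hcard : Nonempty (ι ≃ κ') := by
    have e1 := Module.Basis.indexEquiv (Pi.basisFun ℂ ι) B
    exact ⟨e1⟩
  obtain ⟨e⟩ := hcard
  -- the polynomial minor
  let P : Matrix ι ι (MvPolynomial τ ℚ) := M.submatrix id (a ∘ e)
  have hP0 : IsUnit (P.map (MvPolynomial.aeval c₀)) := by
    have h1 : LinearIndependent ℂ (fun i' : ι => fun i : ι => M0 i (a (e i'))) :=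
      hli.comp e e.injective
    exact Matrix.linearIndependent_cols_iff_isUnit.mp h1
  have hdet0 : MvPolynomial.aeval c₀ P.det ≠ 0 := by
    have h2 := (Matrix.isUnit_iff_isUnit_det _).mp hP0
    have h3 : (P.map (MvPolynomial.aeval c₀)).det = MvPolynomial.aeval c₀ P.det := by
      rw [AlgHom.map_det]
      rfl
    rw [h3] at h2
    exact h2.ne_zero
  have hdet : P.det ≠ 0 := by
    intro h
    rw [h] at hdet0
    simp at hdet0
  have hdetc : MvPolynomial.aeval c P.det ≠ 0 := by
    intro h
    exact hdet (hc.eq_zero_of_aeval_eq_zero _ h)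
  have hPc : IsUnit (P.map (MvPolynomial.aeval c)) := by
    rw [Matrix.isUnit_iff_isUnit_det]
    have h3 : (P.map (MvPolynomial.aeval c)).det = MvPolynomial.aeval c P.det := by
      rw [AlgHom.map_det]
      rfl
    rw [h3]
    exact isUnit_iff_ne_zero.mpr hdetc
  -- solve
  obtain ⟨x, hx⟩ := (Matrix.mulVec_surjective_iff_isUnit.mpr hPc) b
  refine ⟨fun j => ∑ i' : ι, if a (e i') = j then x i' else 0, ?_⟩
  rw [← hx]
  ext i
  simp only [Matrix.mulVec, dotProduct, Matrix.map_apply, P, Matrix.submatrix_apply, id,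
    Function.comp]
  simp only [Finset.mul_sum, mul_ite, mul_zero]
  rw [Finset.sum_comm]
  refine Finset.sum_congr rfl fun i' _ => ?_
  simp

end H80R
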