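import Mathlib
import Pool.Agent.H80R.Spec

namespace H80R

open MvPolynomial

/-- Forms of degree `d` in `N` variables. -/
noncomputable abbrev Fm (N d : ℕ) : Submodule ℂ (MvPolynomial (Fin N) ℂ) :=
  homogeneousSubmodule (Fin N) ℂ d

/-- Exponents of degree `d` in `N` variables. -/
abbrev Ex (N d : ℕ) : Finset (Fin N →₀ ℕ) := Finset.finsuppAntidiag Finset.univ d

theorem mem_Ex {N d : ℕ} {α : Fin N →₀ ℕ} : α ∈ Ex N d ↔ α.degree = d := by
  simp [Ex, Finsupp.degree_eq_sum]

/-- Iterated partial derivatives. -/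
noncomputable def dl {R : Type*} [CommSemiring R] {N : ℕ} :
    List (Fin N) → MvPolynomial (Fin N) R →ₗ[R] MvPolynomial (Fin N) R
  | [] => LinearMap.id
  | l :: L => (pderiv l : Derivation R _ _).toLinearMap ∘ₗ dl L

@[simp] theorem dl_nil {R : Type*} [CommSemiring R] {N : ℕ} (A : MvPolynomial (Fin N) R) :
    dl [] A = A := rfl

@[simp] theorem dl_cons {R : Type*} [CommSemiring R] {N : ℕ} (l : Fin N) (L : List (Fin N))
    (A : MvPolynomial (Fin N) R) : dl (l :: L) A = pderiv l (dl L A) := rfl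

theorem dl_map {R S : Type*} [CommSemiring R] [CommSemiring S] (φ : R →+* S) {N : ℕ}
    (L : List (Fin N)) (A : MvPolynomial (Fin N) R) :
    dl L (map φ A) = map φ (dl L A) := by
  induction L with
  | nil => rfl
  | cons l L ih => rw [dl_cons, dl_cons, ih, pderiv_map]

/-- Reconstruction of a form from its coefficients. -/
noncomputable def ofCoef {N d : ℕ} (a : Ex N d → ℂ) : MvPolynomial (Fin N) ℂ :=
  ∑ α : Ex N d, a α • monomial (α : Fin N →₀ ℕ) (1 : ℂ)

theorem ofCoef_mem {N d : ℕ} (a : Ex N d → ℂ) : ofCoef a ∈ Fm N d := by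
  refine Submodule.sum_mem _ fun α _ => Submodule.smul_mem _ _ ?_
  exact isHomogeneous_monomial _ (mem_Ex.mp α.2)

theorem eq_ofCoef {N d : ℕ} {A : MvPolynomial (Fin N) ℂ} (hA : A ∈ Fm N d) :
    A = ofCoef (fun α : Ex N d => coeff (α : Fin N →₀ ℕ) A) := by
  classical
  ext β
  simp only [ofCoef, coeff_sum, coeff_smul, coeff_monomial, smul_eq_mul, mul_ite, mul_one,
    mul_zero]
  by_cases hβ : β ∈ Ex N d
  · rw [Finset.sum_eq_single (⟨β, hβ⟩ : Ex N d)]
    · simp
    · rintro ⟨b, hb⟩ - hne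
      rw [if_neg]
      intro h
      exact hne (Subtype.ext h)
    · simp
  · have h1 : coeff β A = 0 := by
      apply IsHomogeneous.coeff_eq_zero hA
      intro h
      exact hβ (mem_Ex.mpr h)
    rw [h1]
    symm
    apply Finset.sum_eq_zero
    rintro ⟨b, hb⟩ -
    rw [if_neg]
    rintro rfl
    exact hβ hb

/-- Specialisation for linear conditions on forms. -/
theorem spec_forms {τ ι : Type*} [Fintype ι] [DecidableEq ι] {N d : ℕ}
    (L : ι → List (Fin N)) (pt : ι → Fin N → MvPolynomial τ ℚ) (c₀ : τ → ℂ)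
    (h₀ : ∀ b : ι → ℂ, ∃ A ∈ Fm N d,
      ∀ i, eval (fun l => aeval c₀ (pt i l)) (dl (L i) A) = b i)
    (c : τ → ℂ) (hc : AlgebraicIndependent ℚ c) (b : ι → ℂ) :
    ∃ A ∈ Fm N d, ∀ i, eval (fun l => aeval c (pt i l)) (dl (L i) A) = b i := by
  classical
  let M : Matrix ι (Ex N d) (MvPolynomial τ ℚ) :=
    Matrix.of fun i α => aeval (pt i) (dl (L i) (monomial (α : Fin N →₀ ℕ) (1 : ℚ)))
  have key : ∀ (e : τ → ℂ) (i : ι) (α : Fin N →₀ ℕ),
      aeval e (aeval (pt i) (dl (L i) (monomial α (1 : ℚ)))) =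
      eval (fun l => aeval e (pt i l)) (dl (L i) (monomial α (1 : ℂ))) := by
    intro e i α
    have h1 : (monomial α (1 : ℂ)) = map (algebraMap ℚ ℂ) (monomial α (1 : ℚ)) := by
      simp
    rw [h1, dl_map, eval_map]
    rw [← MvPolynomial.aeval_def]
    change ((aeval e).comp (aeval (pt i))) _ = _
    congr 1
    ext l
    simp
  have key2 : ∀ (e : τ → ℂ) (a : Ex N d → ℂ) (i : ι),
      ((M.map (aeval e)).mulVec a) i = eval (fun l => aeval e (pt i l)) (dl (L i) (ofCoef a)) := by
    intro e a i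
    simp only [Matrix.mulVec, dotProduct, Matrix.map_apply, M, ofCoef, map_sum, map_smul,
      smul_eval, Matrix.of_apply]
    refine Finset.sum_congr rfl fun α _ => ?_
    rw [key, mul_comm]
  have h1 : ∀ b : ι → ℂ, ∃ a : Ex N d → ℂ, (M.map (aeval c₀)).mulVec a = b := by
    intro b
    obtain ⟨A, hA, hAb⟩ := h₀ b
    refine ⟨fun α => coeff (α : Fin N →₀ ℕ) A, ?_⟩
    ext i
    rw [key2, ← eq_ofCoef hA, hAb]
  obtain ⟨a, ha⟩ := spec M c₀ h1 c hc b
  refine ⟨ofCoef a, ofCoef_mem a, fun i => ?_⟩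
  rw [← key2, ha]

/-- The dimension of the space of forms. -/
theorem finrank_Fm (N d : ℕ) : Module.finrank ℂ (Fm N d) = N.multichoose d := by
  classical
  let f : (Ex N d → ℂ) →ₗ[ℂ] Fm N d :=
    { toFun := fun a => ⟨ofCoef a, ofCoef_mem a⟩
      map_add' := by
        intro a b
        apply Subtype.ext
        simp [ofCoef, add_smul, Finset.sum_add_distrib]
      map_smul' := by
        intro c a
        apply Subtype.ext
        simp [ofCoef, Finset.smul_sum, smul_smul] }
  have hf : Function.Bijective f := by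
    constructor
    · intro a b hab
      have h1 : ofCoef a = ofCoef b := congrArg Subtype.val hab
      ext α
      have h2 : ∀ a : Ex N d → ℂ, coeff (α : Fin N →₀ ℕ) (ofCoef a) = a α := by
        intro a
        simp only [ofCoef, coeff_sum, coeff_smul, coeff_monomial, smul_eq_mul, mul_ite, mul_one,
          mul_zero]
        rw [Finset.sum_eq_single α]
        · simp
        · rintro b - hne
          rw [if_neg]
          intro h
          exact hne (Subtype.ext h)
        · simp
      rw [← h2 a, ← h2 b, h1]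
    · rintro ⟨A, hA⟩
      exact ⟨_, Subtype.ext (eq_ofCoef hA).symm⟩
  have h3 := (LinearEquiv.ofBijective f hf).finrank_eq
  rw [← h3, Module.finrank_fintype_fun_eq_card]
  rw [Fintype.card_coe, Finset.card_finsuppAntidiag_nat_eq_multichoose]
  simp

instance (N d : ℕ) : FiniteDimensional ℂ (Fm N d) :=
  Module.Finite.iff_fg.mpr (homogeneousSubmodule_fg _ _ _)

end H80R
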