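import Mathlib
import Pool.Agent.H80R.Forms

namespace H80R

open MvPolynomial

/-- Gradient of a polynomial at a point. -/
noncomputable def gr {N : ℕ} (v : Fin N → ℂ) (A : MvPolynomial (Fin N) ℂ) : Fin N → ℂ :=
  fun l => eval v (pderiv l A)

/-- Hessian of a polynomial at a point. -/
noncomputable def hs {N : ℕ} (v : Fin N → ℂ) (A : MvPolynomial (Fin N) ℂ) :
    Fin N → Fin N → ℂ :=
  fun l m => eval v (pderiv l (pderiv m A))

theorem gr_add {N : ℕ} (v : Fin N → ℂ) (A B : MvPolynomial (Fin N) ℂ) :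
    gr v (A + B) = gr v A + gr v B := by
  ext l; simp [gr]

theorem gr_smul {N : ℕ} (v : Fin N → ℂ) (c : ℂ) (A : MvPolynomial (Fin N) ℂ) :
    gr v (c • A) = c • gr v A := by
  ext l; simp [gr]

theorem hs_add {N : ℕ} (v : Fin N → ℂ) (A B : MvPolynomial (Fin N) ℂ) :
    hs v (A + B) = hs v A + hs v B := by
  ext l m; simp [hs]

theorem hs_smul {N : ℕ} (v : Fin N → ℂ) (c : ℂ) (A : MvPolynomial (Fin N) ℂ) :
    hs v (c • A) = c • hs v A := by
  ext l m; simp [hs]

theorem pderiv_comm' {N : ℕ} (l m : Fin N) (A : MvPolynomial (Fin N) ℂ) :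
    pderiv l (pderiv m A) = pderiv m (pderiv l A) := by
  have h : ⁅(pderiv l : Derivation ℂ _ _), (pderiv m : Derivation ℂ (MvPolynomial (Fin N) ℂ) _)⁆
      = 0 := by
    apply MvPolynomial.derivation_ext
    intro i
    rw [Derivation.commutator_apply]
    simp [pderiv_X, Pi.single_apply]
    split_ifs <;> simp
  have h2 := congrArg (fun D : Derivation ℂ (MvPolynomial (Fin N) ℂ) _ => D A) h
  simp only [Derivation.commutator_apply, Derivation.coe_zero, Pi.zero_apply] at h2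
  exact sub_eq_zero.mp h2

theorem hs_symm {N : ℕ} (v : Fin N → ℂ) (A : MvPolynomial (Fin N) ℂ) (l m : Fin N) :
    hs v A l m = hs v A m l := by
  simp only [hs]
  rw [pderiv_comm']

/-- Euler identity. -/
theorem euler {N d : ℕ} {A : MvPolynomial (Fin N) ℂ} (hA : A ∈ Fm N d) (v : Fin N → ℂ) :
    ∑ l, v l * gr v A l = d * eval v A := by
  have h := IsHomogeneous.sum_X_mul_pderiv hA
  have h2 := congrArg (eval v) h
  simpa [gr] using h2

theorem ev_zero_of_gr {N d : ℕ} {A : MvPolynomial (Fin N) ℂ} (hA : A ∈ Fm N (d + 1))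
    (v : Fin N → ℂ) (h : gr v A = 0) : eval v A = 0 := by
  have h1 := euler hA v
  rw [h] at h1
  simp only [Pi.zero_apply, mul_zero, Finset.sum_const_zero] at h1
  have h2 : ((d + 1 : ℕ) : ℂ) ≠ 0 := Nat.cast_ne_zero.mpr (Nat.succ_ne_zero d)
  exact (mul_eq_zero.mp h1.symm).resolve_left h2

theorem pderiv_mem {N d : ℕ} {A : MvPolynomial (Fin N) ℂ} (hA : A ∈ Fm N (d + 1)) (l : Fin N) :
    pderiv l A ∈ Fm N d := by
  have := IsHomogeneous.pderiv (i := l) hA
  simpa using this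

theorem gr_zero_of_hs {N d : ℕ} {A : MvPolynomial (Fin N) ℂ} (hA : A ∈ Fm N (d + 2))
    (v : Fin N → ℂ) (h : hs v A = 0) : gr v A = 0 := by
  ext m
  have h1 : gr v (pderiv m A) = 0 := by
    ext l
    have := congrFun (congrFun h l) m
    exact this
  exact ev_zero_of_gr (pderiv_mem hA m) v h1

/-- The linear form with coefficients `h`. -/
noncomputable def lf {N : ℕ} (h : Fin N → ℂ) : MvPolynomial (Fin N) ℂ :=
  ∑ l, C (h l) * X l

theorem lf_mem {N : ℕ} (h : Fin N → ℂ) : lf h ∈ Fm N 1 := by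
  refine Submodule.sum_mem _ fun l _ => ?_
  exact isHomogeneous_C_mul_X _ _

theorem pderiv_lf {N : ℕ} (h : Fin N → ℂ) (m : Fin N) : pderiv m (lf h) = C (h m) := by
  simp [lf, pderiv_X, Pi.single_apply]

theorem eval_lf {N : ℕ} (h v : Fin N → ℂ) : eval v (lf h) = ∑ l, h l * v l := by
  simp [lf]

theorem gr_lf_mul {N : ℕ} (h v : Fin N → ℂ) (B : MvPolynomial (Fin N) ℂ) (m : Fin N) :
    gr v (lf h * B) m = h m * eval v B + eval v (lf h) * gr v B m := by
  simp only [gr, Derivation.leibniz, pderiv_lf, smul_eq_mul, map_add, map_mul, eval_C]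
  ring

theorem hs_lf_mul {N : ℕ} (h v : Fin N → ℂ) (B : MvPolynomial (Fin N) ℂ) (l m : Fin N) :
    hs v (lf h * B) l m = h l * gr v B m + h m * gr v B l + eval v (lf h) * hs v B l m := by
  simp only [gr, hs, Derivation.leibniz, pderiv_lf, smul_eq_mul, map_add, map_mul, eval_C,
    pderiv_C, map_zero]
  ring

theorem mul_mem_Fm {N d e : ℕ} {A B : MvPolynomial (Fin N) ℂ} (hA : A ∈ Fm N d)
    (hB : B ∈ Fm N e) : A * B ∈ Fm N (d + e) := IsHomogeneous.mul hA hB

theorem lf_mul_mem {N d : ℕ} (h : Fin N → ℂ) {B : MvPolynomial (Fin N) ℂ} (hB : B ∈ Fm N d) :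
    lf h * B ∈ Fm N (d + 1) := by
  rw [add_comm]
  exact mul_mem_Fm (lf_mem h) hB

theorem gr_zero_of_lf_mul {N d : ℕ} (h v : Fin N → ℂ) (hv : eval v (lf h) ≠ 0)
    {B : MvPolynomial (Fin N) ℂ} (hB : B ∈ Fm N d) (h0 : gr v (lf h * B) = 0) :
    eval v B = 0 ∧ gr v B = 0 := by
  have h1 := ev_zero_of_gr (lf_mul_mem h hB) v h0
  rw [map_mul] at h1
  have h2 : eval v B = 0 := (mul_eq_zero.mp h1).resolve_left hv
  refine ⟨h2, ?_⟩
  ext m
  have h3 := congrFun h0 m
  rw [gr_lf_mul, h2, mul_zero, zero_add] at h3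
  exact (mul_eq_zero.mp h3).resolve_left hv

theorem hs_zero_of_lf_mul {N d : ℕ} (h v : Fin N → ℂ) (hv : eval v (lf h) ≠ 0)
    {B : MvPolynomial (Fin N) ℂ} (hB : B ∈ Fm N (d + 1)) (h0 : hs v (lf h * B) = 0) :
    hs v B = 0 := by
  have h1 := gr_zero_of_hs (lf_mul_mem h hB) v h0
  obtain ⟨h2, h3⟩ := gr_zero_of_lf_mul h v hv hB h1
  ext l m
  have h4 := congrFun (congrFun h0 l) m
  rw [hs_lf_mul, h3] at h4
  simp only [Pi.zero_apply, mul_zero, zero_add] at h4
  exact (mul_eq_zero.mp h4).resolve_left hv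

theorem surj_of_ker_le {W E : Type*} [AddCommGroup W] [Module ℂ W] [FiniteDimensional ℂ W]
    [AddCommGroup E] [Module ℂ E] [FiniteDimensional ℂ E] (J φ : W →ₗ[ℂ] E)
    (hJ : Function.Surjective J) (h : LinearMap.ker φ ≤ LinearMap.ker J) :
    Function.Surjective φ := by
  have h1 := LinearMap.finrank_range_add_finrank_ker φ
  have h2 := LinearMap.finrank_range_add_finrank_ker J
  have h3 := Submodule.finrank_mono h
  rw [LinearMap.range_eq_top.mpr hJ, finrank_top] at h2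
  have h4 : Module.finrank ℂ (LinearMap.range φ) = Module.finrank ℂ E := by
    apply le_antisymm
    · exact Submodule.finrank_le _
    · omega
  exact LinearMap.range_eq_top.mp (Submodule.eq_top_of_finrank_eq h4)

/-- Independence of double points: gradients at the points `z s` are arbitrary. -/
def GS (N d : ℕ) {a : ℕ} (z : Fin a → Fin N → ℂ) : Prop :=
  ∀ t : Fin a → Fin N → ℂ, ∃ A ∈ Fm N d, ∀ s, gr (z s) A = t s

/-- Independence of a triple point `x` and double points `z s`. -/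
def HS (N d : ℕ) {a : ℕ} (x : Fin N → ℂ) (z : Fin a → Fin N → ℂ) : Prop :=
  ∀ Q : Fin N → Fin N → ℂ, (∀ l m, Q l m = Q m l) →
    ∀ t : Fin a → Fin N → ℂ, ∃ A ∈ Fm N d, hs x A = Q ∧ ∀ s, gr (z s) A = t s

/-- gradient evaluation as a linear map -/
noncomputable def grL (N d : ℕ) {a : ℕ} (z : Fin a → Fin N → ℂ) :
    Fm N d →ₗ[ℂ] (Fin a → Fin N → ℂ) where
  toFun A := fun s => gr (z s) A.1
  map_add' A B := by
    ext s l; simp [gr_add]
  map_smul' c A := by
    ext s l; simp [gr_smul]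

/-- Symmetric matrices. -/
def symM (N : ℕ) : Submodule ℂ (Fin N → Fin N → ℂ) where
  carrier := {Q | ∀ l m, Q l m = Q m l}
  add_mem' := by
    intro P Q hP hQ l m
    simp [hP l m, hQ l m]
  zero_mem' := by
    intro l m
    rfl
  smul_mem' := by
    intro c Q hQ l m
    simp [hQ l m]

/-- Hessian evaluation as a linear map -/
noncomputable def hsL (N d : ℕ) (x : Fin N → ℂ) : Fm N d →ₗ[ℂ] symM N where
  toFun A := ⟨hs x A.1, hs_symm x A.1⟩
  map_add' A B := by
    apply Subtype.ext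
    simp [hs_add]
  map_smul' c A := by
    apply Subtype.ext
    simp [hs_smul]

/-- multiplication by a linear form -/
noncomputable def mulL (N d : ℕ) (h : Fin N → ℂ) : Fm N d →ₗ[ℂ] Fm N (d + 1) where
  toFun A := ⟨lf h * A.1, lf_mul_mem h A.2⟩
  map_add' A B := by
    apply Subtype.ext
    simp [mul_add]
  map_smul' c A := by
    apply Subtype.ext
    simp

theorem GS_mul {N d a : ℕ} {z : Fin a → Fin N → ℂ} (hz : GS N d z) (h : Fin N → ℂ)
    (hh : ∀ s, eval (z s) (lf h) ≠ 0) (t : Fin a → Fin N → ℂ) :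
    ∃ B ∈ Fm N d, ∀ s, gr (z s) (lf h * B) = t s := by
  have h1 : Function.Surjective (grL N d z) := by
    intro t
    obtain ⟨A, hA, hAt⟩ := hz t
    exact ⟨⟨A, hA⟩, funext hAt⟩
  have h2 : LinearMap.ker ((grL N (d + 1) z) ∘ₗ mulL N d h) ≤ LinearMap.ker (grL N d z) := by
    intro B hB
    rw [LinearMap.mem_ker] at hB ⊢
    ext s l
    have h3 : gr (z s) (lf h * B.1) = 0 := congrFun hB s
    have h4 := (gr_zero_of_lf_mul h (z s) (hh s) B.2 h3).2
    exact congrFun h4 l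
  obtain ⟨B, hB⟩ := surj_of_ker_le _ _ h1 h2 t
  exact ⟨B.1, B.2, fun s => congrFun hB s⟩

theorem HS_mul {N d a : ℕ} {x : Fin N → ℂ} {z : Fin a → Fin N → ℂ} (hz : HS N (d + 1) x z)
    (h : Fin N → ℂ) (hx : eval x (lf h) ≠ 0) (hh : ∀ s, eval (z s) (lf h) ≠ 0)
    (Q : Fin N → Fin N → ℂ) (hQ : ∀ l m, Q l m = Q m l) (t : Fin a → Fin N → ℂ) :
    ∃ B ∈ Fm N (d + 1), hs x (lf h * B) = Q ∧ ∀ s, gr (z s) (lf h * B) = t s := by
  have h1 : Function.Surjective ((hsL N (d + 1) x).prod (grL N (d + 1) z)) := by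
    rintro ⟨⟨Q, hQ⟩, t⟩
    obtain ⟨A, hA, hAQ, hAt⟩ := hz Q hQ t
    refine ⟨⟨A, hA⟩, Prod.ext (Subtype.ext hAQ) (funext hAt)⟩
  have h2 : LinearMap.ker (((hsL N (d + 2) x).prod (grL N (d + 2) z)) ∘ₗ mulL N (d + 1) h) ≤
      LinearMap.ker ((hsL N (d + 1) x).prod (grL N (d + 1) z)) := by
    intro B hB
    rw [LinearMap.mem_ker] at hB ⊢
    have hB1 : hsL N (d + 2) x (mulL N (d + 1) h B) = 0 := congrArg Prod.fst hB
    have hB2 : grL N (d + 2) z (mulL N (d + 1) h B) = 0 := congrArg Prod.snd hB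
    refine Prod.ext (Subtype.ext ?_) (funext fun s => ?_)
    · have h3 : hs x (lf h * B.1) = 0 := congrArg Subtype.val hB1
      exact hs_zero_of_lf_mul h x hx B.2 h3
    · have h3 : gr (z s) (lf h * B.1) = 0 := congrFun hB2 s
      exact (gr_zero_of_lf_mul h (z s) (hh s) B.2 h3).2
  obtain ⟨B, hB⟩ := surj_of_ker_le _ _ h1 h2 (⟨Q, hQ⟩, t)
  have hB1 : hsL N (d + 2) x (mulL N (d + 1) h B) = ⟨Q, hQ⟩ := congrArg Prod.fst hB
  have hB2 : grL N (d + 2) z (mulL N (d + 1) h B) = t := congrArg Prod.snd hB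
  exact ⟨B.1, B.2, congrArg Subtype.val hB1, fun s => congrFun hB2 s⟩

end H80R
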