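import Mathlib
import Pool.Agent.H80R.Jets
import Pool.Agent.H80R.Deriv

namespace H80R

open MvPolynomial

/-- evaluation at points as a linear map -/
noncomputable def evL (N d : ℕ) {b : ℕ} (R : Fin b → Fin N → ℂ) :
    Fm N d →ₗ[ℂ] (Fin b → ℂ) where
  toFun A := fun j => eval (R j) A.1
  map_add' A B := by
    ext s; simp
  map_smul' c A := by
    ext s; simp

/-- Simple points in general position impose independent conditions. -/
theorem exists_simple {N : ℕ} (W : Submodule ℂ (MvPolynomial (Fin N) ℂ))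
    [FiniteDimensional ℂ W] (b : ℕ) (hb : b ≤ Module.finrank ℂ W) :
    ∃ R : Fin b → Fin N → ℂ, ∀ c : Fin b → ℂ, ∃ A ∈ W, ∀ j, eval (R j) A = c j := by
  induction b with
  | zero => exact ⟨fun j => j.elim0, fun c => ⟨0, W.zero_mem, fun j => j.elim0⟩⟩
  | succ b ih =>
    obtain ⟨R, hR⟩ := ih (by omega)
    let φ : W →ₗ[ℂ] (Fin b → ℂ) :=
      { toFun := fun A j => eval (R j) A.1
        map_add' := by
          intro A B; ext j; simp
        map_smul' := by
          intro c A; ext j; simp }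
    have h1 := LinearMap.finrank_range_add_finrank_ker φ
    have h2 : Module.finrank ℂ (LinearMap.range φ) ≤ b := by
      have := Submodule.finrank_le (LinearMap.range φ)
      simpa using this
    have h3 : 0 < Module.finrank ℂ (LinearMap.ker φ) := by omega
    have h4 : LinearMap.ker φ ≠ ⊥ := by
      intro h
      rw [h, finrank_bot] at h3
      exact lt_irrefl 0 h3
    obtain ⟨A₀, hA₀, hne⟩ := Submodule.exists_mem_ne_zero_of_ne_bot h4
    have h5 : A₀.1 ≠ 0 := fun h => hne (Subtype.ext h)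
    have h6 : ∃ v : Fin N → ℂ, eval v A₀.1 ≠ 0 := by
      by_contra hcon
      push Not at hcon
      exact h5 (MvPolynomial.funext (fun v => by rw [hcon v, map_zero]))
    obtain ⟨v, hv⟩ := h6
    refine ⟨Fin.snoc R v, fun c => ?_⟩
    obtain ⟨A, hA, hAc⟩ := hR (fun j => c j.castSucc)
    refine ⟨A + ((c (Fin.last b) - eval v A) / eval v A₀.1) • A₀.1,
      W.add_mem hA (W.smul_mem _ A₀.2), fun j => ?_⟩
    refine Fin.lastCases ?_ (fun j => ?_) j
    · simp only [Fin.snoc_last, map_add, smul_eval]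
      field_simp
      ring
    · have h7 : eval (R j) A₀.1 = 0 := by
        have := congrFun (LinearMap.mem_ker.mp hA₀) j
        exact this
      simp only [Fin.snoc_castSucc, map_add, smul_eval, h7, mul_zero, add_zero, hAc]

/-- Double points `z` and simple points `R` on the last coordinate hyperplane impose
independent conditions. -/
def DS (N d : ℕ) {a b : ℕ} (z : Fin a → Fin (N + 1) → ℂ) (R : Fin b → Fin N → ℂ) : Prop :=
  ∀ (t : Fin a → Fin (N + 1) → ℂ) (c : Fin b → ℂ), ∃ A ∈ Fm (N + 1) d,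
    (∀ s, gr (z s) A = t s) ∧ ∀ j, eval (Fin.snoc (R j) 0 : Fin (N + 1) → ℂ) A = c j

/-- Double points `Q` and simple points `R` impose independent conditions. -/
def TS (N d : ℕ) {a b : ℕ} (Q : Fin a → Fin N → ℂ) (R : Fin b → Fin N → ℂ) : Prop :=
  ∀ (t : Fin a → Fin N → ℂ) (c : Fin b → ℂ), ∃ A ∈ Fm N d,
    (∀ s, gr (Q s) A = t s) ∧ ∀ j, eval (R j) A = c j

/-- generic version of `DS` -/
def GDS (N d a b : ℕ) : Prop :=
  ∀ (z : Fin a → Fin (N + 1) → ℂ) (R : Fin b → Fin N → ℂ),
    AlgebraicIndependent ℚ (Sum.elim (fun p : Fin a × Fin (N + 1) => z p.1 p.2)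
      (fun p : Fin b × Fin N => R p.1 p.2)) → DS N d z R

/-- generic version of `GS` -/
def GGS (N d a : ℕ) : Prop :=
  ∀ z : Fin a → Fin N → ℂ,
    AlgebraicIndependent ℚ (fun p : Fin a × Fin N => z p.1 p.2) → GS N d z

theorem GDS_of_exists {N d a b : ℕ}
    (h : ∃ (z : Fin a → Fin (N + 1) → ℂ) (R : Fin b → Fin N → ℂ), DS N d z R) :
    GDS N d a b := by
  classical
  obtain ⟨z₀, R₀, h₀⟩ := h
  intro z R hzR t c
  let τ := (Fin a × Fin (N + 1)) ⊕ (Fin b × Fin N)
  let ι := (Fin a × Fin (N + 1)) ⊕ Fin b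
  let L : ι → List (Fin (N + 1)) := Sum.elim (fun p => [p.2]) (fun _ => [])
  let pt : ι → Fin (N + 1) → MvPolynomial τ ℚ :=
    Sum.elim (fun p m => X (Sum.inl (p.1, m)))
      (fun j => Fin.snoc (fun m => X (Sum.inr (j, m))) 0)
  have key : ∀ (z : Fin a → Fin (N + 1) → ℂ) (R : Fin b → Fin N → ℂ)
      (A : MvPolynomial (Fin (N + 1)) ℂ),
      (∀ (s : Fin a) (l : Fin (N + 1)),
        eval (fun l' => aeval (Sum.elim (fun p : Fin a × Fin (N + 1) => z p.1 p.2)
          (fun p : Fin b × Fin N => R p.1 p.2)) (pt (Sum.inl (s, l)) l'))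
          (dl (L (Sum.inl (s, l))) A) = gr (z s) A l) ∧
      (∀ j : Fin b,
        eval (fun l' => aeval (Sum.elim (fun p : Fin a × Fin (N + 1) => z p.1 p.2)
          (fun p : Fin b × Fin N => R p.1 p.2)) (pt (Sum.inr j) l'))
          (dl (L (Sum.inr j)) A) = eval (Fin.snoc (R j) 0 : Fin (N + 1) → ℂ) A) := by
    intro z R A
    constructor
    · intro s l
      simp [pt, L, gr]
    · intro j
      simp only [pt, L, Sum.elim_inr, dl_nil]
      congr 2
      ext l'
      refine Fin.lastCases ?_ (fun l' => ?_) l'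
      · simp
      · simp
  have h1 := spec_forms (d := d) L pt (Sum.elim (fun p : Fin a × Fin (N + 1) => z₀ p.1 p.2)
      (fun p : Fin b × Fin N => R₀ p.1 p.2)) (by
        intro β
        obtain ⟨A, hA, hA1, hA2⟩ := h₀ (fun s l => β (Sum.inl (s, l))) (fun j => β (Sum.inr j))
        refine ⟨A, hA, ?_⟩
        rintro (⟨s, l⟩ | j)
        · rw [(key z₀ R₀ A).1 s l, hA1 s]
        · rw [(key z₀ R₀ A).2 j, hA2 j]) _ hzR (Sum.elim (fun p => t p.1 p.2) c)
  obtain ⟨A, hA, hA1⟩ := h1
  refine ⟨A, hA, fun s => ?_, fun j => ?_⟩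
  · ext l
    rw [← (key z R A).1 s l, hA1]
    rfl
  · rw [← (key z R A).2 j, hA1]
    rfl

theorem TS_of_exists {N d a b : ℕ}
    (h : ∃ (Q : Fin a → Fin N → ℂ) (R : Fin b → Fin N → ℂ), TS N d Q R)
    (Q : Fin a → Fin N → ℂ) (R : Fin b → Fin N → ℂ)
    (hQR : AlgebraicIndependent ℚ (Sum.elim (fun p : Fin a × Fin N => Q p.1 p.2)
      (fun p : Fin b × Fin N => R p.1 p.2))) : TS N d Q R := by
  classical
  obtain ⟨Q₀, R₀, h₀⟩ := h
  intro t c
  let τ := (Fin a × Fin N) ⊕ (Fin b × Fin N)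
  let ι := (Fin a × Fin N) ⊕ Fin b
  let L : ι → List (Fin N) := Sum.elim (fun p => [p.2]) (fun _ => [])
  let pt : ι → Fin N → MvPolynomial τ ℚ :=
    Sum.elim (fun p m => X (Sum.inl (p.1, m)))
      (fun j m => X (Sum.inr (j, m)))
  have key : ∀ (z : Fin a → Fin N → ℂ) (R : Fin b → Fin N → ℂ)
      (A : MvPolynomial (Fin N) ℂ),
      (∀ (s : Fin a) (l : Fin N),
        eval (fun l' => aeval (Sum.elim (fun p : Fin a × Fin N => z p.1 p.2)
          (fun p : Fin b × Fin N => R p.1 p.2)) (pt (Sum.inl (s, l)) l'))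
          (dl (L (Sum.inl (s, l))) A) = gr (z s) A l) ∧
      (∀ j : Fin b,
        eval (fun l' => aeval (Sum.elim (fun p : Fin a × Fin N => z p.1 p.2)
          (fun p : Fin b × Fin N => R p.1 p.2)) (pt (Sum.inr j) l'))
          (dl (L (Sum.inr j)) A) = eval (R j) A) := by
    intro z R A
    constructor
    · intro s l
      simp [pt, L, gr]
    · intro j
      simp [pt, L]
  have h1 := spec_forms (d := d) L pt (Sum.elim (fun p : Fin a × Fin N => Q₀ p.1 p.2)
      (fun p : Fin b × Fin N => R₀ p.1 p.2)) (by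
        intro β
        obtain ⟨A, hA, hA1, hA2⟩ := h₀ (fun s l => β (Sum.inl (s, l))) (fun j => β (Sum.inr j))
        refine ⟨A, hA, ?_⟩
        rintro (⟨s, l⟩ | j)
        · rw [(key Q₀ R₀ A).1 s l, hA1 s]
        · rw [(key Q₀ R₀ A).2 j, hA2 j]) _ hQR (Sum.elim (fun p => t p.1 p.2) c)
  obtain ⟨A, hA, hA1⟩ := h1
  refine ⟨A, hA, fun s => ?_, fun j => ?_⟩
  · ext l
    rw [← (key Q R A).1 s l, hA1]
    rfl
  · rw [← (key Q R A).2 j, hA1]
    rfl

/-- trace problem: add simple points -/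
theorem TS_of_GGS {N d a b : ℕ} (h1 : GGS N d a) (h2 : N * a + b ≤ N.multichoose d)
    (Q : Fin a → Fin N → ℂ) (R : Fin b → Fin N → ℂ)
    (hQR : AlgebraicIndependent ℚ (Sum.elim (fun p : Fin a × Fin N => Q p.1 p.2)
      (fun p : Fin b × Fin N => R p.1 p.2))) : TS N d Q R := by
  apply TS_of_exists _ Q R hQR
  obtain ⟨v, hv⟩ := exists_algebraicIndependent (Fin a × Fin N)
  let Q₀ : Fin a → Fin N → ℂ := fun s l => v (s, l)
  have hQ₀ : GS N d Q₀ := h1 Q₀ hv
  -- the forms singular at `Q₀`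
  let K := LinearMap.ker (grL N d Q₀)
  let W := K.map (Fm N d).subtype
  have hW1 : Module.finrank ℂ W = Module.finrank ℂ K :=
    LinearEquiv.finrank_eq
      (Submodule.equivMapOfInjective _ (Submodule.subtype_injective _) K).symm
  have hW2 : b ≤ Module.finrank ℂ W := by
    rw [hW1]
    have h3 := LinearMap.finrank_range_add_finrank_ker (grL N d Q₀)
    rw [finrank_Fm] at h3
    have h4 : Module.finrank ℂ (LinearMap.range (grL N d Q₀)) ≤ N * a := by
      have := Submodule.finrank_le (LinearMap.range (grL N d Q₀))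
      refine this.trans ?_
      rw [Module.finrank_pi_fintype]
      simp [mul_comm]
    change b ≤ Module.finrank ℂ (LinearMap.ker (grL N d Q₀))
    omega
  obtain ⟨R₀, hR₀⟩ := exists_simple W b hW2
  refine ⟨Q₀, R₀, fun t c => ?_⟩
  obtain ⟨A, hA, hAt⟩ := hQ₀ t
  obtain ⟨B, hB, hBc⟩ := hR₀ (fun j => c j - eval (R₀ j) A)
  obtain ⟨B', hB', rfl⟩ := hB
  refine ⟨A + B'.1, (Fm N d).add_mem hA B'.2, fun s => ?_, fun j => ?_⟩
  · have h5 : gr (Q₀ s) B'.1 = 0 := congrFun (LinearMap.mem_ker.mp hB') s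
    rw [gr_add, h5, add_zero, hAt]
  · have h6 := hBc j
    rw [map_add]
    have h7 : eval (R₀ j) (B'.1) = c j - eval (R₀ j) A := h6
    rw [h7]
    ring

/-- **Horace step.** -/
theorem horace {N d u a b : ℕ} (h1 : GGS N (d + 1) u) (h2 : N * u + b ≤ N.multichoose (d + 1))
    (h3 : GDS N d a u) : GDS N (d + 1) (u + a) b := by
  classical
  apply GDS_of_exists
  obtain ⟨v, hv⟩ := exists_algebraicIndependent
    ((Fin u × Fin N) ⊕ ((Fin a × Fin (N + 1)) ⊕ (Fin b × Fin N)))
  let Q : Fin u → Fin N → ℂ := fun s l => v (Sum.inl (s, l))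
  let Z : Fin a → Fin (N + 1) → ℂ := fun s l => v (Sum.inr (Sum.inl (s, l)))
  let R : Fin b → Fin N → ℂ := fun s l => v (Sum.inr (Sum.inr (s, l)))
  have hT : TS N (d + 1) Q R := by
    apply TS_of_GGS h1 h2
    have := hv.comp (Sum.elim (fun p => Sum.inl p) (fun p => Sum.inr (Sum.inr p)) :
      (Fin u × Fin N) ⊕ (Fin b × Fin N) → _) (by
        rintro (p | p) (q | q) h <;> simp at h ⊢ <;> exact h)
    convert this using 1
    ext (p | p) <;> rfl
  have hR : DS N d Z Q := by
    apply h3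
    have := hv.comp (Sum.elim (fun p => Sum.inr (Sum.inl p)) (fun p => Sum.inl p) :
      (Fin a × Fin (N + 1)) ⊕ (Fin u × Fin N) → _) (by
        rintro (p | p) (q | q) h <;> simp at h ⊢ <;> exact h)
    convert this using 1
    ext (p | p) <;> rfl
  have hZ : ∀ s, Z s (Fin.last N) ≠ 0 := fun s => hv.ne_zero _
  -- the last variable as a linear form
  let e : Fin (N + 1) → ℂ := Pi.single (Fin.last N) 1
  have he : lf e = X (Fin.last N) := by
    simp only [lf, e]
    rw [Finset.sum_eq_single (Fin.last N)]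
    · simp
    · intro l _ hl
      simp [Pi.single_apply, hl]
    · simp
  have hZe : ∀ s, eval (Z s) (lf e) ≠ 0 := by
    intro s
    rw [he, eval_X]
    exact hZ s
  -- the residual map
  have hres : ∀ (t : Fin a → Fin (N + 1) → ℂ) (c : Fin u → ℂ), ∃ B ∈ Fm (N + 1) d,
      (∀ s, gr (Z s) (lf e * B) = t s) ∧
        ∀ j, eval (Fin.snoc (Q j) 0 : Fin (N + 1) → ℂ) B = c j := by
    intro t c
    let Q' : Fin u → Fin (N + 1) → ℂ := fun j => Fin.snoc (Q j) 0
    have h4 : Function.Surjective ((grL (N + 1) d Z).prod (evL (N + 1) d Q')) := by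
      rintro ⟨t, c⟩
      obtain ⟨A, hA, hA1, hA2⟩ := hR t c
      exact ⟨⟨A, hA⟩, Prod.ext (funext hA1) (funext hA2)⟩
    have h5 : LinearMap.ker (((grL (N + 1) (d + 1) Z) ∘ₗ mulL (N + 1) d e).prod
        (evL (N + 1) d Q')) ≤
        LinearMap.ker ((grL (N + 1) d Z).prod (evL (N + 1) d Q')) := by
      intro B hB
      rw [LinearMap.mem_ker] at hB ⊢
      have hB1 : grL (N + 1) (d + 1) Z (mulL (N + 1) d e B) = 0 := congrArg Prod.fst hB
      have hB2 : evL (N + 1) d Q' B = 0 := congrArg Prod.snd hB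
      refine Prod.ext (funext fun s => ?_) hB2
      have h6 : gr (Z s) (lf e * B.1) = 0 := congrFun hB1 s
      exact (gr_zero_of_lf_mul e (Z s) (hZe s) B.2 h6).2
    obtain ⟨B, hB⟩ := surj_of_ker_le _ _ h4 h5 (t, c)
    have hB1 : grL (N + 1) (d + 1) Z (mulL (N + 1) d e B) = t := congrArg Prod.fst hB
    have hB2 : evL (N + 1) d Q' B = c := congrArg Prod.snd hB
    exact ⟨B.1, B.2, fun s => congrFun hB1 s, fun j => congrFun hB2 j⟩
  -- the special configuration
  let Q' : Fin u → Fin (N + 1) → ℂ := fun j => Fin.snoc (Q j) 0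
  refine ⟨Fin.append Q' Z, R, fun t c => ?_⟩
  obtain ⟨g, hg, hg1, hg2⟩ := hT (fun s l => t (Fin.castAdd a s) l.castSucc) c
  let g' : MvPolynomial (Fin (N + 1)) ℂ := rename Fin.castSucc g
  have hg' : g' ∈ Fm (N + 1) (d + 1) := IsHomogeneous.rename_isHomogeneous hg
  obtain ⟨B, hB, hB1, hB2⟩ := hres (fun s => t (Fin.natAdd u s) - gr (Z s) g')
    (fun s => t (Fin.castAdd a s) (Fin.last N))
  have hsn : ∀ (P : Fin N → ℂ), (fun l : Fin N => (Fin.snoc P 0 : Fin (N + 1) → ℂ) l.castSucc) = P := by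
    intro P
    ext l
    simp
  have hev : ∀ (P : Fin N → ℂ) (f : MvPolynomial (Fin N) ℂ),
      eval (Fin.snoc P 0 : Fin (N + 1) → ℂ) (rename Fin.castSucc f) = eval P f := by
    intro P f
    rw [eval_rename]
    congr 2
    exact hsn P
  have hlast : pderiv (Fin.last N) g' = 0 := by
    apply pderiv_eq_zero_of_notMem_vars
    intro h
    have h2 := vars_rename _ _ h
    simp at h2
  refine ⟨g' + lf e * B, (Fm (N + 1) (d + 1)).add_mem hg' (lf_mul_mem e hB), fun s => ?_,
    fun j => ?_⟩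
  · refine Fin.addCases (fun s => ?_) (fun s => ?_) s
    · rw [Fin.append_left, gr_add]
      have hpz : eval (Q' s) (lf e) = 0 := by
        rw [he, eval_X]
        simp [Q']
      ext l
      rw [Pi.add_apply, gr_lf_mul, hpz, zero_mul, add_zero]
      refine Fin.lastCases ?_ (fun l => ?_) l
      · simp only [gr, hlast, map_zero, zero_add]
        rw [hB2]
        simp [e]
      · have h6 : gr (Q' s) g' l.castSucc = gr (Q s) g l := by
          simp only [gr, g']
          rw [pderiv_rename (Fin.castSucc_injective N)]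
          exact hev _ _
        rw [h6, hg1 s]
        simp [e]
    · rw [Fin.append_right, gr_add, hB1]
      simp
  · rw [map_add, map_mul, he, eval_X]
    simp only [Fin.snoc_last, zero_mul, add_zero]
    rw [hev, hg2]

end H80R
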