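import Mathlib
import Pool.Agent.H80R.Horace

namespace H80R

open MvPolynomial

theorem GGS_of_exists {N d a : ℕ} (h : ∃ z : Fin a → Fin N → ℂ, GS N d z) : GGS N d a := by
  obtain ⟨z₀, hz₀⟩ := h
  intro z hz
  have h1 : TS N d z (fun j : Fin 0 => j.elim0) := by
    apply TS_of_exists
    · refine ⟨z₀, fun j => j.elim0, fun t c => ?_⟩
      obtain ⟨A, hA, hA1⟩ := hz₀ t
      exact ⟨A, hA, hA1, fun j => j.elim0⟩
    · have h2 := hz.comp (Sum.elim id (fun p : Fin 0 × Fin N => p.1.elim0)) (by
        rintro (p | ⟨p, p'⟩) (q | ⟨q, q'⟩) h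
        · simpa using h
        · exact q.elim0
        · exact p.elim0
        · exact p.elim0)
      convert h2 using 1
      ext (p | ⟨p, p'⟩)
      · rfl
      · exact p.elim0
  intro t
  obtain ⟨A, hA, hA1, -⟩ := h1 t (fun j => j.elim0)
  exact ⟨A, hA, hA1⟩

theorem GGS_mono {N d a a' : ℕ} (h : GGS N d a) (haa : a' ≤ a) : GGS N d a' := by
  apply GGS_of_exists
  obtain ⟨v, hv⟩ := exists_algebraicIndependent (Fin a × Fin N)
  refine ⟨fun s l => v (Fin.castLE haa s, l), fun t => ?_⟩
  obtain ⟨A, hA, hA1⟩ := h (fun s l => v (s, l)) hv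
    (fun s => if hs : s.1 < a' then t ⟨s.1, hs⟩ else 0)
  refine ⟨A, hA, fun s => ?_⟩
  have h2 := hA1 (Fin.castLE haa s)
  simp only [Fin.val_castLE, Fin.is_lt, dif_pos, Fin.eta] at h2
  exact h2

theorem GGS_of_GDS {N d a : ℕ} (h : GDS N d a 0) : GGS (N + 1) d a := by
  apply GGS_of_exists
  obtain ⟨v, hv⟩ := exists_algebraicIndependent ((Fin a × Fin (N + 1)) ⊕ (Fin 0 × Fin N))
  refine ⟨fun s l => v (Sum.inl (s, l)), fun t => ?_⟩
  have h2 := h (fun s l => v (Sum.inl (s, l))) (fun s l => v (Sum.inr (s, l))) (by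
    convert hv using 1
    ext (p | p) <;> rfl)
  obtain ⟨A, hA, hA1, -⟩ := h2 t (fun j => j.elim0)
  exact ⟨A, hA, hA1⟩

theorem GGS_zero (N d : ℕ) : GGS N d 0 := by
  apply GGS_of_exists
  exact ⟨fun s => s.elim0, fun t => ⟨0, (Fm N d).zero_mem, fun s => s.elim0⟩⟩

theorem GDS_zero (N b : ℕ) (hb : b ≤ 1) : GDS N 0 0 b := by
  apply GDS_of_exists
  refine ⟨fun s => s.elim0, fun _ => 0, fun t c => ?_⟩
  rcases Nat.eq_zero_or_pos b with h | h
  · subst h
    exact ⟨0, (Fm _ _).zero_mem, fun s => s.elim0, fun s => s.elim0⟩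
  · refine ⟨C (c ⟨0, h⟩), isHomogeneous_C _ _, fun s => s.elim0, fun j => ?_⟩
    rw [eval_C]
    congr 1
    apply Fin.ext
    simp
    omega

theorem GGS_one (d : ℕ) (hd : 1 ≤ d) : GGS 1 d 1 := by
  apply GGS_of_exists
  refine ⟨fun _ _ => 1, fun t => ?_⟩
  refine ⟨C (t 0 0 / d) * X 0 ^ d, isHomogeneous_C_mul_X_pow _ _ _, fun s => ?_⟩
  have hs : s = 0 := Subsingleton.elim _ _
  subst hs
  ext l
  have hl : l = 0 := Subsingleton.elim _ _
  subst hl
  have hd' : (d : ℂ) ≠ 0 := Nat.cast_ne_zero.mpr (by omega)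
  simp [gr, Derivation.leibniz, Derivation.leibniz_pow]
  field_simp

/-- binary forms -/
theorem GDS_one (d : ℕ) : ∀ a b : ℕ, 2 * a + b ≤ d + 1 → b ≤ 1 → GDS 1 d a b := by
  induction d with
  | zero =>
    intro a b h hb
    have ha : a = 0 := by omega
    subst ha
    exact GDS_zero 1 b hb
  | succ d ih =>
    intro a b h hb
    rcases Nat.lt_or_ge 0 b with hb1 | hb0
    · have hb2 : b = 1 := by omega
      subst hb2
      have h1 := horace (N := 1) (d := d) (u := 0) (a := a) (b := 1) (GGS_zero _ _)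
        (by simp [Nat.multichoose_one]) (ih a 0 (by omega) (by omega))
      simpa using h1
    · have hb2 : b = 0 := by omega
      subst hb2
      rcases a with _ | a
      · have h1 := horace (N := 1) (d := d) (u := 0) (a := 0) (b := 0) (GGS_zero _ _)
          (by simp) (ih 0 0 (by omega) (by omega))
        simpa using h1
      · have h1 := horace (N := 1) (d := d) (u := 1) (a := a) (b := 0) (GGS_one _ (by omega))
          (by simp [Nat.multichoose_one]) (ih a 1 (by omega) (by omega))
        rw [add_comm 1 a] at h1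
        exact h1

theorem GGS_two (d a : ℕ) (h : 2 * a ≤ d + 1) : GGS 2 d a :=
  GGS_of_GDS (GDS_one d a 0 (by omega) (by omega))

/-- number of double points put on the hyperplane in degree `d` -/
def ud (N e d : ℕ) : ℕ := if e ≤ d then N.multichoose (d - e) / (N + 1) else 0

/-- total number of double points -/
def Ud (N e d : ℕ) : ℕ := ∑ j ∈ Finset.range (d + 1), ud N e j

theorem mc_mono {N : ℕ} (hN : 1 ≤ N) {m m' : ℕ} (h : m ≤ m') :
    N.multichoose m ≤ N.multichoose m' := by
  obtain ⟨n, rfl⟩ : ∃ n, N = n + 1 := ⟨N - 1, by omega⟩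
  induction m', h using Nat.le_induction with
  | base => exact le_rfl
  | succ m' _ ih =>
    rw [Nat.multichoose_succ_succ]
    omega

theorem ud_le {N e d : ℕ} (hN : 1 ≤ N) {m : ℕ} (hm : d ≤ m + e) :
    (N + 1) * ud N e d ≤ N.multichoose m := by
  unfold ud
  split_ifs with h
  · calc (N + 1) * (N.multichoose (d - e) / (N + 1)) ≤ N.multichoose (d - e) :=
        Nat.mul_div_le _ _
      _ ≤ N.multichoose m := mc_mono hN (by omega)
  · simp

/-- Hypothesis on double points in `N` variables. -/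
def HN (N c : ℕ) : Prop :=
  ∀ d u : ℕ, (u = 0 ∨ (c ≤ d ∧ N * u ≤ N.multichoose (d - c))) → GGS N d u

theorem GDS_Ud {N c e : ℕ} (hN : 1 ≤ N) (hc : HN N c) (hce : c ≤ e) (he : 1 ≤ e) (d : ℕ) :
    ∀ b, b ≤ ud N e (d + 1) → GDS N d (Ud N e d) b := by
  induction d with
  | zero =>
    intro b hb
    have h0 : Ud N e 0 = 0 := by
      simp only [Ud, zero_add, Finset.range_one, Finset.sum_singleton, ud]
      rw [if_neg (by omega)]
    rw [h0]
    have h1 := ud_le (N := N) (e := e) (d := 0 + 1) hN (m := 0) (by omega)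
    rw [Nat.multichoose_zero_right] at h1
    have h2 : ud N e (0 + 1) = 0 := by
      by_contra hne
      have : 1 ≤ ud N e (0 + 1) := Nat.one_le_iff_ne_zero.mpr hne
      nlinarith
    exact GDS_zero N b (by omega)
  | succ d ih =>
    intro b hb
    have h1 : GGS N (d + 1) (ud N e (d + 1)) := by
      apply hc
      by_cases h : e ≤ d + 1
      · right
        refine ⟨by omega, ?_⟩
        have h2 := ud_le (N := N) (e := e) (d := d + 1) hN (m := d + 1 - e) (by omega)
        have h3 : N.multichoose (d + 1 - e) ≤ N.multichoose (d + 1 - c) := mc_mono hN (by omega)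
        nlinarith
      · left
        unfold ud
        rw [if_neg h]
    have h2 : N * ud N e (d + 1) + b ≤ N.multichoose (d + 1) := by
      have h3 := ud_le (N := N) (e := e) (d := d + 1) hN (m := d + 1) (by omega)
      have h4 := ud_le (N := N) (e := e) (d := d + 1 + 1) hN (m := d + 1) (by omega)
      have h5 : (N + 1) * (N * ud N e (d + 1) + b) ≤ (N + 1) * N.multichoose (d + 1) := by
        have h6 : (N + 1) * b ≤ (N + 1) * ud N e (d + 1 + 1) := Nat.mul_le_mul_left _ hb
        nlinarith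
      exact Nat.le_of_mul_le_mul_left h5 (by omega)
    have h3 := horace h1 h2 (ih _ le_rfl)
    have h4 : Ud N e (d + 1) = ud N e (d + 1) + Ud N e d := by
      simp only [Ud]
      rw [Finset.sum_range_succ _ (d + 1), add_comm]
    rw [h4]
    exact h3

theorem Ud_ge {N e : ℕ} (hN : 1 ≤ N) (M : ℕ) :
    (N + 1).multichoose M ≤ (N + 1) * Ud N e (e + M) + N * (M + 1) := by
  induction M with
  | zero =>
    rw [Nat.multichoose_zero_right]
    omega
  | succ M ih =>
    have h4 : Ud N e (e + (M + 1)) = ud N e (e + (M + 1)) + Ud N e (e + M) := by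
      simp only [Ud]
      rw [← add_assoc, Finset.sum_range_succ _ (e + M + 1), add_comm]
    rw [h4, Nat.multichoose_succ_succ]
    have h5 : N.multichoose (M + 1) ≤ (N + 1) * ud N e (e + (M + 1)) + N := by
      unfold ud
      rw [if_pos (by omega), Nat.add_sub_cancel_left]
      have h6 := Nat.div_add_mod (N.multichoose (M + 1)) (N + 1)
      have h7 := Nat.mod_lt (N.multichoose (M + 1)) (show 0 < N + 1 by omega)
      omega
    nlinarith

theorem HN_step {N c e t : ℕ} (hN : 1 ≤ N) (hc : HN N c) (hce : c ≤ e) (he : 1 ≤ e)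
    (ht : ∀ M, t ≤ M → (N + 1).multichoose (M - t) + N * (M + 1) ≤ (N + 1).multichoose M) :
    HN (N + 1) (e + t) := by
  intro d u hu
  rcases hu with rfl | ⟨hd, hu⟩
  · exact GGS_zero _ _
  · have h1 : GGS (N + 1) d (Ud N e d) := GGS_of_GDS (GDS_Ud hN hc hce he d 0 (Nat.zero_le _))
    apply GGS_mono h1
    have h2 := Ud_ge (N := N) (e := e) hN (d - e)
    have h3 := ht (d - e) (by omega)
    rw [Nat.add_sub_cancel' (by omega : e ≤ d)] at h2
    have h4 : d - e - t = d - (e + t) := by omega
    rw [h4] at h3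
    have h5 : (N + 1) * u ≤ (N + 1) * Ud N e d := by omega
    exact Nat.le_of_mul_le_mul_left h5 (by omega)

theorem HN_two : HN 2 0 := by
  intro d u hu
  apply GGS_two
  rcases hu with rfl | ⟨-, hu⟩
  · omega
  · rw [Nat.multichoose_two, Nat.sub_zero] at hu
    exact hu

theorem HN_three : HN 3 4 := by
  have h := HN_step (N := 2) (c := 0) (e := 1) (t := 3) (by omega) HN_two (by omega) (by omega) ?_
  · exact h
  · intro M hM
    obtain ⟨m, rfl⟩ : ∃ m, M = m + 3 := ⟨M - 3, by omega⟩
    rw [Nat.add_sub_cancel]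
    have h1 : ∀ k, (2 + 1).multichoose (k + 1) = (k + 2) + (2 + 1).multichoose k := by
      intro k
      rw [Nat.multichoose_succ_succ, Nat.multichoose_two]
    rw [h1 (m + 2), h1 (m + 1), h1 m]
    omega

theorem mc_two_shift {N M : ℕ} (hN : 3 ≤ N) (hM : 2 ≤ M) :
    N * (M + 1) ≤ N.multichoose M + N.multichoose (M - 1) := by
  obtain ⟨n, rfl⟩ : ∃ n, N = n + 1 := ⟨N - 1, by omega⟩
  induction M, hM using Nat.le_induction with
  | base =>
    have h1 : (n + 1).multichoose 2 = n.multichoose 2 + (n + 1) := by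
      rw [Nat.multichoose_succ_succ, Nat.multichoose_one_right]
    obtain ⟨m, rfl⟩ : ∃ m, n = m + 1 := ⟨n - 1, by omega⟩
    have h2 : (m + 1).multichoose 2 = m.multichoose 2 + (m + 1) := by
      rw [Nat.multichoose_succ_succ, Nat.multichoose_one_right]
    have h3 : ∀ k : ℕ, 1 ≤ k → k ≤ k.multichoose 2 := by
      intro k hk
      have := mc_mono hk (show 1 ≤ 2 by omega)
      rwa [Nat.multichoose_one_right] at this
    have h4 := h3 m (by omega)
    simp only [Nat.add_one_sub_one, Nat.multichoose_one_right]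
    omega
  | succ M hM ih =>
    obtain ⟨m, rfl⟩ : ∃ m, M = m + 1 := ⟨M - 1, by omega⟩
    simp only [Nat.add_one_sub_one] at ih ⊢
    have h1 : (n + 1).multichoose (m + 1 + 1) =
        n.multichoose (m + 1 + 1) + (n + 1).multichoose (m + 1) :=
      Nat.multichoose_succ_succ _ _
    have h2 : (n + 1).multichoose (m + 1) = n.multichoose (m + 1) + (n + 1).multichoose m :=
      Nat.multichoose_succ_succ _ _
    have h3 : n ≤ n.multichoose (m + 1) := by
      have := mc_mono (show 1 ≤ n by omega) (show 1 ≤ m + 1 by omega)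
      rwa [Nat.multichoose_one_right] at this
    have h4 : n ≤ n.multichoose (m + 1 + 1) := by
      have := mc_mono (show 1 ≤ n by omega) (show 1 ≤ m + 1 + 1 by omega)
      rwa [Nat.multichoose_one_right] at this
    nlinarith

theorem HN_general (n : ℕ) (hn : 2 ≤ n) : HN (n + 1) (2 * n) := by
  induction n, hn using Nat.le_induction with
  | base => exact HN_three
  | succ n hn ih =>
    have h := HN_step (N := n + 1) (c := 2 * n) (e := 2 * n) (t := 2) (by omega) ih (by omega)
      (by omega) ?_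
    · have h5 : 2 * (n + 1) = 2 * n + 2 := by ring
      rw [h5]
      exact h
    · intro M hM
      obtain ⟨m, rfl⟩ : ∃ m, M = m + 2 := ⟨M - 2, by omega⟩
      rw [Nat.add_sub_cancel]
      have h1 : ∀ k, (n + 1 + 1).multichoose (k + 1) =
          (n + 1).multichoose (k + 1) + (n + 1 + 1).multichoose k := by
        intro k
        rw [Nat.multichoose_succ_succ]
      have h3 : (n + 1 + 1).multichoose (m + 2) =
          (n + 1).multichoose (m + 2) + (n + 1 + 1).multichoose (m + 1) := h1 (m + 1)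
      rw [h3, h1 m]
      have h2 := mc_two_shift (N := n + 1) (M := m + 2) (by omega) (by omega)
      have h4 : m + 2 - 1 = m + 1 := by omega
      rw [h4] at h2
      omega

end H80R
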