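import Mathlib
import Pool.Agent.H80R.Numer

namespace H80R

open MvPolynomial

theorem exists_lf_ne {N : ℕ} {x : Fin N → ℂ} (hx : x ≠ 0) :
    ∃ h : Fin N → ℂ, eval x (lf h) ≠ 0 := by
  obtain ⟨i, hi⟩ := Function.ne_iff.mp hx
  refine ⟨Pi.single i 1, ?_⟩
  rw [eval_lf]
  rw [Finset.sum_eq_single i]
  · simpa using hi
  · intro j _ hj
    simp [hj]
  · simp

theorem HS_single {N : ℕ} {x : Fin N → ℂ} (hx : x ≠ 0) (d : ℕ) :
    HS N (d + 2) x (fun s : Fin 0 => s.elim0) := by
  induction d with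
  | zero =>
    intro Q hQ t
    refine ⟨∑ l, ∑ m, C (Q l m / 2) * (X l * X m), ?_, ?_, fun s => s.elim0⟩
    · refine Submodule.sum_mem _ fun l _ => Submodule.sum_mem _ fun m _ => ?_
      have h1 : (X l * X m : MvPolynomial (Fin N) ℂ) ∈ Fm N 2 :=
        mul_mem_Fm (d := 1) (e := 1) (isHomogeneous_X _ _) (isHomogeneous_X _ _)
      exact IsHomogeneous.C_mul h1 _
    · ext i j
      simp only [hs, map_sum, Derivation.leibniz, pderiv_X, smul_eq_mul, map_add, map_mul,
        pderiv_C, eval_C, map_zero, eval_X]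
      have h2 : ∀ a b : Fin N, ((eval x) ((pderiv i) (Pi.single (M := fun _ => MvPolynomial (Fin N) ℂ) a 1 b))) = 0 := by
        intro a b
        by_cases h : b = a
        · subst h
          simp
        · simp [h]
      simp only [h2, mul_zero, add_zero, zero_add, zero_mul]
      have h3 : ∀ a b : Fin N, eval x (Pi.single (M := fun _ => MvPolynomial (Fin N) ℂ) a 1 b) =
          if b = a then 1 else 0 := by
        intro a b
        by_cases h : b = a
        · subst h
          simp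
        · simp [h]
      simp only [h3]
      simp only [mul_add, Finset.sum_add_distrib, mul_ite, mul_one, mul_zero,
        Finset.sum_ite_eq', Finset.mem_univ, if_true]
      simp [hQ j i]
  | succ d ih =>
    intro Q hQ t
    obtain ⟨h, hh⟩ := exists_lf_ne hx
    obtain ⟨B, hB, hB1, hB2⟩ := HS_mul ih h hh (fun s => s.elim0) Q hQ t
    exact ⟨lf h * B, lf_mul_mem h hB, hB1, hB2⟩

theorem GS_pow {N d a : ℕ} {z : Fin a → Fin N → ℂ} (hz : GS N d z) (h : Fin N → ℂ)
    (hh : ∀ s, eval (z s) (lf h) ≠ 0) (m : ℕ) (t : Fin a → Fin N → ℂ) :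
    ∃ B ∈ Fm N d, ∀ s, gr (z s) (lf h ^ m * B) = t s := by
  have hmem : ∀ m : ℕ, ∀ B ∈ Fm N d, lf h ^ m * B ∈ Fm N (d + m) := by
    intro m B hB
    induction m with
    | zero => simpa using hB
    | succ m ih =>
      rw [pow_succ', mul_assoc, ← add_assoc]
      exact lf_mul_mem h ih
  have hker : ∀ m : ℕ, ∀ B ∈ Fm N d, ∀ s, gr (z s) (lf h ^ m * B) = 0 → gr (z s) B = 0 := by
    intro m B hB s
    induction m with
    | zero => simp
    | succ m ih =>
      intro h0
      rw [pow_succ', mul_assoc] at h0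
      exact ih (gr_zero_of_lf_mul h (z s) (hh s) (hmem m B hB) h0).2
  let φ : Fm N d →ₗ[ℂ] (Fin a → Fin N → ℂ) :=
    { toFun := fun B s => gr (z s) (lf h ^ m * B.1)
      map_add' := by
        intro A B; ext s l; simp [mul_add, gr_add]
      map_smul' := by
        intro c A; ext s l; simp [gr_smul] }
  have h1 : Function.Surjective (grL N d z) := by
    intro t
    obtain ⟨A, hA, hAt⟩ := hz t
    exact ⟨⟨A, hA⟩, funext hAt⟩
  have h2 : LinearMap.ker φ ≤ LinearMap.ker (grL N d z) := by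
    intro B hB
    rw [LinearMap.mem_ker] at hB ⊢
    funext s
    exact hker m B.1 B.2 s (congrFun hB s)
  obtain ⟨B, hB⟩ := surj_of_ker_le _ φ h1 h2 t
  exact ⟨B.1, B.2, fun s => congrFun hB s⟩

theorem HS_special {N d a : ℕ} {x : Fin N → ℂ} (hx : x ≠ 0) {z : Fin a → Fin N → ℂ}
    (hz : GS N d z) (h : Fin N → ℂ) (hh : ∀ s, eval (z s) (lf h) ≠ 0)
    (hhx : eval x (lf h) = 0) : HS N (d + 3) x z := by
  intro Q hQ t
  obtain ⟨A, hA, hA1, -⟩ := HS_single hx (d + 1) Q hQ (fun s => s.elim0)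
  obtain ⟨B, hB, hB1⟩ := GS_pow hz h hh 3 (fun s => t s - gr (z s) A)
  have hmem : lf h ^ 3 * B ∈ Fm N (d + 3) := by
    have h1 : lf h ^ 3 * B = lf h * (lf h * (lf h * B)) := by ring
    rw [h1]
    exact lf_mul_mem h (lf_mul_mem h (lf_mul_mem h hB))
  refine ⟨A + lf h ^ 3 * B, (Fm N (d + 3)).add_mem hA hmem, ?_, fun s => ?_⟩
  · have h1 : lf h ^ 3 * B = lf h * (lf h * (lf h * B)) := by ring
    have h2 : hs x (lf h ^ 3 * B) = 0 := by
      rw [h1]
      ext l m
      simp only [hs_lf_mul, gr_lf_mul, map_mul, hhx]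
      simp
    rw [hs_add, h2, add_zero, hA1]
  · rw [gr_add, hB1]
    simp

/-- generic version of `HS` -/
def GHS (N d a : ℕ) : Prop :=
  ∀ (x : Fin N → ℂ) (z : Fin a → Fin N → ℂ),
    AlgebraicIndependent ℚ (Sum.elim x (fun p : Fin a × Fin N => z p.1 p.2)) → HS N d x z

theorem GHS_of_exists {N d a : ℕ}
    (h : ∃ (x : Fin N → ℂ) (z : Fin a → Fin N → ℂ), HS N d x z) : GHS N d a := by
  classical
  obtain ⟨x₀, z₀, h₀⟩ := h
  intro x z hxz Q hQ t
  let τ := Fin N ⊕ (Fin a × Fin N)
  let P := {p : Fin N × Fin N // p.1 ≤ p.2}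
  let ι := P ⊕ (Fin a × Fin N)
  let L : ι → List (Fin N) := Sum.elim (fun p => [p.1.1, p.1.2]) (fun p => [p.2])
  let pt : ι → Fin N → MvPolynomial τ ℚ :=
    Sum.elim (fun _ m => X (Sum.inl m)) (fun p m => X (Sum.inr (p.1, m)))
  have key : ∀ (x : Fin N → ℂ) (z : Fin a → Fin N → ℂ) (A : MvPolynomial (Fin N) ℂ),
      (∀ p : P, eval (fun l' => aeval (Sum.elim x (fun p : Fin a × Fin N => z p.1 p.2))
          (pt (Sum.inl p) l')) (dl (L (Sum.inl p)) A) = hs x A p.1.1 p.1.2) ∧
      (∀ (s : Fin a) (l : Fin N),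
        eval (fun l' => aeval (Sum.elim x (fun p : Fin a × Fin N => z p.1 p.2))
          (pt (Sum.inr (s, l)) l')) (dl (L (Sum.inr (s, l))) A) = gr (z s) A l) := by
    intro x z A
    constructor
    · intro p
      simp [pt, L, hs]
    · intro s l
      simp [pt, L, gr]
  have h1 := spec_forms (d := d) L pt (Sum.elim x₀ (fun p : Fin a × Fin N => z₀ p.1 p.2)) (by
        intro β
        let Q₀ : Fin N → Fin N → ℂ := fun l m =>
          if h : l ≤ m then β (Sum.inl ⟨(l, m), h⟩)
          else β (Sum.inl ⟨(m, l), (not_le.mp h).le⟩)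
        have hQ₀ : ∀ l m, Q₀ l m = Q₀ m l := by
          intro l m
          rcases lt_trichotomy l m with h | h | h
          · simp only [Q₀]
            rw [dif_pos h.le, dif_neg (not_le.mpr h)]
          · rw [h]
          · simp only [Q₀]
            rw [dif_neg (not_le.mpr h), dif_pos h.le]
        obtain ⟨A, hA, hA1, hA2⟩ := h₀ Q₀ hQ₀ (fun s l => β (Sum.inr (s, l)))
        refine ⟨A, hA, ?_⟩
        rintro (p | ⟨s, l⟩)
        · rw [(key x₀ z₀ A).1 p, hA1]
          simp only [Q₀]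
          rw [dif_pos p.2]
        · rw [(key x₀ z₀ A).2 s l, hA2]) _ hxz
    (Sum.elim (fun p => Q p.1.1 p.1.2) (fun p => t p.1 p.2))
  obtain ⟨A, hA, hA1⟩ := h1
  refine ⟨A, hA, ?_, fun s => ?_⟩
  · ext l m
    rcases le_total l m with h | h
    · have h2 := hA1 (Sum.inl ⟨(l, m), h⟩)
      rw [(key x z A).1] at h2
      exact h2
    · have h2 := hA1 (Sum.inl ⟨(m, l), h⟩)
      rw [(key x z A).1] at h2
      rw [hs_symm, hQ]
      exact h2
  · ext l
    have h2 := hA1 (Sum.inr (s, l))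
    rw [(key x z A).2] at h2
    exact h2

theorem GHS_of_GGS {N d a : ℕ} (hN : 2 ≤ N) (h : GGS N d a) : GHS N (d + 3) a := by
  classical
  apply GHS_of_exists
  obtain ⟨v, hv⟩ := exists_algebraicIndependent (Fin a × Fin N)
  let i0 : Fin N := ⟨0, by omega⟩
  let i1 : Fin N := ⟨1, by omega⟩
  have h01 : i0 ≠ i1 := by
    intro h
    simpa [i0, i1] using congrArg Fin.val h
  have hsum : ∀ w : Fin N → ℂ, eval w (lf (Pi.single i1 1)) = w i1 := by
    intro w
    rw [eval_lf, Finset.sum_eq_single i1]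
    · simp
    · intro j _ hj
      simp [hj]
    · simp
  refine ⟨Pi.single i0 1, fun s l => v (s, l), ?_⟩
  refine HS_special (d := d) ?_ (h _ hv) (Pi.single i1 1) (fun s => ?_) ?_
  · intro h
    have := congrFun h i0
    simp at this
  · rw [hsum]
    exact hv.ne_zero _
  · rw [hsum]
    simp [h01.symm]

theorem GHS_zero {N : ℕ} (hN : 1 ≤ N) (d : ℕ) : GHS N (d + 2) 0 := by
  apply GHS_of_exists
  refine ⟨Pi.single ⟨0, by omega⟩ 1, fun s => s.elim0, ?_⟩
  apply HS_single
  intro h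
  have := congrFun h ⟨0, by omega⟩
  simp at this

/-- Numerical form: in `n + 1` variables, a triple point and `a` double points in general
position impose independent conditions on forms of degree `k - 1`. -/
theorem GHS_numeric {n k a : ℕ} (hn : 2 ≤ n) (hk : 3 ≤ k)
    (h : (n + 1) * a ≤ (k - n - 4).choose n) : GHS (n + 1) (k - 1) a := by
  rcases Nat.eq_zero_or_pos a with h0 | h0
  · subst h0
    obtain ⟨m, rfl⟩ : ∃ m, k = m + 3 := ⟨k - 3, by omega⟩
    exact GHS_zero (by omega) m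
  · have h1 : n ≤ k - n - 4 := by
      by_contra hcon
      rw [Nat.choose_eq_zero_of_lt (by omega)] at h
      nlinarith
    obtain ⟨m, rfl⟩ : ∃ m, k = m + 2 * n + 4 := ⟨k - 2 * n - 4, by omega⟩
    have h2 : GGS (n + 1) (m + 2 * n) a := by
      apply HN_general n hn
      right
      refine ⟨by omega, ?_⟩
      have h3 : m + 2 * n - 2 * n = m := by omega
      rw [h3, Nat.multichoose_eq]
      have h4 : n + 1 + m - 1 = n + m := by omega
      rw [h4]
      have h5 : m + 2 * n + 4 - n - 4 = n + m := by omega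
      rw [h5] at h
      have h6 : (n + m).choose n = (n + m).choose m := Nat.choose_symm_add
      rw [← h6]
      exact h
    have h7 := GHS_of_GGS (by omega) h2
    have h8 : m + 2 * n + 3 = m + 2 * n + 4 - 1 := by omega
    rw [h8] at h7
    exact h7

end H80R
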