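import Mathlib
import Pool.Agent.H80R.Triple

namespace H80R

open MvPolynomial

theorem der_prod {R A : Type*} [CommRing R] [CommRing A] [Algebra R A]
    (D : Derivation R A A) {ι : Type*} [DecidableEq ι] (s : Finset ι) (f : ι → A) :
    D (∏ j ∈ s, f j) = ∑ j ∈ s, D (f j) * ∏ l ∈ s.erase j, f l := by
  induction s using Finset.induction_on with
  | empty => simp
  | insert a s ha ih =>
    rw [Finset.prod_insert ha, Derivation.leibniz, ih, Finset.sum_insert ha,
      Finset.erase_insert ha]
    simp only [smul_eq_mul, Finset.mul_sum]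
    rw [add_comm]
    congr 1
    · ring
    · refine Finset.sum_congr rfl fun j hj => ?_
      have hja : j ≠ a := by
        rintro rfl
        exact ha hj
      rw [Finset.erase_insert_of_ne hja.symm, Finset.prod_insert]
      · ring
      · intro h
        exact ha (Finset.mem_of_mem_erase h)

/-- The power `v ⊗ ... ⊗ v` (`k` factors), as a function of `k` indices. -/
def pw {N : ℕ} (k : ℕ) (v : Fin N → ℂ) : (Fin k → Fin N) → ℂ := fun i => ∏ j, v (i j)

/-- The tangent tensor `∑_j x ⊗ ... ⊗ y ⊗ ... ⊗ x` (`y` in position `j`). -/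
def tt {N : ℕ} (k : ℕ) (x y : Fin N → ℂ) : (Fin k → Fin N) → ℂ :=
  fun i => ∑ j, y (i j) * ∏ l ∈ Finset.univ.erase j, x (i l)

/-- The monomial attached to a multi-index. -/
noncomputable def mon {R : Type*} [CommRing R] {N k : ℕ} (i : Fin k → Fin N) :
    MvPolynomial (Fin N) R := ∏ j, X (i j)

theorem mon_map {R S : Type*} [CommRing R] [CommRing S] (φ : R →+* S) {N k : ℕ}
    (i : Fin k → Fin N) : map φ (mon i : MvPolynomial (Fin N) R) = mon i := by
  simp [mon]

theorem eval_mon {N k : ℕ} (v : Fin N → ℂ) (i : Fin k → Fin N) :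
    eval v (mon i : MvPolynomial (Fin N) ℂ) = pw k v i := by
  simp [mon, pw, map_prod]

theorem sum_gr_mon {N k : ℕ} (x y : Fin N → ℂ) (i : Fin k → Fin N) :
    ∑ l, y l * gr x (mon i) l = tt k x y i := by
  classical
  have h : ∀ l, gr x (mon i : MvPolynomial (Fin N) ℂ) l =
      ∑ j, (if i j = l then ∏ m ∈ Finset.univ.erase j, x (i m) else 0) := by
    intro l
    simp only [gr, mon]
    rw [der_prod]
    simp only [map_sum, map_mul, map_prod, eval_X, pderiv_X]
    refine Finset.sum_congr rfl fun j _ => ?_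
    by_cases h : i j = l
    · rw [if_pos h, h]; simp
    · rw [if_neg h]; simp [h]
  simp only [h, tt, Finset.mul_sum]
  rw [Finset.sum_comm]
  refine Finset.sum_congr rfl fun j _ => ?_
  simp

theorem mon_mem {N k : ℕ} (i : Fin k → Fin N) : (mon i : MvPolynomial (Fin N) ℂ) ∈ Fm N k := by
  have h := IsHomogeneous.prod Finset.univ (fun j => (X (i j) : MvPolynomial (Fin N) ℂ))
    (fun _ => 1) (fun j _ => isHomogeneous_X _ _)
  have h1 : ∑ _j : Fin k, 1 = k := by simp
  rw [h1] at h
  exact h

theorem exists_mon {N : ℕ} (k : ℕ) (α : Fin N →₀ ℕ) (hα : α.degree = k) :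
    ∃ i : Fin k → Fin N, (mon i : MvPolynomial (Fin N) ℂ) = monomial α 1 := by
  induction k generalizing α with
  | zero =>
    refine ⟨fun j => j.elim0, ?_⟩
    have : α = 0 := (Finsupp.degree_eq_zero_iff α).mp hα
    subst this
    simp [mon]
  | succ k ih =>
    have h1 : α ≠ 0 := by
      rintro rfl
      simp at hα
    obtain ⟨l, hl⟩ := Finsupp.ne_iff.mp h1
    have hl' : Finsupp.single l 1 ≤ α := by
      rw [Finsupp.single_le_iff]
      exact Nat.one_le_iff_ne_zero.mpr hl
    have h2 : (α - Finsupp.single l 1) + Finsupp.single l 1 = α := tsub_add_cancel_of_le hl'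
    have h3 : (α - Finsupp.single l 1).degree = k := by
      have h4 := congrArg Finsupp.degree h2
      rw [map_add, Finsupp.degree_single, hα] at h4
      omega
    obtain ⟨i, hi⟩ := ih _ h3
    refine ⟨Fin.cons l i, ?_⟩
    have h5 : (mon (Fin.cons l i : Fin (k + 1) → Fin N) : MvPolynomial (Fin N) ℂ) =
        X l * mon i := by
      simp [mon, Fin.prod_univ_succ]
    rw [h5, hi]
    conv_rhs => rw [← h2]
    rw [MvPolynomial.monomial_add_single, pow_one, mul_comm]

theorem Fm_eq_span (N k : ℕ) : Fm N k =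
    Submodule.span ℂ (Set.range (fun i : Fin k → Fin N => (mon i : MvPolynomial (Fin N) ℂ))) := by
  apply le_antisymm
  · intro A hA
    rw [eq_ofCoef hA]
    refine Submodule.sum_mem _ fun α _ => Submodule.smul_mem _ _ ?_
    obtain ⟨i, hi⟩ := exists_mon k α.1 (mem_Ex.mp α.2)
    rw [← hi]
    exact Submodule.subset_span ⟨i, rfl⟩
  · rw [Submodule.span_le]
    rintro _ ⟨i, rfl⟩
    exact mon_mem i

/-- Two linear functionals agreeing on all monomials `mon i` agree on all forms. -/
theorem ext_forms {N k : ℕ} (f g : MvPolynomial (Fin N) ℂ →ₗ[ℂ] ℂ)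
    (h : ∀ i : Fin k → Fin N, f (mon i) = g (mon i)) {A : MvPolynomial (Fin N) ℂ}
    (hA : A ∈ Fm N k) : f A = g A := by
  rw [Fm_eq_span] at hA
  induction hA using Submodule.span_induction with
  | mem x hx =>
    obtain ⟨i, rfl⟩ := hx
    exact h i
  | zero => simp
  | add x y _ _ hx hy => rw [map_add, map_add, hx, hy]
  | smul c x _ hx => rw [map_smul, map_smul, hx]

/-- evaluation functional -/
noncomputable def evF {N : ℕ} (v : Fin N → ℂ) : MvPolynomial (Fin N) ℂ →ₗ[ℂ] ℂ where
  toFun A := eval v A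
  map_add' A B := by simp
  map_smul' c A := by simp

/-- directional derivative functional -/
noncomputable def drF {N : ℕ} (x y : Fin N → ℂ) : MvPolynomial (Fin N) ℂ →ₗ[ℂ] ℂ where
  toFun A := ∑ l, y l * gr x A l
  map_add' A B := by simp [gr_add, mul_add, Finset.sum_add_distrib]
  map_smul' c A := by
    simp only [gr_smul, Pi.smul_apply, smul_eq_mul, RingHom.id_apply, Finset.mul_sum]
    exact Finset.sum_congr rfl fun l _ => by ring

/-- second directional derivative functional -/
noncomputable def hsF {N : ℕ} (x y u : Fin N → ℂ) : MvPolynomial (Fin N) ℂ →ₗ[ℂ] ℂ where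
  toFun A := ∑ l, y l * ∑ m, hs x A m l * u m
  map_add' A B := by simp [hs_add, mul_add, add_mul, Finset.sum_add_distrib]
  map_smul' c A := by
    simp only [hs_smul, Pi.smul_apply, smul_eq_mul, RingHom.id_apply, Finset.mul_sum]
    exact Finset.sum_congr rfl fun l _ => Finset.sum_congr rfl fun m _ => by ring

/-- Chain rule for derivations and rational polynomials. -/
theorem der_aeval {N : ℕ} (D : Derivation ℚ ℂ ℂ) (w : Fin N → ℂ) (P : MvPolynomial (Fin N) ℚ) :
    D (aeval w P) = ∑ l, aeval w (pderiv l P) * D (w l) := by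
  induction P using MvPolynomial.induction_on with
  | C a =>
    have h1 : aeval w (C a : MvPolynomial (Fin N) ℚ) = algebraMap ℚ ℂ a := by simp
    rw [h1, Derivation.map_algebraMap]
    simp
  | add p q hp hq =>
    simp only [map_add, hp, hq, add_mul, Finset.sum_add_distrib]
  | mul_X p n hp =>
    rw [map_mul, Derivation.leibniz, hp]
    simp only [aeval_X, smul_eq_mul, Derivation.leibniz, pderiv_X, map_add, map_mul, add_mul,
      Finset.sum_add_distrib, Finset.mul_sum]
    congr 1
    · rw [Finset.sum_eq_single n]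
      · simp
      · intro b _ hb
        simp [hb.symm]
      · simp
    · exact Finset.sum_congr rfl fun l _ => by ring

theorem aeval_eq_eval_map {N : ℕ} (w : Fin N → ℂ) (P : MvPolynomial (Fin N) ℚ) :
    aeval w P = eval w (map (algebraMap ℚ ℂ) P) := by
  rw [eval_map, aeval_def]

theorem gr_mon_aeval {N k : ℕ} (w : Fin N → ℂ) (i : Fin k → Fin N) (l : Fin N) :
    aeval w (pderiv l (mon i : MvPolynomial (Fin N) ℚ)) = gr w (mon i) l := by
  rw [aeval_eq_eval_map, ← pderiv_map, mon_map]
  rfl

theorem hs_mon_aeval {N k : ℕ} (w : Fin N → ℂ) (i : Fin k → Fin N) (l m : Fin N) :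
    aeval w (pderiv m (pderiv l (mon i : MvPolynomial (Fin N) ℚ))) = hs w (mon i) m l := by
  rw [aeval_eq_eval_map, ← pderiv_map, ← pderiv_map, mon_map]
  rfl

theorem der_pw {N k : ℕ} (D : Derivation ℚ ℂ ℂ) (w : Fin N → ℂ) (i : Fin k → Fin N) :
    D (pw k w i) = drF w (fun l => D (w l)) (mon i) := by
  have h1 : pw k w i = aeval w (mon i : MvPolynomial (Fin N) ℚ) := by
    rw [aeval_eq_eval_map, mon_map, eval_mon]
  rw [h1, der_aeval]
  simp only [drF, LinearMap.coe_mk, AddHom.coe_mk, gr_mon_aeval]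
  exact Finset.sum_congr rfl fun l _ => by ring

theorem der_tt {N k : ℕ} (D : Derivation ℚ ℂ ℂ) (x y : Fin N → ℂ) (i : Fin k → Fin N) :
    D (tt k x y i) = drF x (fun l => D (y l)) (mon i) +
      hsF x y (fun l => D (x l)) (mon i) := by
  have h1 : tt k x y i = ∑ l, y l * aeval x (pderiv l (mon i : MvPolynomial (Fin N) ℚ)) := by
    rw [← sum_gr_mon]
    exact Finset.sum_congr rfl fun l _ => by rw [gr_mon_aeval]
  rw [h1, map_sum]
  have h2 : ∀ l, D (y l * aeval x (pderiv l (mon i : MvPolynomial (Fin N) ℚ))) =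
      D (y l) * gr x (mon i) l + y l * ∑ m, hs x (mon i) m l * D (x m) := by
    intro l
    rw [Derivation.leibniz, der_aeval, gr_mon_aeval]
    simp only [hs_mon_aeval, smul_eq_mul]
    ring
  simp only [h2, Finset.sum_add_distrib, drF, hsF, LinearMap.coe_mk, AddHom.coe_mk]

end H80R
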