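import Mathlib
import Pool.Agent.H80R.Tensor

namespace H80R

open MvPolynomial

/-- Two linearly independent vectors have dual vectors. -/
theorem exists_dual_pair {N : ℕ} (x y : Fin N → ℂ) (i j : Fin N)
    (h : x i * y j - x j * y i ≠ 0) :
    ∃ ξ η : Fin N → ℂ, (∑ l, ξ l * x l = 1 ∧ ∑ l, ξ l * y l = 0) ∧
      (∑ l, η l * x l = 0 ∧ ∑ l, η l * y l = 1) := by
  classical
  have hij : i ≠ j := by
    rintro rfl
    exact h (by ring)
  have hsum : ∀ (a b : ℂ) (v : Fin N → ℂ),
      ∑ l, (Pi.single i a + Pi.single j b : Fin N → ℂ) l * v l = a * v i + b * v j := by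
    intro a b v
    simp only [Pi.add_apply, add_mul, Finset.sum_add_distrib]
    congr 1
    · rw [Finset.sum_eq_single i]
      · simp
      · intro l _ hl
        simp [hl]
      · simp
    · rw [Finset.sum_eq_single j]
      · simp
      · intro l _ hl
        simp [hl]
      · simp
  refine ⟨Pi.single i (y j / (x i * y j - x j * y i)) +
    Pi.single j (-(y i) / (x i * y j - x j * y i)),
    Pi.single i (-(x j) / (x i * y j - x j * y i)) +
    Pi.single j (x i / (x i * y j - x j * y i)), ⟨?_, ?_⟩, ⟨?_, ?_⟩⟩ <;>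
  · rw [hsum, div_mul_eq_mul_div, div_mul_eq_mul_div, ← add_div, div_eq_iff h]
    ring

/-- A symmetric matrix with prescribed compatible values on `x` and `y`. -/
theorem exists_sym {N : ℕ} (x y : Fin N → ℂ) (i j : Fin N)
    (h : x i * y j - x j * y i ≠ 0) (p q : Fin N → ℂ)
    (hpq : ∑ l, y l * p l = ∑ l, x l * q l) :
    ∃ Q : Fin N → Fin N → ℂ, (∀ l m, Q l m = Q m l) ∧
      (∀ m, ∑ l, x l * Q l m = p m) ∧ (∀ m, ∑ l, y l * Q l m = q m) := by
  obtain ⟨ξ, η, ⟨h1, h2⟩, ⟨h3, h4⟩⟩ := exists_dual_pair x y i j h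
  have h1' : ∑ l, x l * ξ l = 1 := by rw [← h1]; exact Finset.sum_congr rfl fun l _ => by ring
  have h2' : ∑ l, y l * ξ l = 0 := by rw [← h2]; exact Finset.sum_congr rfl fun l _ => by ring
  have h3' : ∑ l, x l * η l = 0 := by rw [← h3]; exact Finset.sum_congr rfl fun l _ => by ring
  have h4' : ∑ l, y l * η l = 1 := by rw [← h4]; exact Finset.sum_congr rfl fun l _ => by ring
  set A := ∑ l, x l * p l with hA
  set B := ∑ l, y l * q l with hB
  set c := ∑ l, y l * p l with hc
  have hc' : ∑ l, x l * q l = c := hpq.symm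
  have key : ∀ (v : Fin N → ℂ) (m : Fin N),
      ∑ l, v l * (p l * ξ m + p m * ξ l + (q l * η m + q m * η l) - A * (ξ l * ξ m)
        - B * (η l * η m) - c * (ξ l * η m + ξ m * η l)) =
      (∑ l, v l * p l) * ξ m + p m * (∑ l, v l * ξ l) + ((∑ l, v l * q l) * η m
        + q m * (∑ l, v l * η l)) - A * ((∑ l, v l * ξ l) * ξ m) - B * ((∑ l, v l * η l) * η m)
        - c * ((∑ l, v l * ξ l) * η m + ξ m * (∑ l, v l * η l)) := by
    intro v m
    simp only [Finset.sum_mul, Finset.mul_sum, ← Finset.sum_add_distrib, ← Finset.sum_sub_distrib]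
    exact Finset.sum_congr rfl fun l _ => by ring
  refine ⟨fun l m => p l * ξ m + p m * ξ l + (q l * η m + q m * η l) - A * (ξ l * ξ m)
    - B * (η l * η m) - c * (ξ l * η m + ξ m * η l), fun l m => by ring, fun m => ?_,
    fun m => ?_⟩
  · rw [key, h1', h3', ← hA, hc']
    ring
  · rw [key, h2', h4', ← hB, ← hc]
    ring

/-- A hyperplane through `P` avoiding finitely many points that are not proportional to `P`. -/
theorem exists_hyperplane {N m : ℕ} (P : Fin N → ℂ) (v : Fin m → Fin N → ℂ)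
    (hv : ∀ s, ∃ i j, P i * v s j - P j * v s i ≠ 0) :
    ∃ h : Fin N → ℂ, eval P (lf h) = 0 ∧ ∀ s, eval (v s) (lf h) ≠ 0 := by
  classical
  -- the hyperplanes through `P`
  let ev : (Fin N → ℂ) → (Fin N → ℂ) →ₗ[ℂ] ℂ := fun w =>
    { toFun := fun h => ∑ l, h l * w l
      map_add' := by
        intro a b
        simp [add_mul, Finset.sum_add_distrib]
      map_smul' := by
        intro c a
        simp only [Pi.smul_apply, smul_eq_mul, RingHom.id_apply, Finset.mul_sum]
        exact Finset.sum_congr rfl fun l _ => by ring }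
  let H := LinearMap.ker (ev P)
  let S : Fin m → Submodule ℂ H := fun s => LinearMap.ker ((ev (v s)).domRestrict H)
  have hS : ∀ s, S s ≠ ⊤ := by
    intro s hs
    obtain ⟨i, j, hij⟩ := hv s
    have hne : i ≠ j := by
      rintro rfl
      exact hij (by ring)
    let h : Fin N → ℂ := Pi.single j (P i) + Pi.single i (-(P j))
    have hsum : ∀ w : Fin N → ℂ, ∑ l, h l * w l = P i * w j - P j * w i := by
      intro w
      simp only [h, Pi.add_apply, add_mul, Finset.sum_add_distrib]
      rw [Finset.sum_eq_single j, Finset.sum_eq_single i]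
      · simp
        ring
      · intro l _ hl
        simp [hl]
      · simp
      · intro l _ hl
        simp [hl]
      · simp
    have hH : h ∈ H := by
      change ∑ l, h l * P l = 0
      rw [hsum]
      ring
    have h2 : (⟨h, hH⟩ : H) ∈ S s := by
      rw [hs]
      trivial
    have h3 : ∑ l, h l * v s l = 0 := h2
    rw [hsum] at h3
    exact hij h3
  have h1 := Subspace.biUnion_ne_univ_of_top_notMem (s := Finset.univ.image S) (by
    intro h
    obtain ⟨s, -, hs⟩ := Finset.mem_image.mp h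
    exact hS s hs)
  obtain ⟨h, hh⟩ := (Set.ne_univ_iff_exists_notMem _).mp h1
  refine ⟨h.1, ?_, fun s => ?_⟩
  · rw [eval_lf]
    exact h.2
  · intro h0
    apply hh
    rw [eval_lf] at h0
    simp only [Finset.mem_image, Set.mem_iUnion, exists_prop]
    exact ⟨S s, ⟨s, Finset.mem_univ _, rfl⟩, h0⟩

/-- The gradient at a nonzero point is arbitrary. -/
theorem exists_gr {N : ℕ} {P : Fin N → ℂ} (hP : P ≠ 0) (d : ℕ) (g : Fin N → ℂ) :
    ∃ A ∈ Fm N (d + 1), gr P A = g := by
  have h : ∀ d : ℕ, GS N (d + 1) (fun _ : Fin 1 => P) := by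
    intro d
    induction d with
    | zero =>
      intro t
      refine ⟨lf (t 0), lf_mem _, fun s => ?_⟩
      have hs : s = 0 := Subsingleton.elim _ _
      subst hs
      ext l
      simp [gr, pderiv_lf]
    | succ d ih =>
      intro t
      obtain ⟨h, hh⟩ := exists_lf_ne hP
      obtain ⟨B, hB, hB1⟩ := GS_mul ih h (fun _ => hh) t
      exact ⟨lf h * B, lf_mul_mem h hB, hB1⟩
  obtain ⟨A, hA, hA1⟩ := h d (fun _ => g)
  exact ⟨A, hA, hA1 0⟩

/-- Euler for second derivatives. -/
theorem euler2 {N d : ℕ} {A : MvPolynomial (Fin N) ℂ} (hA : A ∈ Fm N (d + 1)) (v : Fin N → ℂ)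
    (m : Fin N) : ∑ l, v l * hs v A l m = d * gr v A m :=
  euler (pderiv_mem hA m) v

end H80R
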