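import Mathlib
import Pool.Agent.H80R.Core

namespace H80R

open MvPolynomial

theorem drF_apply {N : ℕ} (x y : Fin N → ℂ) (A : MvPolynomial (Fin N) ℂ) :
    drF x y A = ∑ l, y l * gr x A l := rfl

theorem hsF_apply {N : ℕ} (x y u : Fin N → ℂ) (A : MvPolynomial (Fin N) ℂ) :
    hsF x y u A = ∑ l, y l * ∑ m, hs x A m l * u m := rfl

theorem evF_apply {N : ℕ} (v : Fin N → ℂ) (A : MvPolynomial (Fin N) ℂ) :
    evF v A = eval v A := rfl

/-- forms singular along a decomposition are orthogonal to the tangent space of the family -/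
theorem tangent_incl {N k a r : ℕ} (x y : Fin N → ℂ) (z : Fin a → Fin N → ℂ)
    (halg : AlgebraicIndependent ℚ
      (Sum.elim x (Sum.elim y (fun p : Fin a × Fin N => z p.1 p.2))))
    (w : Fin r → Fin N → ℂ)
    (hT : ∀ i, tt k x y i + ∑ s, pw k (z s) i = ∑ j, pw k (w j) i)
    {A : MvPolynomial (Fin N) ℂ} (hA : A ∈ Fm N k) (hw : ∀ j, gr (w j) A = 0) :
    gr x A = 0 ∧ (∀ m, ∑ l, y l * hs x A m l = 0) ∧ ∀ s, gr (z s) A = 0 := by
  classical
  have key : ∀ (cx cy : Fin N → ℂ) (cz : Fin a → Fin N → ℂ),
      drF x cy A + hsF x y cx A + ∑ s, drF (z s) (cz s) A = 0 := by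
    intro cx cy cz
    obtain ⟨D, hD⟩ := exists_derivation _ halg
      (Sum.elim cx (Sum.elim cy (fun p : Fin a × Fin N => cz p.1 p.2)))
    have hDx : (fun l => D (x l)) = cx := by
      ext l
      exact hD (Sum.inl l)
    have hDy : (fun l => D (y l)) = cy := by
      ext l
      exact hD (Sum.inr (Sum.inl l))
    have hDz : ∀ s, (fun l => D (z s l)) = cz s := by
      intro s
      ext l
      exact hD (Sum.inr (Sum.inr (s, l)))
    have h1 := ext_forms (N := N) (k := k)
      (drF x cy + hsF x y cx + ∑ s, drF (z s) (cz s))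
      (∑ j, drF (w j) (fun l => D (w j l))) (by
        intro i
        have h2 := congrArg D (hT i)
        rw [map_add, map_sum, map_sum, der_tt, hDx, hDy] at h2
        simp only [der_pw, hDz] at h2
        simpa using h2) hA
    simp only [LinearMap.add_apply, LinearMap.coe_sum, Finset.sum_apply] at h1
    rw [h1]
    apply Finset.sum_eq_zero
    intro j _
    rw [drF_apply, hw j]
    simp
  refine ⟨?_, ?_, ?_⟩
  · ext l
    have h := key 0 (Pi.single l 1) 0
    simp only [drF_apply, hsF_apply, Pi.zero_apply, mul_zero, zero_mul, Finset.sum_const_zero,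
      add_zero] at h
    rw [Finset.sum_eq_single l] at h
    · simpa using h
    · intro b _ hb
      simp [hb]
    · simp
  · intro m
    have h := key (Pi.single m 1) 0 0
    simp only [drF_apply, hsF_apply, Pi.zero_apply, mul_zero, zero_mul, Finset.sum_const_zero,
      add_zero, zero_add] at h
    rw [← h]
    refine Finset.sum_congr rfl fun l _ => ?_
    rw [Finset.sum_eq_single m]
    · simp
    · intro b _ hb
      simp [hb]
    · simp
  · intro s
    ext l
    have h := key 0 0 (Pi.single s (Pi.single l 1))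
    simp only [drF_apply, hsF_apply, Pi.zero_apply, mul_zero, zero_mul, Finset.sum_const_zero,
      add_zero, zero_add] at h
    rw [Finset.sum_eq_single s] at h
    · rw [Finset.sum_eq_single l] at h
      · simpa using h
      · intro b _ hb
        simp [hb]
      · simp
    · intro b _ hb
      simp [hb]
    · simp

/-- the conditions defining the annihilator of the tangent space -/
noncomputable def TL (N k : ℕ) {a : ℕ} (x y : Fin N → ℂ) (z : Fin a → Fin N → ℂ) :
    Fm N k →ₗ[ℂ] (Fin a → Fin N → ℂ) × (Fin N → ℂ) × (Fin N → ℂ) where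
  toFun A := (fun s => gr (z s) A.1, gr x A.1, fun m => ∑ l, y l * hs x A.1 m l)
  map_add' A B := by
    refine Prod.ext ?_ (Prod.ext ?_ ?_)
    · ext s l
      simp [gr_add]
    · ext l
      simp [gr_add]
    · ext m
      simp [hs_add, mul_add, Finset.sum_add_distrib]
  map_smul' c A := by
    refine Prod.ext ?_ (Prod.ext ?_ ?_)
    · ext s l
      simp [gr_smul]
    · ext l
      simp [gr_smul]
    · ext m
      simp only [SetLike.val_smul, hs_smul, Pi.smul_apply, smul_eq_mul, RingHom.id_apply,
        Prod.smul_mk, Finset.mul_sum]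
      exact Finset.sum_congr rfl fun l _ => by ring

theorem TL_ker_finrank {N k a : ℕ} (x y : Fin N → ℂ) (z : Fin a → Fin N → ℂ)
    (i j : Fin N) (hxy : x i * y j - x j * y i ≠ 0) (hH : HS N (k + 2) x z) :
    Module.finrank ℂ (LinearMap.ker (TL N (k + 2) x y z)) + (a + 2) * N ≤
      Module.finrank ℂ (Fm N (k + 2)) + 1 := by
  classical
  -- the compatibility functional
  let lam : ((Fin a → Fin N → ℂ) × (Fin N → ℂ) × (Fin N → ℂ)) →ₗ[ℂ] ℂ :=
    { toFun := fun p => ∑ l, x l * p.2.2 l - ((k + 1 : ℕ) : ℂ) * ∑ l, y l * p.2.1 l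
      map_add' := by
        intro p q
        simp only [Prod.snd_add, Prod.fst_add, Pi.add_apply, mul_add, Finset.sum_add_distrib]
        ring
      map_smul' := by
        intro c p
        simp only [Prod.smul_snd, Prod.smul_fst, Pi.smul_apply, smul_eq_mul, RingHom.id_apply,
          mul_sub, Finset.mul_sum]
        congr 1
        · exact Finset.sum_congr rfl fun l _ => by ring
        · exact Finset.sum_congr rfl fun l _ => by ring }
  have h1 : LinearMap.ker lam ≤ LinearMap.range (TL N (k + 2) x y z) := by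
    rintro ⟨t, u0, u1⟩ hp
    have hp' : ∑ l, x l * u1 l - ((k + 1 : ℕ) : ℂ) * ∑ l, y l * u0 l = 0 := hp
    obtain ⟨Q, hQ, hQ1, hQ2⟩ := exists_sym x y i j hxy (fun l => ((k + 1 : ℕ) : ℂ) * u0 l) u1 (by
      rw [sub_eq_zero] at hp'
      rw [hp', Finset.mul_sum]
      exact Finset.sum_congr rfl fun l _ => by ring)
    obtain ⟨A, hA, hA1, hA2⟩ := hH Q hQ t
    refine ⟨⟨A, hA⟩, ?_⟩
    refine Prod.ext (funext hA2) (Prod.ext ?_ ?_)
    · funext m
      have h2 := euler2 (d := k + 1) hA x m
      rw [hA1, hQ1 m] at h2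
      have h3 : ((k + 1 : ℕ) : ℂ) ≠ 0 := Nat.cast_ne_zero.mpr (Nat.succ_ne_zero k)
      exact (mul_left_cancel₀ h3 h2).symm
    · funext m
      change ∑ l, y l * hs x A m l = u1 m
      rw [← hQ2 m, hA1]
      exact Finset.sum_congr rfl fun l _ => by rw [hQ m l]
  have h2 := Submodule.finrank_mono h1
  have h3 := LinearMap.finrank_range_add_finrank_ker lam
  have h4 : Module.finrank ℂ (LinearMap.range lam) ≤ 1 := by
    have := Submodule.finrank_le (LinearMap.range lam)
    simpa using this
  have h5 : Module.finrank ℂ ((Fin a → Fin N → ℂ) × (Fin N → ℂ) × (Fin N → ℂ)) =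
      (a + 2) * N := by
    rw [Module.finrank_prod, Module.finrank_prod, Module.finrank_pi_fintype]
    simp
    ring
  have h6 := LinearMap.finrank_range_add_finrank_ker (TL N (k + 2) x y z)
  rw [h5] at h3
  omega

end H80R
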