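import Mathlib
import Pool.Agent.H80R.Core2

namespace H80R

open MvPolynomial

theorem prop_of_minors {N : ℕ} (P v : Fin N → ℂ) (hv : v ≠ 0)
    (h : ∀ i j, P i * v j - P j * v i = 0) : ∃ c : ℂ, P = c • v := by
  obtain ⟨i, hi⟩ := Function.ne_iff.mp hv
  have hi' : v i ≠ 0 := hi
  refine ⟨P i / v i, ?_⟩
  ext j
  have h1 := h i j
  simp only [Pi.smul_apply, smul_eq_mul]
  rw [div_mul_eq_mul_div, eq_div_iff hi']
  linear_combination -h1

theorem eval_smul_form {N d : ℕ} {A : MvPolynomial (Fin N) ℂ} (hA : A ∈ Fm N d) (c : ℂ)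
    (v : Fin N → ℂ) : eval (c • v) A = c ^ d * eval v A := by
  have h := ext_forms (N := N) (k := d) (evF (c • v)) (c ^ d • evF v) (by
    intro i
    simp only [LinearMap.smul_apply, evF_apply, eval_mon, pw, Pi.smul_apply, smul_eq_mul,
      Finset.prod_mul_distrib, Finset.prod_const, Finset.card_univ, Fintype.card_fin]) hA
  exact h

/-- Pigeonhole for subspaces of codimension at most one. -/
theorem exists_comb {V : Type*} [AddCommGroup V] [Module ℂ V] [FiniteDimensional ℂ V]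
    (K T : Submodule ℂ V) (hKT : K ≤ T)
    (hdim : Module.finrank ℂ T ≤ Module.finrank ℂ K + 1) (a1 a2 : V) (ha1 : a1 ∈ T)
    (ha2 : a2 ∈ T) : ∃ c1 c2 : ℂ, (c1 ≠ 0 ∨ c2 ≠ 0) ∧ c1 • a1 + c2 • a2 ∈ K := by
  by_contra hno
  push Not at hno
  let φ : ((Fin 2 → ℂ) × K) →ₗ[ℂ] T :=
    { toFun := fun p => ⟨p.1 0 • a1 + p.1 1 • a2 + p.2.1,
        T.add_mem (T.add_mem (T.smul_mem _ ha1) (T.smul_mem _ ha2)) (hKT p.2.2)⟩
      map_add' := by
        intro p q
        apply Subtype.ext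
        simp only [Prod.fst_add, Prod.snd_add, Pi.add_apply, add_smul, Submodule.coe_add]
        abel
      map_smul' := by
        intro c p
        apply Subtype.ext
        simp only [Prod.smul_fst, Prod.smul_snd, Pi.smul_apply, smul_eq_mul, mul_smul,
          Submodule.coe_smul, RingHom.id_apply, smul_add] }
  have hφ : Function.Injective φ := by
    rw [← LinearMap.ker_eq_bot, Submodule.eq_bot_iff]
    intro p hp
    have h1 : p.1 0 • a1 + p.1 1 • a2 + p.2.1 = 0 :=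
      congrArg Subtype.val (LinearMap.mem_ker.mp hp)
    have h2 : p.1 0 • a1 + p.1 1 • a2 ∈ K := by
      have h3 : p.1 0 • a1 + p.1 1 • a2 = -p.2.1 := eq_neg_of_add_eq_zero_left h1
      rw [h3]
      exact K.neg_mem p.2.2
    have h3 : p.1 0 = 0 ∧ p.1 1 = 0 := by
      by_contra h4
      apply hno (p.1 0) (p.1 1) _ h2
      by_contra h5
      push Not at h5
      exact h4 h5
    refine Prod.ext ?_ ?_
    · ext i
      fin_cases i
      · exact h3.1
      · exact h3.2
    · apply Subtype.ext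
      rw [h3.1, h3.2, zero_smul, zero_smul, zero_add, zero_add] at h1
      exact h1
  have h1 := LinearMap.finrank_le_finrank_of_injective hφ
  rw [Module.finrank_prod] at h1
  simp only [Module.finrank_fintype_fun_eq_card, Fintype.card_fin] at h1
  omega

/-- Key step: every point of a decomposition is proportional to `x` or to some `z s`. -/
theorem core_points {N k a : ℕ} (hN : 3 ≤ N) (x y : Fin N → ℂ) (z : Fin a → Fin N → ℂ)
    (halg : AlgebraicIndependent ℚ
      (Sum.elim x (Sum.elim y (fun p : Fin a × Fin N => z p.1 p.2))))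
    (i₀ j₀ : Fin N) (hxy : x i₀ * y j₀ - x j₀ * y i₀ ≠ 0)
    (hx0 : x ≠ 0) (hz0 : ∀ s, z s ≠ 0)
    (hH : HS N (k + 2) x z) (hH' : HS N (k + 3) x z) (w : Fin (a + 2) → Fin N → ℂ)
    (hT : ∀ i, tt (k + 3) x y i + ∑ s, pw (k + 3) (z s) i = ∑ j, pw (k + 3) (w j) i)
    (j : Fin (a + 2)) :
    w j = 0 ∨ (∃ c : ℂ, w j = c • x) ∨ ∃ s, ∃ c : ℂ, w j = c • z s := by
  classical
  by_contra hcon
  push Not at hcon
  obtain ⟨hw0, hwx, hwz⟩ := hcon
  set P := w j with hP
  -- minors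
  have hmx : ∃ i j, P i * x j - P j * x i ≠ 0 := by
    by_contra h
    push Not at h
    obtain ⟨c, hc⟩ := prop_of_minors P x hx0 h
    exact hwx c hc
  have hmz : ∀ s, ∃ i j, P i * z s j - P j * z s i ≠ 0 := by
    intro s
    by_contra h
    push Not at h
    obtain ⟨c, hc⟩ := prop_of_minors P (z s) (hz0 s) h
    exact hwz s c hc
  obtain ⟨h, hhP, hhv⟩ := exists_hyperplane P (Fin.cons x z : Fin (a + 1) → Fin N → ℂ) (by
    intro s
    refine Fin.cases ?_ (fun s => ?_) s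
    · simpa using hmx
    · simpa using hmz s)
  have hhx : eval x (lf h) ≠ 0 := by simpa using hhv 0
  have hhz : ∀ s, eval (z s) (lf h) ≠ 0 := by
    intro s
    simpa using hhv s.succ
  -- `h` is nonzero at some coordinate
  have hh0 : h ≠ 0 := by
    rintro rfl
    apply hhx
    rw [eval_lf]
    simp
  obtain ⟨i1, hi1⟩ := Function.ne_iff.mp hh0
  -- two other coordinates
  obtain ⟨j1, j2, hj1, hj2, hj12⟩ : ∃ j1 j2 : Fin N, j1 ≠ i1 ∧ j2 ≠ i1 ∧ j1 ≠ j2 := by
    have h1 : 2 ≤ (Finset.univ.erase i1).card := by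
      rw [Finset.card_erase_of_mem (Finset.mem_univ _), Finset.card_univ, Fintype.card_fin]
      omega
    obtain ⟨a', ha', b', hb', hab⟩ := Finset.one_lt_card.mp (show 1 < (Finset.univ.erase i1).card by omega)
    exact ⟨a', b', Finset.ne_of_mem_erase ha', Finset.ne_of_mem_erase hb', hab⟩
  -- forms in the annihilator with prescribed gradient at `P` modulo `h`
  have hex : ∀ g : Fin N → ℂ, ∃ A ∈ Fm N (k + 3), A ∈ Fm N (k + 3) ∧ hs x A = 0 ∧
      (∀ s, gr (z s) A = 0) ∧ ∃ β : ℂ, gr P A = g - β • h := by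
    intro g
    obtain ⟨A, hA, hA1⟩ := exists_gr hw0 (k + 2) g
    obtain ⟨B, hB, hB1, hB2⟩ := HS_mul (d := k + 1) hH h hhx hhz (hs x A) (hs_symm x A)
      (fun s => gr (z s) A)
    have hmem : A - lf h * B ∈ Fm N (k + 3) :=
      (Fm N (k + 3)).sub_mem hA (lf_mul_mem h hB)
    refine ⟨A - lf h * B, hmem, hmem, ?_, ?_, eval P B, ?_⟩
    · have h1 : A - lf h * B = A + (-1 : ℂ) • (lf h * B) := by simp [sub_eq_add_neg]
      rw [h1, hs_add, hs_smul, hB1]
      simp
    · intro s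
      have h1 : A - lf h * B = A + (-1 : ℂ) • (lf h * B) := by simp [sub_eq_add_neg]
      rw [h1, gr_add, gr_smul, hB2 s]
      simp
    · have h1 : A - lf h * B = A + (-1 : ℂ) • (lf h * B) := by simp [sub_eq_add_neg]
      rw [h1, gr_add, gr_smul, hA1]
      ext m
      simp only [Pi.add_apply, Pi.smul_apply, gr_lf_mul, hhP, Pi.sub_apply, smul_eq_mul]
      ring
  obtain ⟨A1, hA1, -, hA1x, hA1z, β1, hA1P⟩ := hex (Pi.single j1 1)
  obtain ⟨A2, hA2, -, hA2x, hA2z, β2, hA2P⟩ := hex (Pi.single j2 1)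
  -- dimension count
  let K := LinearMap.ker (grL N (k + 3) w)
  let T := LinearMap.ker (TL N (k + 3) x y z)
  have hKT : K ≤ T := by
    intro A hA
    have h1 : ∀ j, gr (w j) A.1 = 0 := fun j => congrFun (LinearMap.mem_ker.mp hA) j
    obtain ⟨h2, h3, h4⟩ := tangent_incl x y z halg w hT A.2 h1
    change TL N (k + 3) x y z A = 0
    refine Prod.ext (funext fun s => h4 s) (Prod.ext h2 (funext fun m => ?_))
    change ∑ l, y l * hs x A.1 m l = 0
    exact h3 m
  have hK : Module.finrank ℂ (Fm N (k + 3)) ≤ Module.finrank ℂ K + (a + 2) * N := by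
    have h1 := LinearMap.finrank_range_add_finrank_ker (grL N (k + 3) w)
    have h2 : Module.finrank ℂ (LinearMap.range (grL N (k + 3) w)) ≤ (a + 2) * N := by
      have := Submodule.finrank_le (LinearMap.range (grL N (k + 3) w))
      refine this.trans ?_
      rw [Module.finrank_pi_fintype]
      simp
    change _ ≤ Module.finrank ℂ (LinearMap.ker (grL N (k + 3) w)) + _
    omega
  have hT1 := TL_ker_finrank (k := k + 1) x y z i₀ j₀ hxy hH'
  have hT2 : Module.finrank ℂ T + (a + 2) * N ≤ Module.finrank ℂ (Fm N (k + 3)) + 1 := hT1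
  -- membership of `A1`, `A2` in `T`
  have hmemT : ∀ (A : MvPolynomial (Fin N) ℂ) (hA : A ∈ Fm N (k + 3)), hs x A = 0 →
      (∀ s, gr (z s) A = 0) → (⟨A, hA⟩ : Fm N (k + 3)) ∈ T := by
    intro A hA h1 h2
    change TL N (k + 3) x y z ⟨A, hA⟩ = 0
    refine Prod.ext (funext fun s => h2 s) (Prod.ext (gr_zero_of_hs hA x h1)
      (funext fun m => ?_))
    change ∑ l, y l * hs x A m l = 0
    rw [h1]
    simp
  let a1 : Fm N (k + 3) := ⟨A1, hA1⟩
  let a2 : Fm N (k + 3) := ⟨A2, hA2⟩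
  have ha1 : a1 ∈ T := hmemT A1 hA1 hA1x hA1z
  have ha2 : a2 ∈ T := hmemT A2 hA2 hA2x hA2z
  -- a combination lies in `K`
  have hcomb : ∃ c1 c2 : ℂ, (c1 ≠ 0 ∨ c2 ≠ 0) ∧ c1 • a1 + c2 • a2 ∈ K :=
    exists_comb K T hKT (by omega) a1 a2 ha1 ha2
  obtain ⟨c1, c2, hc, hcK⟩ := hcomb
  have h1 : gr P (c1 • A1 + c2 • A2) = 0 := by
    have h2 := congrFun (LinearMap.mem_ker.mp hcK) j
    exact h2
  rw [gr_add, gr_smul, gr_smul, hA1P, hA2P] at h1
  have e0 := congrFun h1 i1
  have e1 := congrFun h1 j1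
  have e2 := congrFun h1 j2
  simp only [Pi.add_apply, Pi.smul_apply, Pi.sub_apply, smul_eq_mul, Pi.zero_apply] at e0 e1 e2
  rw [Pi.single_eq_of_ne hj1.symm, Pi.single_eq_of_ne hj2.symm] at e0
  rw [Pi.single_eq_same, Pi.single_eq_of_ne hj12] at e1
  rw [Pi.single_eq_of_ne hj12.symm, Pi.single_eq_same] at e2
  have hi1' : h i1 ≠ 0 := hi1
  have hβ : c1 * β1 + c2 * β2 = 0 := by
    have : (c1 * β1 + c2 * β2) * h i1 = 0 := by linear_combination -e0
    exact (mul_eq_zero.mp this).resolve_right hi1'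
  have hc1 : c1 = 0 := by linear_combination e1 + hβ * h j1
  have hc2 : c2 = 0 := by linear_combination e2 + hβ * h j2
  rcases hc with hc | hc
  · exact hc hc1
  · exact hc hc2

/-- The generic tensor `x^{k-1} y + ∑ z_s^k` has no decomposition with `a + 2` powers. -/
theorem core {N k a : ℕ} (hN : 3 ≤ N) (x y : Fin N → ℂ) (z : Fin a → Fin N → ℂ)
    (halg : AlgebraicIndependent ℚ
      (Sum.elim x (Sum.elim y (fun p : Fin a × Fin N => z p.1 p.2))))
    (hH : HS N (k + 2) x z) (w : Fin (a + 2) → Fin N → ℂ)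
    (hT : ∀ i, tt (k + 3) x y i + ∑ s, pw (k + 3) (z s) i = ∑ j, pw (k + 3) (w j) i) :
    False := by
  classical
  let i0 : Fin N := ⟨0, by omega⟩
  let i1 : Fin N := ⟨1, by omega⟩
  have h01 : i0 ≠ i1 := by
    intro h
    simpa [i0, i1] using congrArg Fin.val h
  have hx0 : x i0 ≠ 0 := halg.ne_zero (Sum.inl i0)
  have hz0 : ∀ s, z s i0 ≠ 0 := fun s => halg.ne_zero (Sum.inr (Sum.inr (s, i0)))
  have hxne : x ≠ 0 := fun h => hx0 (congrFun h i0)
  have hzne : ∀ s, z s ≠ 0 := fun s h => hz0 s (congrFun h i0)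
  have hsum : ∀ v : Fin N → ℂ, eval v (lf (Pi.single i0 1)) = v i0 := by
    intro v
    rw [eval_lf, Finset.sum_eq_single i0]
    · simp
    · intro j _ hj
      simp [hj]
    · simp
  have hxy : x i0 * y i1 - x i1 * y i0 ≠ 0 := by
    intro h
    let σ := Fin N ⊕ (Fin N ⊕ (Fin a × Fin N))
    let p : MvPolynomial σ ℚ := X (Sum.inl i0) * X (Sum.inr (Sum.inl i1)) -
      X (Sum.inl i1) * X (Sum.inr (Sum.inl i0))
    have hp : aeval (Sum.elim x (Sum.elim y (fun p : Fin a × Fin N => z p.1 p.2))) p = 0 := by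
      simpa [p] using h
    have hp0 := halg.eq_zero_of_aeval_eq_zero _ hp
    have h2 := congrArg (eval (Sum.elim (Pi.single i0 1) (Sum.elim (Pi.single i1 1) 0) :
      σ → ℚ)) hp0
    simp [p, h01] at h2
  have hH' : HS N (k + 3) x z := by
    intro Q hQ t
    obtain ⟨B, hB, hB1, hB2⟩ := HS_mul (d := k + 1) hH (Pi.single i0 1) (by rw [hsum]; exact hx0)
      (fun s => by rw [hsum]; exact hz0 s) Q hQ t
    exact ⟨_, lf_mul_mem _ hB, hB1, hB2⟩
  have hpts := core_points hN x y z halg i0 i1 hxy hxne hzne hH hH' w hT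
  -- test form
  obtain ⟨ξ, η, ⟨h1, -⟩, ⟨h3, h4⟩⟩ := exists_dual_pair x y i0 i1 hxy
  obtain ⟨Q, hQ, hQ1, hQ2⟩ := exists_sym x y i0 i1 hxy η ξ (by
    have e1 : ∑ l, y l * η l = ∑ l, η l * y l := Finset.sum_congr rfl fun l _ => by ring
    have e2 : ∑ l, x l * ξ l = ∑ l, ξ l * x l := Finset.sum_congr rfl fun l _ => by ring
    rw [e1, e2, h1, h4])
  obtain ⟨A, hA, hA1, hA2⟩ := hH' Q hQ 0
  have hk2 : ((k + 2 : ℕ) : ℂ) ≠ 0 := Nat.cast_ne_zero.mpr (by omega)
  have hk3 : ((k + 3 : ℕ) : ℂ) ≠ 0 := Nat.cast_ne_zero.mpr (by omega)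
  have hgr : ∀ m, ((k + 2 : ℕ) : ℂ) * gr x A m = η m := by
    intro m
    rw [← euler2 (d := k + 2) hA x m, hA1, hQ1 m]
  have hevx : eval x A = 0 := by
    have e1 := euler hA x
    have e2 : ((k + 2 : ℕ) : ℂ) * ∑ l, x l * gr x A l = 0 := by
      rw [Finset.mul_sum, ← h3]
      refine Finset.sum_congr rfl fun l _ => ?_
      rw [← hgr l]
      ring
    have e3 := (mul_eq_zero.mp e2).resolve_left hk2
    rw [e3] at e1
    exact (mul_eq_zero.mp e1.symm).resolve_left hk3
  have hevz : ∀ s, eval (z s) A = 0 := by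
    intro s
    exact ev_zero_of_gr hA (z s) (by rw [hA2 s]; rfl)
  have hdr : ((k + 2 : ℕ) : ℂ) * ∑ l, y l * gr x A l = 1 := by
    rw [Finset.mul_sum, ← h4]
    refine Finset.sum_congr rfl fun l _ => ?_
    rw [← hgr l]
    ring
  have hid := ext_forms (N := N) (k := k + 3) (drF x y + ∑ s, evF (z s)) (∑ j, evF (w j)) (by
    intro i
    simp only [LinearMap.add_apply, LinearMap.coe_sum, Finset.sum_apply, drF_apply, evF_apply,
      sum_gr_mon, eval_mon]
    exact hT i) hA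
  simp only [LinearMap.add_apply, LinearMap.coe_sum, Finset.sum_apply, drF_apply, evF_apply,
    hevz, Finset.sum_const_zero, add_zero] at hid
  have hrhs : ∑ j, eval (w j) A = 0 := by
    apply Finset.sum_eq_zero
    intro j _
    rcases hpts j with h | ⟨c, h⟩ | ⟨s, c, h⟩
    · rw [h]
      have := eval_smul_form hA 0 (0 : Fin N → ℂ)
      rw [smul_zero] at this
      rw [this]
      simp
    · rw [h, eval_smul_form hA, hevx, mul_zero]
    · rw [h, eval_smul_form hA, hevz s, mul_zero]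
  rw [hrhs] at hid
  rw [hid, mul_zero] at hdr
  exact zero_ne_one hdr

end H80R
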