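import Mathlib

namespace H80R

open Topology

/-- Invariance of a function of `k` indices under permutations of the indices. -/
def IsSym {N k : ℕ} (T : (Fin k → Fin N) → ℂ) : Prop :=
  ∀ (σ : Equiv.Perm (Fin k)) (i : Fin k → Fin N), T (i ∘ σ) = T i

theorem IsSym.add {N k : ℕ} {S T : (Fin k → Fin N) → ℂ} (hS : IsSym S) (hT : IsSym T) :
    IsSym (S + T) := by
  intro σ i
  simp [hS σ i, hT σ i]

theorem IsSym.zero {N k : ℕ} : IsSym (0 : (Fin k → Fin N) → ℂ) := fun _ _ => rfl

theorem IsSym.smul {N k : ℕ} (c : ℂ) {T : (Fin k → Fin N) → ℂ} (hT : IsSym T) :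
    IsSym (c • T) := by
  intro σ i
  simp [hT σ i]

theorem IsSym.pow {N k : ℕ} (v : Fin N → ℂ) : IsSym (fun i : Fin k → Fin N => ∏ j, v (i j)) := by
  intro σ i
  simp only [Function.comp]
  exact Equiv.prod_comp σ (fun j => v (i j))

/-- Symmetric tensors of order `k` on `ℂ^N`, as functions of `k` indices. -/
def SymT (N k : ℕ) : Submodule ℂ ((Fin k → Fin N) → ℂ) where
  carrier := {T | IsSym T}
  add_mem' := IsSym.add
  zero_mem' := IsSym.zero
  smul_mem' := fun c _ hT => IsSym.smul c hT

/-- The power `v ⊗ ⋯ ⊗ v` (`k` factors). -/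
def tpow {N : ℕ} (k : ℕ) (v : Fin N → ℂ) : SymT N k :=
  ⟨fun i => ∏ j, v (i j), IsSym.pow v⟩

/-- The symmetric rank of `T` is at most `r`. -/
def RankLE {N k : ℕ} (r : ℕ) (T : SymT N k) : Prop :=
  ∃ (c : Fin r → ℂ) (v : Fin r → Fin N → ℂ), T = ∑ i, c i • tpow k (v i)

/-- The nonzero symmetric tensors of order `k` on `ℂ^N`. -/
def Nz (N k : ℕ) : Type := {v : SymT N k // v ≠ 0}

/-- The topology of the nonzero symmetric tensors, induced from the finite-dimensional complex
space `SymT N k`, whose topology is that of coordinatewise convergence. -/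
@[reducible]
noncomputable def nzTop (N k : ℕ) : TopologicalSpace (Nz N k) :=
  TopologicalSpace.induced (fun v : Nz N k => v.1.1) Pi.topologicalSpace

/-- The projective space of the space of symmetric tensors of order `k` on `ℂ^N`. -/
abbrev PS (N k : ℕ) : Type := Projectivization ℂ (SymT N k)

/-- The class of a nonzero symmetric tensor in the projective space of `SymT N k`. -/
noncomputable def cls (N k : ℕ) (v : Nz N k) : PS N k := Projectivization.mk ℂ v.1 v.2

/-- The topology of the projective space of symmetric tensors: the quotient topology from the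
nonzero tensors. -/
@[reducible]
noncomputable def projTop (N k : ℕ) : TopologicalSpace (PS N k) :=
  TopologicalSpace.coinduced (cls N k) (nzTop N k)

/-- The set `Y_r` of classes of tensors of symmetric rank at most `r`. -/
noncomputable def Y (N k r : ℕ) : Set (PS N k) := {p | RankLE r p.rep}

end H80R
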