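import Mathlib
import Pool.Agent.H80R.Core3
import Pool.Agent.H80R.Defs

namespace H80R

open MvPolynomial Topology Filter

theorem tpow_apply {N k : ℕ} (v : Fin N → ℂ) (i : Fin k → Fin N) :
    (tpow k v).1 i = pw k v i := rfl

theorem RankLE_of_fintype {N k r : ℕ} {ι : Type*} [Fintype ι] (hι : Fintype.card ι ≤ r)
    (T : SymT N k) (c : ι → ℂ) (v : ι → Fin N → ℂ) (h : T = ∑ i, c i • tpow k (v i)) :
    RankLE r T := by
  classical
  obtain ⟨f⟩ : Nonempty (ι ↪ Fin r) := by
    apply Function.Embedding.nonempty_of_card_le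
    simpa using hι
  refine ⟨fun j => if h : ∃ i, f i = j then c h.choose else 0,
    fun j => if h : ∃ i, f i = j then v h.choose else 0, ?_⟩
  rw [h]
  symm
  rw [← Finset.sum_subset (Finset.subset_univ (Finset.univ.map f))]
  · rw [Finset.sum_map]
    refine Finset.sum_congr rfl fun i _ => ?_
    have h1 : ∃ i', f i' = f i := ⟨i, rfl⟩
    have h2 : h1.choose = i := f.injective h1.choose_spec
    simp only
    rw [dif_pos h1, dif_pos h1, h2]
  · intro j _ hj
    simp only
    rw [dif_neg, zero_smul]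
    rintro ⟨i, rfl⟩
    exact hj (Finset.mem_map_of_mem f (Finset.mem_univ i))

theorem RankLE_smul {N k r : ℕ} {T : SymT N k} (h : RankLE r T) (c : ℂ) : RankLE r (c • T) := by
  obtain ⟨a, v, rfl⟩ := h
  refine ⟨fun i => c * a i, v, ?_⟩
  rw [Finset.smul_sum]
  exact Finset.sum_congr rfl fun i _ => by rw [mul_smul]

theorem mem_Y {N k r : ℕ} (T : SymT N k) (hT : T ≠ 0) :
    Projectivization.mk ℂ T hT ∈ Y N k r ↔ RankLE r T := by
  obtain ⟨a, ha⟩ := Projectivization.exists_smul_eq_mk_rep ℂ T hT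
  have ha' : (a : ℂ) • T = (Projectivization.mk ℂ T hT).rep := ha
  constructor
  · intro h
    have h1 : RankLE r (Projectivization.mk ℂ T hT).rep := h
    rw [← ha'] at h1
    have h2 := RankLE_smul h1 ((a : ℂ)⁻¹)
    rwa [smul_smul, inv_mul_cancel₀ a.ne_zero, one_smul] at h2
  · intro h
    have h1 := RankLE_smul h (a : ℂ)
    rw [ha'] at h1
    exact h1

/-- absorb the coefficients -/
theorem RankLE.exists_pw {N k r : ℕ} (hk : k ≠ 0) {T : SymT N k} (h : RankLE r T) :
    ∃ w : Fin r → Fin N → ℂ, ∀ i, T.1 i = ∑ j, pw k (w j) i := by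
  obtain ⟨c, v, rfl⟩ := h
  have hroot : ∀ j, ∃ b : ℂ, b ^ k = c j := fun j =>
    IsAlgClosed.exists_pow_nat_eq (c j) (Nat.pos_of_ne_zero hk)
  choose b hb using hroot
  refine ⟨fun j => b j • v j, fun i => ?_⟩
  rw [AddSubmonoidClass.coe_finsetSum, Finset.sum_apply]
  refine Finset.sum_congr rfl fun j _ => ?_
  simp only [Submodule.coe_smul, Pi.smul_apply, smul_eq_mul, tpow_apply, pw,
    Finset.prod_mul_distrib, Finset.prod_const, Finset.card_univ, Fintype.card_fin, hb]

/-- the tangent tensor as a symmetric tensor -/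
def ttS {N : ℕ} (k : ℕ) (x y : Fin N → ℂ) : SymT N k :=
  ⟨tt k x y, fun σ i => by
    classical
    simp only [tt, Function.comp]
    rw [← Equiv.sum_comp σ (fun j => y (i j) * ∏ l ∈ Finset.univ.erase j, x (i l))]
    refine Finset.sum_congr rfl fun j _ => ?_
    congr 1
    rw [← Finset.prod_image (s := Finset.univ.erase j) (g := σ) (f := fun l => x (i l))]
    · congr 1
      ext l
      simp only [Finset.mem_image, Finset.mem_erase, Finset.mem_univ, and_true]
      constructor
      · rintro ⟨m, hm, rfl⟩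
        exact fun h => hm (σ.injective h)
      · intro h
        refine ⟨σ.symm l, ?_, by simp⟩
        intro h2
        apply h
        rw [← h2]
        simp
    · exact σ.injective.injOn⟩

theorem hasDerivAt_pw {N k : ℕ} (x y : Fin N → ℂ) (i : Fin k → Fin N) :
    HasDerivAt (fun t : ℂ => pw k (x + t • y) i) (tt k x y i) 0 := by
  classical
  have h := HasDerivAt.fun_finsetProd (u := Finset.univ) (f := fun j (t : ℂ) => x (i j) + t * y (i j))
    (f' := fun j => y (i j)) (x := (0 : ℂ)) (by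
      intro j _
      have := ((hasDerivAt_id (0 : ℂ)).mul_const (y (i j))).const_add (x (i j))
      simpa using this)
  have h2 : (∑ j, (∏ l ∈ Finset.univ.erase j, (x (i l) + (0 : ℂ) * y (i l))) • y (i j)) =
      tt k x y i := by
    simp only [tt, zero_mul, add_zero, smul_eq_mul]
    exact Finset.sum_congr rfl fun j _ => mul_comm _ _
  rw [h2] at h
  exact h

/-- the difference quotient converges to the tangent tensor -/
theorem tendsto_quot {N k : ℕ} (x y : Fin N → ℂ) :
    Tendsto (fun t : ℂ => t⁻¹ • (tpow k (x + t • y) - tpow k x)) (𝓝[≠] 0) (𝓝 (ttS k x y)) := by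
  rw [tendsto_subtype_rng]
  rw [tendsto_pi_nhds]
  intro i
  have h := (hasDerivAt_iff_tendsto_slope_zero.mp (hasDerivAt_pw x y i))
  refine h.congr fun t => ?_
  simp only [zero_add, zero_smul, add_zero]
  rfl

theorem nzTop_eq (N k : ℕ) :
    nzTop N k = (instTopologicalSpaceSubtype : TopologicalSpace {v : SymT N k // v ≠ 0}) := by
  exact (induced_compose (f := fun v : {v : SymT N k // v ≠ 0} => v.1)
    (g := fun v : SymT N k => v.1)).symm

theorem closed_iff {N k : ℕ} (Z : Set (PS N k)) :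
    IsClosed[projTop N k] Z ↔
    IsClosed ((fun v : {v : SymT N k // v ≠ 0} => Projectivization.mk ℂ v.1 v.2) ⁻¹' Z) := by
  have h := @isClosed_coinduced _ _ (nzTop N k) Z (cls N k)
  rw [h]
  rw [nzTop_eq]
  rfl

theorem closed_pre {N k r : ℕ} (hcl : IsClosed[projTop N k] (Y N k r)) :
    IsClosed ((fun v : {v : SymT N k // v ≠ 0} => Projectivization.mk ℂ v.1 v.2) ⁻¹'
        (Y N k r)) := (closed_iff _).mp hcl

/-- If `Y_r` is closed then limits of tensors of rank at most `r` have rank at most `r`. -/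
theorem closed_imp {N k r : ℕ} (hk : k ≠ 0) (hcl : IsClosed[projTop N k] (Y N k r)) {a b : ℕ}
    (hab : 2 * a + b ≤ r) (x y : Fin a → Fin N → ℂ) (z : Fin b → Fin N → ℂ)
    (hne : ∑ s, ttS k (x s) (y s) + ∑ s, tpow k (z s) ≠ 0) :
    ∃ w : Fin r → Fin N → ℂ, ∀ i,
      ∑ s, tt k (x s) (y s) i + ∑ s, pw k (z s) i = ∑ j, pw k (w j) i := by
  classical
  set T : SymT N k := ∑ s, ttS k (x s) (y s) + ∑ s, tpow k (z s) with hT
  let f : ℂ → SymT N k := fun t =>
    ∑ s, t⁻¹ • (tpow k (x s + t • y s) - tpow k (x s)) + ∑ s, tpow k (z s)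
  have hf : Tendsto f (𝓝[≠] 0) (𝓝 T) := by
    apply Tendsto.add
    · exact tendsto_finsetSum _ fun s _ => tendsto_quot (x s) (y s)
    · exact tendsto_const_nhds
  have hrank : ∀ t, RankLE r (f t) := by
    intro t
    refine RankLE_of_fintype (ι := (Fin a ⊕ Fin a) ⊕ Fin b) (by simp; omega) _
      (Sum.elim (Sum.elim (fun _ => t⁻¹) (fun _ => -t⁻¹)) (fun _ => 1))
      (Sum.elim (Sum.elim (fun s => x s + t • y s) x) z) ?_
    simp only [Fintype.sum_sum_type, Sum.elim_inl, Sum.elim_inr, one_smul, f, smul_sub]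
    rw [← Finset.sum_add_distrib]
    congr 1
    exact Finset.sum_congr rfl fun s _ => by
      apply Subtype.ext
      ext i
      simp [sub_eq_add_neg]
  have hR : RankLE r T := by
    by_contra hcon
    have h1 := closed_pre hcl
    have h3 : (⟨T, hne⟩ : {v : SymT N k // v ≠ 0}) ∈
        ((fun v : {v : SymT N k // v ≠ 0} => Projectivization.mk ℂ v.1 v.2) ⁻¹' (Y N k r))ᶜ := by
      intro h4
      exact hcon ((mem_Y T hne).mp h4)
    have h5 := h1.isOpen_compl.mem_nhds h3
    rw [nhds_subtype_eq_comap, mem_comap] at h5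
    obtain ⟨O, hO, hOs⟩ := h5
    have h6 : ∀ᶠ t in 𝓝[≠] (0 : ℂ), f t ∈ O ∧ f t ≠ 0 :=
      (hf.eventually hO).and (hf.eventually (isOpen_ne.mem_nhds hne))
    obtain ⟨t, ht1, ht2⟩ := h6.exists
    have h7 : (⟨f t, ht2⟩ : {v : SymT N k // v ≠ 0}) ∈
        ((fun v : {v : SymT N k // v ≠ 0} => Projectivization.mk ℂ v.1 v.2) ⁻¹' (Y N k r))ᶜ :=
      hOs ht1
    exact h7 ((mem_Y (f t) ht2).mpr (hrank t))
  obtain ⟨w, hw⟩ := hR.exists_pw hk
  refine ⟨w, fun i => ?_⟩
  rw [← hw i, hT]
  simp only [Submodule.coe_add, AddSubmonoidClass.coe_finsetSum, Pi.add_apply, Finset.sum_apply]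
  rfl

end H80R
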