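import Mathlib
import Pool.Agent.H80R.Rank

namespace H80R

open MvPolynomial Topology Filter

/-- padding by zeros -/
def pad {m n : ℕ} (v : Fin m → ℂ) : Fin n → ℂ := fun l => if h : l.1 < m then v ⟨l.1, h⟩ else 0

theorem pad_castLE {m n : ℕ} (h : m ≤ n) (v : Fin m → ℂ) (l : Fin m) :
    (pad v : Fin n → ℂ) (Fin.castLE h l) = v l := by
  simp [pad]

theorem pw_pad {m n k : ℕ} (h : m ≤ n) (v : Fin m → ℂ) (i : Fin k → Fin m) :
    pw k (pad v : Fin n → ℂ) (fun j => Fin.castLE h (i j)) = pw k v i := by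
  simp only [pw, pad_castLE]

theorem tt_pad {m n k : ℕ} (h : m ≤ n) (x y : Fin m → ℂ) (i : Fin k → Fin m) :
    tt k (pad x : Fin n → ℂ) (pad y) (fun j => Fin.castLE h (i j)) = tt k x y i := by
  simp only [tt, pad_castLE]

/-- **Part (A).** -/
theorem not_closed_A {m n k r : ℕ} (hm : 2 ≤ m) (hmn : m ≤ n) (hk : 3 ≤ k) (hr : 2 ≤ r)
    (h : (m + 1) * (r - 2) ≤ (k - m - 4).choose m) :
    ¬ IsClosed[projTop (n + 1) k] (Y (n + 1) k r) := by
  intro hcl
  obtain ⟨a, rfl⟩ : ∃ a, r = a + 2 := ⟨r - 2, by omega⟩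
  obtain ⟨k', rfl⟩ : ∃ k', k = k' + 3 := ⟨k - 3, by omega⟩
  rw [Nat.add_sub_cancel] at h
  have hle : m + 1 ≤ n + 1 := by omega
  obtain ⟨v, hv⟩ := exists_algebraicIndependent
    (Fin (m + 1) ⊕ (Fin (m + 1) ⊕ (Fin a × Fin (m + 1))))
  let x : Fin (m + 1) → ℂ := fun l => v (Sum.inl l)
  let y : Fin (m + 1) → ℂ := fun l => v (Sum.inr (Sum.inl l))
  let z : Fin a → Fin (m + 1) → ℂ := fun s l => v (Sum.inr (Sum.inr (s, l)))
  have halg : AlgebraicIndependent ℚ
      (Sum.elim x (Sum.elim y (fun p : Fin a × Fin (m + 1) => z p.1 p.2))) := by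
    convert hv using 1
    ext (l | l | p) <;> rfl
  have hH : HS (m + 1) (k' + 2) x z := by
    have h1 := GHS_numeric (n := m) (k := k' + 3) (a := a) hm (by omega) h
    have h2 : k' + 3 - 1 = k' + 2 := by omega
    rw [h2] at h1
    apply h1
    have h3 := hv.comp (Sum.elim (fun l => Sum.inl l) (fun p => Sum.inr (Sum.inr p)) :
      Fin (m + 1) ⊕ (Fin a × Fin (m + 1)) → _) (by
        rintro (p | p) (q | q) h <;> simp at h ⊢ <;> exact h)
    convert h3 using 1
    ext (l | p) <;> rfl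
  have hcore := core (N := m + 1) (k := k') (a := a) (by omega) x y z halg hH
  have hne : ∑ s : Fin 1, ttS (k' + 3) ((fun _ => pad x : Fin 1 → Fin (n + 1) → ℂ) s)
      ((fun _ => pad y : Fin 1 → Fin (n + 1) → ℂ) s) +
      ∑ s, tpow (k' + 3) (pad (z s) : Fin (n + 1) → ℂ) ≠ 0 := by
    intro h0
    apply hcore (fun _ _ => 0)
    intro i
    have h1 := congrArg (fun T : SymT (n + 1) (k' + 3) => T.1 (fun j => Fin.castLE hle (i j))) h0
    simp only [Submodule.coe_add, AddSubmonoidClass.coe_finsetSum, Pi.add_apply,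
      Finset.sum_apply, Finset.univ_unique, Finset.sum_singleton] at h1
    have h2 : tt (k' + 3) (pad x : Fin (n + 1) → ℂ) (pad y) (fun j => Fin.castLE hle (i j)) +
        ∑ s, pw (k' + 3) (pad (z s) : Fin (n + 1) → ℂ) (fun j => Fin.castLE hle (i j)) = 0 := h1
    rw [tt_pad hle] at h2
    simp only [pw_pad hle] at h2
    rw [h2]
    simp [pw]
  obtain ⟨w, hw⟩ := closed_imp (by omega) hcl (a := 1) (b := a) (by omega)
    (fun _ => pad x) (fun _ => pad y) (fun s => pad (z s)) hne
  apply hcore (fun j l => w j (Fin.castLE hle l))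
  intro i
  have h1 := hw (fun j => Fin.castLE hle (i j))
  simp only [Finset.univ_unique, Finset.sum_singleton] at h1
  rw [tt_pad hle] at h1
  simp only [pw_pad hle] at h1
  exact h1

/-- comparison of binomial coefficients -/
theorem choose_compare {m k : ℕ} (hk : 2 * m ^ 2 + 4 * m ≤ k) :
    (k - (2 * m ^ 2 + 4 * m)) * (m + k).choose m ≤ k * (k - m - 4).choose m := by
  rcases Nat.eq_zero_or_pos m with h0 | hm
  · subst h0
    simp
  have hmm : m ≤ m ^ 2 := by nlinarith
  have key : ∀ j : ℕ, j ≤ m →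
      ((k : ℤ) - j * (2 * m + 4)) * ∏ i ∈ Finset.range j, ((m : ℤ) + k - i) ≤
        k * ∏ i ∈ Finset.range j, ((k : ℤ) - m - 4 - i) := by
    intro j
    induction j with
    | zero => simp
    | succ j ih =>
      intro hj
      have ih' := ih (by omega)
      rw [Finset.prod_range_succ, Finset.prod_range_succ]
      have hP : 0 ≤ ∏ i ∈ Finset.range j, ((m : ℤ) + k - i) := by
        apply Finset.prod_nonneg
        intro i hi
        have := Finset.mem_range.mp hi
        omega
      have hjm : (j : ℤ) + 1 ≤ m := by exact_mod_cast hj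
      have hk' : (2 * (m : ℤ) ^ 2 + 4 * m) ≤ k := by exact_mod_cast hk
      have ha : 0 ≤ (k : ℤ) - m - 4 - j := by nlinarith
      have h1 := mul_le_mul_of_nonneg_right ih' ha
      push_cast
      have h2 : ((k : ℤ) - (j + 1) * (2 * m + 4)) *
          ((∏ i ∈ Finset.range j, ((m : ℤ) + k - i)) * ((m : ℤ) + k - j)) ≤
          ((k : ℤ) - j * (2 * m + 4)) * (∏ i ∈ Finset.range j, ((m : ℤ) + k - i)) *
            ((k : ℤ) - m - 4 - j) := by
        have h3 : 0 ≤ (2 * (m : ℤ) + 4) * ((m : ℤ) - j + j * (2 * m + 4)) := by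
          have : (0 : ℤ) ≤ j := Int.natCast_nonneg j
          have : (0 : ℤ) ≤ m := Int.natCast_nonneg m
          nlinarith
        nlinarith [mul_nonneg hP h3]
      calc ((k : ℤ) - (j + 1) * (2 * m + 4)) *
          ((∏ i ∈ Finset.range j, ((m : ℤ) + k - i)) * ((m : ℤ) + k - j)) ≤ _ := h2
        _ ≤ _ := h1
        _ = _ := by ring
  have h1 := key m le_rfl
  have e1 : ∏ i ∈ Finset.range m, ((m : ℤ) + k - i) = ((m + k).descFactorial m : ℤ) := by
    rw [Nat.descFactorial_eq_prod_range, Nat.cast_prod]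
    refine Finset.prod_congr rfl fun i hi => ?_
    have := Finset.mem_range.mp hi
    rw [Nat.cast_sub (by omega)]
    push_cast
    ring
  have e2 : ∏ i ∈ Finset.range m, ((k : ℤ) - m - 4 - i) = ((k - m - 4).descFactorial m : ℤ) := by
    rw [Nat.descFactorial_eq_prod_range, Nat.cast_prod]
    refine Finset.prod_congr rfl fun i hi => ?_
    have := Finset.mem_range.mp hi
    have h4 : m + 4 + i ≤ k := by nlinarith
    omega
  rw [e1, e2, Nat.descFactorial_eq_factorial_mul_choose,
    Nat.descFactorial_eq_factorial_mul_choose] at h1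
  have h5 : (m.factorial : ℤ) * (((k - (2 * m ^ 2 + 4 * m)) * (m + k).choose m : ℕ) : ℤ) ≤
      (m.factorial : ℤ) * ((k * (k - m - 4).choose m : ℕ) : ℤ) := by
    push_cast [Nat.cast_sub hk]
    push_cast at h1
    linarith
  have h6 : (0 : ℤ) < m.factorial := by exact_mod_cast m.factorial_pos
  exact_mod_cast le_of_mul_le_mul_left h5 h6

/-- **Part (A), ratio form.** -/
theorem not_closed_A' {m n k r : ℕ} (hm : 2 ≤ m) (hmn : m ≤ n) (hk : 3 ≤ k) (hr : 2 ≤ r)
    (h : k * ((m + 1) * r) ≤ (k - (2 * m ^ 2 + 4 * m)) * (m + k).choose m) :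
    ¬ IsClosed[projTop (n + 1) k] (Y (n + 1) k r) := by
  apply not_closed_A hm hmn hk hr
  have h1 : 2 * m ^ 2 + 4 * m ≤ k := by
    by_contra hcon
    rw [Nat.sub_eq_zero_of_le (by omega), zero_mul] at h
    have : 0 < k * ((m + 1) * r) := by positivity
    omega
  have h2 := choose_compare h1
  have h3 : k * ((m + 1) * (r - 2)) ≤ k * (k - m - 4).choose m := by
    calc k * ((m + 1) * (r - 2)) ≤ k * ((m + 1) * r) := by
          apply Nat.mul_le_mul_left
          apply Nat.mul_le_mul_left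
          omega
      _ ≤ _ := h.trans h2
  exact Nat.le_of_mul_le_mul_left h3 (by omega)

end H80R
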