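import Mathlib
import Pool.Agent.H80R.Numer

namespace H80R

open MvPolynomial

/-- Restriction of a polynomial to the last coordinate hyperplane. -/
noncomputable def res (N : ℕ) : MvPolynomial (Fin (N + 1)) ℂ →ₐ[ℂ] MvPolynomial (Fin N) ℂ :=
  aeval (Fin.snoc X 0 : Fin (N + 1) → MvPolynomial (Fin N) ℂ)

@[simp] theorem res_X_castSucc {N : ℕ} (l : Fin N) : res N (X l.castSucc) = X l := by
  simp [res]

@[simp] theorem res_X_last {N : ℕ} : res N (X (Fin.last N)) = 0 := by
  simp [res]

theorem eval_res {N : ℕ} (p : Fin N → ℂ) (A : MvPolynomial (Fin (N + 1)) ℂ) :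
    eval p (res N A) = eval (Fin.snoc p 0 : Fin (N + 1) → ℂ) A := by
  have h : (aeval p : MvPolynomial (Fin N) ℂ →ₐ[ℂ] ℂ).comp (res N) =
      (aeval (Fin.snoc p 0 : Fin (N + 1) → ℂ) : MvPolynomial (Fin (N + 1)) ℂ →ₐ[ℂ] ℂ) := by
    apply MvPolynomial.algHom_ext
    intro l
    refine Fin.lastCases ?_ (fun l => ?_) l
    · simp
    · simp
  have h2 := congrArg (fun f : MvPolynomial (Fin (N + 1)) ℂ →ₐ[ℂ] ℂ => f A) h
  simpa [aeval_eq_eval] using h2

theorem res_rename {N : ℕ} (f : MvPolynomial (Fin N) ℂ) : res N (rename Fin.castSucc f) = f := by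
  have h : (res N).comp (rename Fin.castSucc) = AlgHom.id ℂ (MvPolynomial (Fin N) ℂ) := by
    apply MvPolynomial.algHom_ext
    intro l
    simp
  exact congrArg (fun g : MvPolynomial (Fin N) ℂ →ₐ[ℂ] MvPolynomial (Fin N) ℂ => g f) h

theorem pderiv_res {N : ℕ} (l : Fin N) (A : MvPolynomial (Fin (N + 1)) ℂ) :
    pderiv l (res N A) = res N (pderiv l.castSucc A) := by
  induction A using MvPolynomial.induction_on with
  | C a => simp [res]
  | add p q hp hq => simp only [map_add, hp, hq]
  | mul_X p n hp =>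
    rw [map_mul, Derivation.leibniz, Derivation.leibniz, hp]
    simp only [smul_eq_mul, map_add, map_mul]
    congr 1
    refine Fin.lastCases ?_ (fun n => ?_) n
    · simp [pderiv_X, Pi.single_apply, (Fin.castSucc_lt_last l).ne']
    · by_cases h : n = l
      · subst h; simp
      · simp [pderiv_X, Pi.single_apply, h]

theorem res_mem {N d : ℕ} {A : MvPolynomial (Fin (N + 1)) ℂ} (hA : A ∈ Fm (N + 1) d) :
    res N A ∈ Fm N d := by
  have h := IsHomogeneous.aeval (φ := A) (m := d) (n := 1) hA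
    (Fin.snoc X 0 : Fin (N + 1) → MvPolynomial (Fin N) ℂ) (by
      intro l
      refine Fin.lastCases ?_ (fun l => ?_) l
      · simpa using isHomogeneous_zero _ _ _
      · simpa using isHomogeneous_X _ _)
  rw [one_mul] at h
  exact h

theorem res_eq_zero {N : ℕ} {A : MvPolynomial (Fin (N + 1)) ℂ} (h : res N A = 0) :
    ∃ B, A = X (Fin.last N) * B := by
  have key : ∀ A : MvPolynomial (Fin (N + 1)) ℂ,
      ∃ B, A = rename Fin.castSucc (res N A) + X (Fin.last N) * B := by
    intro A
    induction A using MvPolynomial.induction_on with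
    | C a => exact ⟨0, by simp [res]⟩
    | add p q hp hq =>
      obtain ⟨B, hB⟩ := hp
      obtain ⟨B', hB'⟩ := hq
      refine ⟨B + B', ?_⟩
      rw [map_add, map_add]
      linear_combination hB + hB'
    | mul_X p n hp =>
      obtain ⟨B, hB⟩ := hp
      refine Fin.lastCases ?_ (fun n => ?_) n
      · refine ⟨p, ?_⟩
        rw [map_mul, res_X_last]
        simp
        ring
      · refine ⟨B * X n.castSucc, ?_⟩
        rw [map_mul, res_X_castSucc, map_mul, rename_X]
        linear_combination X n.castSucc * hB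
  obtain ⟨B, hB⟩ := key A
  rw [h, map_zero, zero_add] at hB
  exact ⟨B, hB⟩

theorem mem_of_X_mul {N d : ℕ} (l : Fin N) {B : MvPolynomial (Fin N) ℂ}
    (h : X l * B ∈ Fm N (d + 1)) : B ∈ Fm N d := by
  intro α hα
  have h1 : coeff (Finsupp.single l 1 + α) (X l * B) ≠ 0 := by
    rw [coeff_X_mul]
    exact hα
  have h2 := h h1
  rw [map_add] at h2
  have h3 : (Finsupp.weight (1 : Fin N → ℕ)) (Finsupp.single l 1) = 1 := by
    simp [Finsupp.weight_apply]
  omega

/-- the last coordinate as a linear form -/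
theorem lf_last (N : ℕ) : lf (Pi.single (Fin.last N) 1 : Fin (N + 1) → ℂ) = X (Fin.last N) := by
  simp only [lf]
  rw [Finset.sum_eq_single (Fin.last N)]
  · simp
  · intro l _ hl
    simp [hl]
  · simp

theorem res_eq_zero_form {N d : ℕ} {A : MvPolynomial (Fin (N + 1)) ℂ}
    (hA : A ∈ Fm (N + 1) (d + 1)) (h : res N A = 0) :
    ∃ B ∈ Fm (N + 1) d, A = X (Fin.last N) * B := by
  obtain ⟨B, hB⟩ := res_eq_zero h
  refine ⟨B, ?_, hB⟩
  apply mem_of_X_mul (Fin.last N)
  rw [← hB]
  exact hA

end H80R
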