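import Mathlib
import Pool.Agent.H80R.Res

namespace H80R

open MvPolynomial Topology Filter

/-- the gradient at `v` as a linear map on all polynomials -/
noncomputable def grP {N : ℕ} (v : Fin N → ℂ) : MvPolynomial (Fin N) ℂ →ₗ[ℂ] (Fin N → ℂ) where
  toFun A := gr v A
  map_add' A B := gr_add v A B
  map_smul' c A := gr_smul v c A

theorem grP_apply {N : ℕ} (v : Fin N → ℂ) (A : MvPolynomial (Fin N) ℂ) : grP v A = gr v A := rfl

theorem exists_eval_ne {N : ℕ} {Q : MvPolynomial (Fin N) ℂ} (hQ : Q ≠ 0) :
    ∃ P : Fin N → ℂ, eval P Q ≠ 0 := by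
  by_contra hcon
  push Not at hcon
  exact hQ (MvPolynomial.funext (fun v => by rw [hcon v, map_zero]))

/-- dual functionals of an independent family -/
theorem exists_dual_family {N q : ℕ} {v : Fin q → Fin N → ℂ} (hv : LinearIndependent ℂ v) :
    ∃ B : Fin q → Fin N → ℂ, ∀ i j, ∑ l, B j l * v i l = if i = j then 1 else 0 := by
  classical
  obtain ⟨φ, hφ⟩ := LinearMap.exists_leftInverse_of_injective (Fintype.linearCombination ℂ v)
    (by
      rw [LinearMap.ker_eq_bot']
      intro c hc
      rw [Fintype.linearCombination_apply] at hc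
      ext i
      exact Fintype.linearIndependent_iff.mp hv c hc i)
  refine ⟨fun j l => φ (Pi.single l 1) j, fun i j => ?_⟩
  have h1 : φ (v i) = Pi.single i 1 := by
    have h2 := congrArg (fun f : (Fin q → ℂ) →ₗ[ℂ] (Fin q → ℂ) => f (Pi.single i 1)) hφ
    simp only [LinearMap.comp_apply, LinearMap.id_apply] at h2
    rw [Fintype.linearCombination_apply_single, one_smul] at h2
    exact h2
  have h3 : v i = ∑ l, v i l • (Pi.single l 1 : Fin N → ℂ) := by
    ext m
    simp [Finset.sum_apply, Pi.single_apply]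
  have h4 := congrFun h1 j
  rw [h3, map_sum, Finset.sum_apply] at h4
  simp only [map_smul, Pi.smul_apply, smul_eq_mul] at h4
  calc ∑ l, φ (Pi.single l 1) j * v i l = ∑ l, v i l * φ (Pi.single l 1) j :=
        Finset.sum_congr rfl fun l _ => mul_comm _ _
    _ = _ := h4
    _ = _ := by
      rw [Pi.single_apply]
      congr 1
      exact propext eq_comm

/-- Independence of gradients is a generic property. -/
theorem indep_generic {N q : ℕ} (F : Fin q → MvPolynomial (Fin N) ℂ) {P₀ : Fin N → ℂ}
    (h₀ : LinearIndependent ℂ (fun i => gr P₀ (F i))) {Q : MvPolynomial (Fin N) ℂ} (hQ : Q ≠ 0) :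
    ∃ P : Fin N → ℂ, eval P Q ≠ 0 ∧ LinearIndependent ℂ (fun i => gr P (F i)) := by
  classical
  obtain ⟨B, hB⟩ := exists_dual_family h₀
  let D : MvPolynomial (Fin N) ℂ :=
    (Matrix.of fun i j => ∑ l, C (B j l) * pderiv l (F i) :
      Matrix (Fin q) (Fin q) (MvPolynomial (Fin N) ℂ)).det
  have hD : ∀ P, eval P D = (Matrix.of fun i j => ∑ l, B j l * gr P (F i) l :
      Matrix (Fin q) (Fin q) ℂ).det := by
    intro P
    simp only [D]
    rw [RingHom.map_det]
    congr 1
    ext i j
    simp [gr]
  have hD0 : D ≠ 0 := by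
    intro h
    have h1 := hD P₀
    rw [h, map_zero] at h1
    have h2 : (Matrix.of fun i j => ∑ l, B j l * gr P₀ (F i) l : Matrix (Fin q) (Fin q) ℂ) = 1 := by
      ext i j
      rw [Matrix.of_apply, hB i j, Matrix.one_apply]
    rw [h2, Matrix.det_one] at h1
    exact zero_ne_one h1
  obtain ⟨P, hP⟩ := exists_eval_ne (mul_ne_zero hD0 hQ)
  rw [map_mul] at hP
  refine ⟨P, right_ne_zero_of_mul hP, ?_⟩
  have hdet := left_ne_zero_of_mul hP
  rw [hD] at hdet
  rw [Fintype.linearIndependent_iff]
  intro c hc
  have h3 : Matrix.vecMul c (Matrix.of fun i j => ∑ l, B j l * gr P (F i) l) = 0 := by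
    ext j
    simp only [Matrix.vecMul, dotProduct, Matrix.of_apply, Pi.zero_apply]
    calc ∑ i, c i * ∑ l, B j l * gr P (F i) l = ∑ l, B j l * ∑ i, c i * gr P (F i) l := by
          simp only [Finset.mul_sum]
          rw [Finset.sum_comm]
          exact Finset.sum_congr rfl fun l _ => Finset.sum_congr rfl fun i _ => by ring
      _ = 0 := by
          apply Finset.sum_eq_zero
          intro l _
          have h4 := congrFun hc l
          simp only [Finset.sum_apply, Pi.smul_apply, smul_eq_mul, Pi.zero_apply] at h4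
          rw [h4, mul_zero]
  have h5 := Matrix.eq_zero_of_vecMul_eq_zero hdet h3
  exact fun i => congrFun h5 i

theorem gr_snoc_castSucc {N : ℕ} (P : Fin N → ℂ) (F : MvPolynomial (Fin (N + 1)) ℂ) (l : Fin N) :
    gr (Fin.snoc P 0 : Fin (N + 1) → ℂ) F l.castSucc = gr P (res N F) l := by
  simp only [gr]
  rw [← eval_res, pderiv_res]

theorem exists_pow_mul {N : ℕ} (d : ℕ) : ∀ B ∈ Fm (N + 1) d, B ≠ 0 →
    ∃ (q : ℕ) (G : MvPolynomial (Fin (N + 1)) ℂ), B = X (Fin.last N) ^ q * G ∧ res N G ≠ 0 := by
  induction d with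
  | zero =>
    intro B hB hB0
    refine ⟨0, B, by simp, ?_⟩
    have h1 : B ∈ homogeneousSubmodule (Fin (N + 1)) ℂ 0 := hB
    rw [homogeneousSubmodule_zero] at h1
    obtain ⟨c, hc⟩ := Submodule.mem_one.mp h1
    rw [← hc] at hB0 ⊢
    intro h
    apply hB0
    have h2 : c = 0 := by
      have h3 : res N (algebraMap ℂ _ c) = algebraMap ℂ _ c := AlgHom.commutes _ _
      rw [h3] at h
      exact (map_eq_zero_iff _ (algebraMap ℂ (MvPolynomial (Fin N) ℂ)).injective).mp h
    rw [h2, map_zero]
  | succ d ih =>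
    intro B hB hB0
    by_cases h : res N B = 0
    · obtain ⟨B', hB', rfl⟩ := res_eq_zero_form hB h
      obtain ⟨q, G, rfl, hG⟩ := ih B' hB' (right_ne_zero_of_mul hB0)
      exact ⟨q + 1, G, by ring, hG⟩
    · exact ⟨0, B, by simp, h⟩

theorem continuous_snoc {N : ℕ} (P : Fin N → ℂ) :
    Continuous (fun t : ℂ => (Fin.snoc P t : Fin (N + 1) → ℂ)) := by
  apply continuous_pi
  intro l
  refine Fin.lastCases ?_ (fun l => ?_) l
  · simp only [Fin.snoc_last]
    exact continuous_id
  · simpa using continuous_const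

/-- The case where a transversal direction has to be added. -/
theorem indep_snoc {N m q : ℕ} (F : Fin m → MvPolynomial (Fin (N + 1)) ℂ)
    (G : MvPolynomial (Fin (N + 1)) ℂ) {P' : Fin N → ℂ}
    (hF : LinearIndependent ℂ (fun i => gr P' (res N (F i)))) (hG : eval P' (res N G) ≠ 0) :
    ∃ P : Fin (N + 1) → ℂ, LinearIndependent ℂ (fun i : Fin (m + 1) =>
      gr P ((Fin.snoc F (X (Fin.last N) ^ (q + 1) * G) :
        Fin (m + 1) → MvPolynomial (Fin (N + 1)) ℂ) i)) := by
  classical
  obtain ⟨B, hB⟩ := exists_dual_family hF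
  let pt : ℂ → Fin (N + 1) → ℂ := fun t => Fin.snoc P' t
  let M : ℂ → Matrix (Fin m ⊕ Unit) (Fin m ⊕ Unit) ℂ := fun t =>
    Matrix.fromBlocks
      (Matrix.of fun i j => ∑ l : Fin N, B j l * gr (pt t) (F i) l.castSucc)
      (Matrix.of fun i _ => gr (pt t) (F i) (Fin.last N))
      (Matrix.of fun _ j => ∑ l : Fin N, B j l * (t * gr (pt t) G l.castSucc))
      (Matrix.of fun _ _ => (q + 1 : ℂ) * eval (pt t) G + t * gr (pt t) G (Fin.last N))
  have hpt : Continuous pt := continuous_snoc P'
  have hev : ∀ A : MvPolynomial (Fin (N + 1)) ℂ, Continuous (fun t => eval (pt t) A) := by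
    intro A
    exact (MvPolynomial.continuous_eval A).comp hpt
  have hcont : Continuous (fun t => (M t).det) := by
    apply Continuous.matrix_det
    apply Continuous.matrix_fromBlocks
    · refine continuous_matrix fun i j => ?_
      simp only [Matrix.of_apply]
      exact continuous_finsetSum _ fun l _ => Continuous.mul continuous_const (hev _)
    · refine continuous_matrix fun i j => ?_
      exact hev _
    · refine continuous_matrix fun i j => ?_
      simp only [Matrix.of_apply]
      exact continuous_finsetSum _ fun l _ =>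
        Continuous.mul continuous_const (Continuous.mul continuous_id (hev _))
    · refine continuous_matrix fun i j => ?_
      exact (continuous_const.mul (hev _)).add (continuous_id.mul (hev _))
  have h0 : (M 0).det ≠ 0 := by
    have h1 : M 0 = Matrix.fromBlocks 1 (Matrix.of fun i _ => gr (pt 0) (F i) (Fin.last N)) 0
        (Matrix.of fun _ _ => (q + 1 : ℂ) * eval P' (res N G)) := by
      simp only [M]
      congr 1
      · ext i j
        rw [Matrix.of_apply, Matrix.one_apply, ← hB i j]
        exact Finset.sum_congr rfl fun l _ => by rw [gr_snoc_castSucc]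
      · ext i j
        simp
      · ext i j
        simp only [Matrix.of_apply, zero_mul, add_zero, pt]
        rw [eval_res]
    rw [h1, Matrix.det_fromBlocks_zero₂₁, Matrix.det_one, one_mul, Matrix.det_unique,
      Matrix.of_apply]
    apply mul_ne_zero _ hG
    exact_mod_cast Nat.succ_ne_zero q
  have h2 : ∀ᶠ t in 𝓝[≠] (0 : ℂ), (M t).det ≠ 0 :=
    (hcont.continuousAt.eventually_ne h0).filter_mono nhdsWithin_le_nhds
  have h3 : ∀ᶠ t in 𝓝[≠] (0 : ℂ), t ≠ 0 := eventually_mem_nhdsWithin
  obtain ⟨t, ht1, ht2⟩ := (h2.and h3).exists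
  refine ⟨pt t, ?_⟩
  have hgl : ∀ l : Fin N, gr (pt t) (X (Fin.last N) ^ (q + 1) * G) l.castSucc =
      t ^ q * (t * gr (pt t) G l.castSucc) := by
    intro l
    simp only [gr, Derivation.leibniz, Derivation.leibniz_pow, smul_eq_mul, map_add, map_mul,
      map_pow, eval_X, pt, Fin.snoc_last]
    rw [pderiv_X_of_ne (Fin.castSucc_lt_last l).ne']
    simp
    ring
  have hglast : gr (pt t) (X (Fin.last N) ^ (q + 1) * G) (Fin.last N) =
      t ^ q * ((q + 1 : ℂ) * eval (pt t) G + t * gr (pt t) G (Fin.last N)) := by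
    simp only [gr, Derivation.leibniz, Derivation.leibniz_pow, smul_eq_mul, map_add, map_mul,
      map_pow, eval_X, pt, Fin.snoc_last, pderiv_X_self]
    simp
    ring
  rw [Fintype.linearIndependent_iff]
  intro c hc
  rw [Fin.sum_univ_castSucc] at hc
  simp only [Fin.snoc_castSucc, Fin.snoc_last] at hc
  let g : Fin m ⊕ Unit → ℂ := Sum.elim (fun i => c i.castSucc) (fun _ => c (Fin.last m) * t ^ q)
  have hg : Matrix.vecMul g (M t) = 0 := by
    ext j
    rcases j with j | j
    · simp only [Matrix.vecMul, dotProduct, Fintype.sum_sum_type, Finset.univ_unique,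
        Finset.sum_singleton, g, Sum.elim_inl, Sum.elim_inr, M, Matrix.fromBlocks_apply₁₁,
        Matrix.fromBlocks_apply₂₁, Matrix.of_apply, Pi.zero_apply]
      calc ∑ i, c i.castSucc * ∑ l : Fin N, B j l * gr (pt t) (F i) l.castSucc +
            c (Fin.last m) * t ^ q * ∑ l : Fin N, B j l * (t * gr (pt t) G l.castSucc) =
            ∑ l : Fin N, B j l * (∑ i, c i.castSucc * gr (pt t) (F i) l.castSucc +
              c (Fin.last m) * (t ^ q * (t * gr (pt t) G l.castSucc))) := by
            simp only [Finset.mul_sum, mul_add, Finset.sum_add_distrib]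
            congr 1
            · rw [Finset.sum_comm]
              exact Finset.sum_congr rfl fun l _ => Finset.sum_congr rfl fun i _ => by ring
            · exact Finset.sum_congr rfl fun l _ => by ring
        _ = 0 := by
            apply Finset.sum_eq_zero
            intro l _
            have h4 := congrFun hc l.castSucc
            simp only [Pi.add_apply, Finset.sum_apply, Pi.smul_apply, smul_eq_mul,
              Pi.zero_apply, hgl] at h4
            rw [h4, mul_zero]
    · simp only [Matrix.vecMul, dotProduct, Fintype.sum_sum_type, Finset.univ_unique,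
        Finset.sum_singleton, g, Sum.elim_inl, Sum.elim_inr, M, Matrix.fromBlocks_apply₁₂,
        Matrix.fromBlocks_apply₂₂, Matrix.of_apply, Pi.zero_apply]
      have h4 := congrFun hc (Fin.last N)
      simp only [Pi.add_apply, Finset.sum_apply, Pi.smul_apply, smul_eq_mul,
        Pi.zero_apply, hglast] at h4
      rw [← h4]
      ring
  have h5 := Matrix.eq_zero_of_vecMul_eq_zero ht1 hg
  intro i
  refine Fin.lastCases ?_ (fun i => ?_) i
  · have h6 : c (Fin.last m) * t ^ q = 0 := congrFun h5 (Sum.inr ())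
    exact (mul_eq_zero.mp h6).resolve_right (pow_ne_zero _ ht2)
  · exact congrFun h5 (Sum.inl i)

end H80R
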