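import Mathlib
import Pool.Agent.H80R.Drop

namespace H80R

open MvPolynomial Topology Filter

theorem indep_castSucc {N q : ℕ} (F : Fin q → MvPolynomial (Fin (N + 1)) ℂ) {P' : Fin N → ℂ}
    (h : LinearIndependent ℂ (fun i => gr P' (res N (F i)))) :
    LinearIndependent ℂ (fun i => gr (Fin.snoc P' 0 : Fin (N + 1) → ℂ) (F i)) := by
  rw [Fintype.linearIndependent_iff] at h ⊢
  intro c hc
  apply h c
  ext l
  have h1 := congrFun hc l.castSucc
  simp only [Finset.sum_apply, Pi.smul_apply, smul_eq_mul, Pi.zero_apply, gr_snoc_castSucc]
    at h1 ⊢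
  exact h1

/-- **Drop lemma.** A space `W` of forms of degree `d` whose dimension exceeds the dimension of
the space of forms of degree `d` in `m` variables has `m + 1` elements whose gradients at some
point are linearly independent. -/
theorem jac_rank (N : ℕ) : ∀ (d m : ℕ) (W : Submodule ℂ (MvPolynomial (Fin N) ℂ)), W ≤ Fm N d →
    m.multichoose d < Module.finrank ℂ W →
    ∃ F : Fin (m + 1) → MvPolynomial (Fin N) ℂ, (∀ i, F i ∈ W) ∧
      ∃ P, LinearIndependent ℂ (fun i => gr P (F i)) := by
  classical
  induction N with
  | zero =>
    intro d m W hW hlt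
    exfalso
    have h1 := Submodule.finrank_mono hW
    rw [finrank_Fm] at h1
    rcases d with _ | d
    · rw [Nat.multichoose_zero_right] at h1 hlt
      omega
    · rw [Nat.multichoose_zero_succ] at h1
      omega
  | succ N ihN =>
    intro d
    induction d with
    | zero =>
      intro m W hW hlt
      exfalso
      have h1 := Submodule.finrank_mono hW
      rw [finrank_Fm, Nat.multichoose_zero_right] at h1
      rw [Nat.multichoose_zero_right] at hlt
      omega
    | succ d ihd =>
      intro m W hW hlt
      have hWfd : FiniteDimensional ℂ W := Submodule.finiteDimensional_of_le hW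
      -- restriction and kernel
      let W' : Submodule ℂ (MvPolynomial (Fin N) ℂ) := W.map (res N).toLinearMap
      have hW' : W' ≤ Fm N (d + 1) := by
        rintro _ ⟨F, hF, rfl⟩
        exact res_mem (hW hF)
      let mulX : MvPolynomial (Fin (N + 1)) ℂ →ₗ[ℂ] MvPolynomial (Fin (N + 1)) ℂ :=
        LinearMap.mulLeft ℂ (X (Fin.last N))
      let K : Submodule ℂ (MvPolynomial (Fin (N + 1)) ℂ) := W.comap mulX
      have hK : K ≤ Fm (N + 1) d := by
        intro B hB
        exact mem_of_X_mul (Fin.last N) (hW hB)
      have hKfd : FiniteDimensional ℂ K := Submodule.finiteDimensional_of_le hK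
      let R : W →ₗ[ℂ] MvPolynomial (Fin N) ℂ := (res N).toLinearMap.domRestrict W
      have hR := LinearMap.finrank_range_add_finrank_ker R
      have hR0 : LinearMap.range R = W' := by
        simp only [R, W']
        rw [LinearMap.range_domRestrict]
      have hR1 : Module.finrank ℂ (LinearMap.range R) = Module.finrank ℂ W' := by
        rw [hR0]
      have hR2 : Module.finrank ℂ (LinearMap.ker R) ≤ Module.finrank ℂ K := by
        let f : K →ₗ[ℂ] W := LinearMap.codRestrict W (mulX ∘ₗ K.subtype) (fun B => B.2)
        have hf : LinearMap.ker R ≤ LinearMap.range f := by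
          rintro ⟨F, hF⟩ hF0
          have h1 : res N F = 0 := hF0
          obtain ⟨B, hB, hFB⟩ := res_eq_zero_form (hW hF) h1
          refine ⟨⟨B, ?_⟩, ?_⟩
          · change X (Fin.last N) * B ∈ W
            rw [← hFB]
            exact hF
          · apply Subtype.ext
            exact hFB.symm
        exact (Submodule.finrank_mono hf).trans (LinearMap.finrank_range_le f)
      by_cases h1 : m.multichoose (d + 1) < Module.finrank ℂ W'
      · obtain ⟨F', hF', P', hP'⟩ := ihN (d + 1) m W' hW' h1
        choose F hF hFF using hF'
        have hFF' : ∀ i, res N (F i) = F' i := hFF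
        refine ⟨F, hF, Fin.snoc P' 0, ?_⟩
        apply indep_castSucc
        simp only [hFF']
        exact hP'
      by_cases h2 : m.multichoose d < Module.finrank ℂ K
      · obtain ⟨B, hB, P₀, hP₀⟩ := ihd m K hK h2
        obtain ⟨P, hPX, hP⟩ := indep_generic B hP₀ (X_ne_zero (Fin.last N) : (X (Fin.last N) :
          MvPolynomial (Fin (N + 1)) ℂ) ≠ 0)
        have hB' : ∀ i, X (Fin.last N) * B i ∈ W := by
          intro i
          have h3 := hB i
          simpa [K, mulX] using h3
        refine ⟨fun i => X (Fin.last N) * B i, hB', P, ?_⟩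
        rw [Fintype.linearIndependent_iff] at hP ⊢
        intro c hc
        apply hP c
        have h3 : ∑ i, c i • gr P (X (Fin.last N) * B i) =
            gr P (lf (Pi.single (Fin.last N) 1) * ∑ i, c i • B i) := by
          rw [lf_last, Finset.mul_sum, ← grP_apply, map_sum]
          refine Finset.sum_congr rfl fun i _ => ?_
          rw [mul_smul_comm, map_smul, grP_apply]
        rw [h3] at hc
        have h4 := (gr_zero_of_lf_mul (d := d) _ P (by rw [lf_last]; exact hPX)
          (Submodule.sum_mem _ fun i _ => Submodule.smul_mem _ _ (hK (hB i))) hc).2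
        rw [← grP_apply, map_sum] at h4
        simpa [grP_apply] using h4
      rcases m with _ | m
      · -- a nonzero form has a nonzero gradient
        rw [Nat.multichoose_zero_succ] at hlt
        have h3 : W ≠ ⊥ := by
          rintro rfl
          simp at hlt
        obtain ⟨F, hF, hF0⟩ := Submodule.exists_mem_ne_zero_of_ne_bot h3
        obtain ⟨P, hP⟩ := exists_eval_ne hF0
        refine ⟨fun _ => F, fun _ => hF, P, ?_⟩
        have h4 : gr P F ≠ 0 := fun h => hP (ev_zero_of_gr (hW hF) P h)
        rw [Fintype.linearIndependent_iff]
        intro c hc i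
        have hi : i = 0 := Fin.ext (by omega)
        subst hi
        simp only [Nat.reduceAdd, Finset.univ_unique, Fin.default_eq_zero, Fin.isValue,
          Finset.sum_singleton] at hc
        exact (smul_eq_zero.mp hc).resolve_right h4
      · have hPascal : (m + 1).multichoose (d + 1) =
            m.multichoose (d + 1) + (m + 1).multichoose d := Nat.multichoose_succ_succ _ _
        obtain ⟨F', hF', P₀, hP₀⟩ := ihN (d + 1) m W' hW' (by omega)
        have hK0 : K ≠ ⊥ := by
          intro h
          rw [h, finrank_bot] at hR2
          omega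
        obtain ⟨B, hB, hB0⟩ := Submodule.exists_mem_ne_zero_of_ne_bot hK0
        obtain ⟨q, G, hBG, hG⟩ := exists_pow_mul d B (hK hB) hB0
        obtain ⟨P', hP'G, hP'⟩ := indep_generic F' hP₀ hG
        choose F hF hFF using hF'
        have hFF' : ∀ i, res N (F i) = F' i := hFF
        obtain ⟨P, hP⟩ := indep_snoc (q := q) F G (P' := P') (by
          simp only [hFF']
          exact hP') hP'G
        refine ⟨Fin.snoc F (X (Fin.last N) ^ (q + 1) * G), ?_, P, hP⟩
        intro i
        refine Fin.lastCases ?_ (fun i => ?_) i
        · rw [Fin.snoc_last]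
          have h5 : X (Fin.last N) * B ∈ W := hB
          rw [hBG] at h5
          rw [pow_succ', mul_assoc]
          exact h5
        · rw [Fin.snoc_castSucc]
          exact hF i

end H80R
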