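import Mathlib
import Pool.Agent.H80R.Drop2

namespace H80R

open MvPolynomial

/-- A maximal set of independent coordinates of a linear map. -/
theorem exists_coords {W ι : Type*} [AddCommGroup W] [Module ℂ W] [DecidableEq ι]
    (φ : W →ₗ[ℂ] (ι → ℂ)) (t : Finset ι) :
    ∃ s : Finset ι, (∀ b : ι → ℂ, ∃ x, ∀ i ∈ s, φ x i = b i) ∧
      ∀ x, (∀ i ∈ s, φ x i = 0) → ∀ i ∈ t, φ x i = 0 := by
  induction t using Finset.induction_on with
  | empty => exact ⟨∅, fun b => ⟨0, by simp⟩, fun x _ => by simp⟩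
  | insert j t hj ih =>
    obtain ⟨s, hs1, hs2⟩ := ih
    by_cases h : ∀ x, (∀ i ∈ s, φ x i = 0) → φ x j = 0
    · refine ⟨s, hs1, fun x hx i hi => ?_⟩
      rcases Finset.mem_insert.mp hi with rfl | hi
      · exact h x hx
      · exact hs2 x hx i hi
    · push Not at h
      obtain ⟨x0, hx0, hx0j⟩ := h
      refine ⟨insert j s, fun b => ?_, fun x hx i hi => ?_⟩
      · obtain ⟨x, hx⟩ := hs1 b
        refine ⟨x + ((b j - φ x j) / φ x0 j) • x0, fun i hi => ?_⟩
        rw [map_add, map_smul, Pi.add_apply, Pi.smul_apply, smul_eq_mul]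
        rcases Finset.mem_insert.mp hi with rfl | hi
        · field_simp
          ring
        · rw [hx i hi, hx0 i hi, mul_zero, add_zero]
      · rcases Finset.mem_insert.mp hi with rfl | hi
        · exact hx _ (Finset.mem_insert_self _ _)
        · exact hs2 x (fun i hi => hx i (Finset.mem_insert_of_mem hi)) i hi

/-- dimension of the space of forms of degree `d` singular at the points `z` -/
noncomputable def nl (N d : ℕ) {a : ℕ} (z : Fin a → Fin N → ℂ) : ℕ :=
  Module.finrank ℂ (LinearMap.ker (grL N d z))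

/-- The forms of degree `d` singular at `a` general points form a space of dimension at most
`w`. -/
def Sg (N d a w : ℕ) : Prop :=
  ∀ z : Fin a → Fin N → ℂ, AlgebraicIndependent ℚ (fun p : Fin a × Fin N => z p.1 p.2) →
    nl N d z ≤ w

theorem nl_le_of_generic {N d a : ℕ} (z₀ z : Fin a → Fin N → ℂ)
    (hz : AlgebraicIndependent ℚ (fun p : Fin a × Fin N => z p.1 p.2)) :
    nl N d z ≤ nl N d z₀ := by
  classical
  let φ : (Fin a → Fin N → ℂ) → (Fm N d →ₗ[ℂ] (Fin a × Fin N → ℂ)) := fun z =>
    { toFun := fun A p => gr (z p.1) A.1 p.2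
      map_add' := by
        intro A B; ext p; simp [gr_add]
      map_smul' := by
        intro c A; ext p; simp [gr_smul] }
  obtain ⟨s, hs1, hs2⟩ := exists_coords (φ z₀) Finset.univ
  -- the selected conditions
  let ψ : (Fin a → Fin N → ℂ) → (Fm N d →ₗ[ℂ] (s → ℂ)) := fun z =>
    { toFun := fun A p => gr (z p.1.1) A.1 p.1.2
      map_add' := by
        intro A B; ext p; simp [gr_add]
      map_smul' := by
        intro c A; ext p; simp [gr_smul] }
  have hψ0 : Function.Surjective (ψ z₀) := by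
    intro b
    obtain ⟨A, hA⟩ := hs1 (fun i => if h : i ∈ s then b ⟨i, h⟩ else 0)
    refine ⟨A, ?_⟩
    ext i
    have h1 := hA i.1 i.2
    rw [dif_pos i.2] at h1
    exact h1
  have hψ : Function.Surjective (ψ z) := by
    let L : s → List (Fin N) := fun p => [p.1.2]
    let pt : s → Fin N → MvPolynomial (Fin a × Fin N) ℚ := fun p l => X (p.1.1, l)
    have key : ∀ (z : Fin a → Fin N → ℂ) (A : MvPolynomial (Fin N) ℂ) (p : s),
        eval (fun l' => aeval (fun p : Fin a × Fin N => z p.1 p.2) (pt p l')) (dl (L p) A) =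
          gr (z p.1.1) A p.1.2 := by
      intro z A p
      simp [pt, L, gr]
    intro b
    obtain ⟨A, hA, hA1⟩ := spec_forms (d := d) L pt (fun p : Fin a × Fin N => z₀ p.1 p.2) (by
      intro β
      obtain ⟨A, hA⟩ := hψ0 β
      refine ⟨A.1, A.2, fun i => ?_⟩
      rw [key]
      exact congrFun hA i) _ hz b
    refine ⟨⟨A, hA⟩, ?_⟩
    ext i
    have h1 := hA1 i
    rw [key] at h1
    exact h1
  -- kernels
  have hk0 : LinearMap.ker (grL N d z₀) = LinearMap.ker (ψ z₀) := by
    apply le_antisymm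
    · intro A hA
      rw [LinearMap.mem_ker] at hA ⊢
      ext i
      exact congrFun (congrFun hA i.1.1) i.1.2
    · intro A hA
      rw [LinearMap.mem_ker] at hA ⊢
      have h1 := hs2 A (fun i hi => congrFun hA ⟨i, hi⟩)
      ext i l
      exact h1 (i, l) (Finset.mem_univ _)
  have hk : LinearMap.ker (grL N d z) ≤ LinearMap.ker (ψ z) := by
    intro A hA
    rw [LinearMap.mem_ker] at hA ⊢
    ext i
    exact congrFun (congrFun hA i.1.1) i.1.2
  have h1 := LinearMap.finrank_range_add_finrank_ker (ψ z₀)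
  have h2 := LinearMap.finrank_range_add_finrank_ker (ψ z)
  rw [LinearMap.range_eq_top.mpr hψ0, finrank_top] at h1
  rw [LinearMap.range_eq_top.mpr hψ, finrank_top] at h2
  have h3 := Submodule.finrank_mono hk
  unfold nl
  rw [hk0]
  omega

theorem Sg_of_exists {N d a w : ℕ} (h : ∃ z₀ : Fin a → Fin N → ℂ, nl N d z₀ ≤ w) :
    Sg N d a w := by
  obtain ⟨z₀, hz₀⟩ := h
  intro z hz
  exact (nl_le_of_generic z₀ z hz).trans hz₀

theorem Sg_mono {N d a w w' : ℕ} (h : Sg N d a w) (hw : w ≤ w') : Sg N d a w' :=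
  fun z hz => (h z hz).trans hw

theorem nl_snoc_le {N d a : ℕ} (z : Fin a → Fin N → ℂ) (P : Fin N → ℂ) :
    nl N d (Fin.snoc z P : Fin (a + 1) → Fin N → ℂ) ≤ nl N d z := by
  apply Submodule.finrank_mono
  intro A hA
  rw [LinearMap.mem_ker] at hA ⊢
  ext i l
  have h1 := congrFun (congrFun hA i.castSucc) l
  have h2 : gr ((Fin.snoc z P : Fin (a + 1) → Fin N → ℂ) i.castSucc) A.1 l = 0 := h1
  rw [Fin.snoc_castSucc] at h2
  exact h2

theorem Sg_zero (N d : ℕ) : Sg N d 0 (N.multichoose d) := by
  intro z _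
  unfold nl
  rw [← finrank_Fm]
  exact Submodule.finrank_le _

theorem range_ker {E F : Type*} [AddCommGroup E] [Module ℂ E] [FiniteDimensional ℂ E]
    [AddCommGroup F] [Module ℂ F] (K : Submodule ℂ E) (g : K →ₗ[ℂ] F) :
    Module.finrank ℂ (LinearMap.range g) + Module.finrank ℂ (LinearMap.ker g) =
      Module.finrank ℂ K := LinearMap.finrank_range_add_finrank_ker g

/-- adding a point -/
theorem exists_drop {N d a : ℕ} (hd : 1 ≤ d) (z : Fin a → Fin N → ℂ) (m : ℕ) :
    ∀ w, nl N d z ≤ w → m.multichoose d < w →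
      ∃ P, nl N d (Fin.snoc z P : Fin (a + 1) → Fin N → ℂ) ≤ w - (m + 1) := by
  classical
  obtain ⟨d, rfl⟩ : ∃ d', d = d' + 1 := ⟨d - 1, by omega⟩
  have main : ∀ m : ℕ, m.multichoose (d + 1) < nl N (d + 1) z →
      ∃ P, nl N (d + 1) (Fin.snoc z P : Fin (a + 1) → Fin N → ℂ) ≤ nl N (d + 1) z - (m + 1) := by
    intro m hm
    let K : Submodule ℂ (Fm N (d + 1)) := LinearMap.ker (grL N (d + 1) z)
    let W := K.map (Fm N (d + 1)).subtype
    have hW1 : Module.finrank ℂ W = nl N (d + 1) z :=
      LinearEquiv.finrank_eq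
        (Submodule.equivMapOfInjective _ (Submodule.subtype_injective _) K).symm
    have hW : W ≤ Fm N (d + 1) := by
      rintro _ ⟨A, hA, rfl⟩
      exact A.2
    obtain ⟨F, hF, P, hP⟩ := jac_rank N (d + 1) m W hW (by rw [hW1]; exact hm)
    refine ⟨P, ?_⟩
    -- gradient at `P` on `K`
    let g : K →ₗ[ℂ] (Fin N → ℂ) := (grP P) ∘ₗ (Fm N (d + 1)).subtype ∘ₗ K.subtype
    have hg : m + 1 ≤ Module.finrank ℂ (LinearMap.range g) := by
      have h1 : ∀ i, gr P (F i) ∈ LinearMap.range g := by
        intro i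
        obtain ⟨A, hA, hAF⟩ := hF i
        exact ⟨⟨A, hA⟩, by
          rw [← hAF]
          rfl⟩
      let v : Fin (m + 1) → LinearMap.range g := fun i => ⟨gr P (F i), h1 i⟩
      have hv : LinearIndependent ℂ v := by
        have h2 : (LinearMap.range g).subtype ∘ v = fun i => gr P (F i) := rfl
        exact LinearIndependent.of_comp (LinearMap.range g).subtype (by rw [h2]; exact hP)
      simpa using hv.fintype_card_le_finrank
    have h2 := range_ker K g
    have h3 : nl N (d + 1) (Fin.snoc z P : Fin (a + 1) → Fin N → ℂ) ≤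
        Module.finrank ℂ (LinearMap.ker g) := by
      let K' : Submodule ℂ (Fm N (d + 1)) :=
        LinearMap.ker (grL N (d + 1) (Fin.snoc z P : Fin (a + 1) → Fin N → ℂ))
      have hsub : ∀ A : K', (A.1 : Fm N (d + 1)) ∈ K := by
        intro A
        have hA := A.2
        rw [LinearMap.mem_ker] at hA ⊢
        ext i l
        have h1 := congrFun (congrFun hA i.castSucc) l
        have h2 : gr ((Fin.snoc z P : Fin (a + 1) → Fin N → ℂ) i.castSucc) A.1.1 l = 0 := h1
        rw [Fin.snoc_castSucc] at h2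
        exact h2
      let f : K' →ₗ[ℂ] K := LinearMap.codRestrict K K'.subtype hsub
      have hf : ∀ A : K', f A ∈ LinearMap.ker g := by
        intro A
        rw [LinearMap.mem_ker]
        have hA := A.2
        rw [LinearMap.mem_ker] at hA
        have h1 := congrFun hA (Fin.last a)
        have h2 : gr ((Fin.snoc z P : Fin (a + 1) → Fin N → ℂ) (Fin.last a)) A.1.1 = 0 := h1
        rw [Fin.snoc_last] at h2
        exact h2
      let f' : K' →ₗ[ℂ] LinearMap.ker g := LinearMap.codRestrict (LinearMap.ker g) f hf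
      apply LinearMap.finrank_le_finrank_of_injective (f := f')
      intro A B hAB
      have h1 : f A = f B := congrArg Subtype.val hAB
      have h2 : (f A : Fm N (d + 1)) = f B := congrArg Subtype.val h1
      exact Subtype.ext h2
    have h4 : Module.finrank ℂ K = nl N (d + 1) z := rfl
    omega
  induction m with
  | zero =>
    intro w hw hm
    by_cases h : (0 : ℕ).multichoose (d + 1) < nl N (d + 1) z
    · obtain ⟨P, hP⟩ := main 0 h
      exact ⟨P, by omega⟩
    · rw [Nat.multichoose_zero_succ] at h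
      refine ⟨0, (nl_snoc_le z 0).trans (by omega)⟩
  | succ m ih =>
    intro w hw hm
    by_cases h : (m + 1).multichoose (d + 1) < nl N (d + 1) z
    · obtain ⟨P, hP⟩ := main (m + 1) h
      exact ⟨P, by omega⟩
    · have h5 : m.multichoose (d + 1) < (m + 1).multichoose (d + 1) := by
        rw [Nat.multichoose_succ_succ]
        have h6 : 0 < (m + 1).multichoose d := by
          rw [Nat.multichoose_eq]
          apply Nat.choose_pos
          omega
        omega
      obtain ⟨P, hP⟩ := ih ((m + 1).multichoose (d + 1)) (not_lt.mp h) h5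
      exact ⟨P, by omega⟩

/-- **Adding a general point.** -/
theorem Sg_step {N d a w m : ℕ} (hd : 1 ≤ d) (h : Sg N d a w) (hm : m.multichoose d < w) :
    Sg N d (a + 1) (w - (m + 1)) := by
  obtain ⟨v, hv⟩ := exists_algebraicIndependent (Fin a × Fin N)
  obtain ⟨P, hP⟩ := exists_drop hd (fun s l => v (s, l)) m w (h _ hv) hm
  exact Sg_of_exists ⟨_, hP⟩

theorem Sg_add {N d a w : ℕ} (h : Sg N d a w) (b : ℕ) : Sg N d (a + b) w := by
  induction b with
  | zero => exact h
  | succ b ih =>
    obtain ⟨v, hv⟩ := exists_algebraicIndependent (Fin (a + b) × Fin N)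
    exact Sg_of_exists ⟨Fin.snoc (fun s l => v (s, l)) 0,
      (nl_snoc_le _ _).trans (ih _ hv)⟩

theorem Sg_le {N d a a' w : ℕ} (h : Sg N d a w) (ha : a ≤ a') : Sg N d a' w := by
  obtain ⟨b, rfl⟩ := Nat.exists_eq_add_of_le ha
  exact Sg_add h b

end H80R
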