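import Mathlib
import Pool.Agent.H80R.Sing
import Pool.Agent.H80R.PartA

namespace H80R

open MvPolynomial Topology Filter

theorem gr_mul' {N : ℕ} (v : Fin N → ℂ) (A B : MvPolynomial (Fin N) ℂ) (l : Fin N) :
    gr v (A * B) l = eval v A * gr v B l + eval v B * gr v A l := by
  simp only [gr, Derivation.leibniz, smul_eq_mul, map_add, map_mul]

/-- Derivations and decompositions of `∑ ℓ_s^{k-1} y_s + ∑ p_s^k` where the points `ℓ_s`, `p_s`
lie on the last coordinate hyperplane. -/
theorem tangent_hyper {n k a b r : ℕ} (ℓ : Fin a → Fin n → ℂ) (p : Fin b → Fin n → ℂ)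
    (y : Fin a → Fin (n + 1) → ℂ)
    (halg : AlgebraicIndependent ℚ (Sum.elim (fun q : Fin a × Fin n => ℓ q.1 q.2)
      (Sum.elim (fun q : Fin b × Fin n => p q.1 q.2)
        (fun q : Fin a × Fin (n + 1) => y q.1 q.2))))
    (w : Fin r → Fin (n + 1) → ℂ)
    (hT : ∀ i, ∑ s, tt k (Fin.snoc (ℓ s) 0 : Fin (n + 1) → ℂ) (y s) i +
      ∑ s, pw k (Fin.snoc (p s) 0 : Fin (n + 1) → ℂ) i = ∑ j, pw k (w j) i)
    {A : MvPolynomial (Fin (n + 1)) ℂ} (hA : A ∈ Fm (n + 1) k)
    (hw1 : ∀ j, w j (Fin.last n) ≠ 0 → gr (w j) A = 0)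
    (hw2 : ∀ j, w j (Fin.last n) = 0 → ∀ l : Fin n, gr (w j) A l.castSucc = 0) :
    (∀ s, gr (Fin.snoc (ℓ s) 0 : Fin (n + 1) → ℂ) A = 0) ∧
    (∀ s (m : Fin n), ∑ l, y s l * hs (Fin.snoc (ℓ s) 0 : Fin (n + 1) → ℂ) A m.castSucc l = 0) ∧
    (∀ s (m : Fin n), gr (Fin.snoc (p s) 0 : Fin (n + 1) → ℂ) A m.castSucc = 0) := by
  classical
  have key : ∀ (cl : Fin a → Fin n → ℂ) (cp : Fin b → Fin n → ℂ) (cy : Fin a → Fin (n + 1) → ℂ),
      ∑ s, (drF (Fin.snoc (ℓ s) 0 : Fin (n + 1) → ℂ) (cy s) A +
        hsF (Fin.snoc (ℓ s) 0 : Fin (n + 1) → ℂ) (y s) (Fin.snoc (cl s) 0) A) +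
        ∑ s, drF (Fin.snoc (p s) 0 : Fin (n + 1) → ℂ) (Fin.snoc (cp s) 0) A = 0 := by
    intro cl cp cy
    obtain ⟨D, hD⟩ := exists_derivation _ halg
      (Sum.elim (fun q : Fin a × Fin n => cl q.1 q.2)
      (Sum.elim (fun q : Fin b × Fin n => cp q.1 q.2)
        (fun q : Fin a × Fin (n + 1) => cy q.1 q.2)))
    have hDl : ∀ s, (fun l => D ((Fin.snoc (ℓ s) 0 : Fin (n + 1) → ℂ) l)) =
        (Fin.snoc (cl s) 0 : Fin (n + 1) → ℂ) := by
      intro s
      ext l
      refine Fin.lastCases ?_ (fun l => ?_) l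
      · simp
      · simp only [Fin.snoc_castSucc]
        exact hD (Sum.inl (s, l))
    have hDp : ∀ s, (fun l => D ((Fin.snoc (p s) 0 : Fin (n + 1) → ℂ) l)) =
        (Fin.snoc (cp s) 0 : Fin (n + 1) → ℂ) := by
      intro s
      ext l
      refine Fin.lastCases ?_ (fun l => ?_) l
      · simp
      · simp only [Fin.snoc_castSucc]
        exact hD (Sum.inr (Sum.inl (s, l)))
    have hDy : ∀ s, (fun l => D (y s l)) = cy s := by
      intro s
      ext l
      exact hD (Sum.inr (Sum.inr (s, l)))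
    have h1 := ext_forms (N := n + 1) (k := k)
      (∑ s, (drF (Fin.snoc (ℓ s) 0 : Fin (n + 1) → ℂ) (cy s) +
        hsF (Fin.snoc (ℓ s) 0 : Fin (n + 1) → ℂ) (y s) (Fin.snoc (cl s) 0)) +
        ∑ s, drF (Fin.snoc (p s) 0 : Fin (n + 1) → ℂ) (Fin.snoc (cp s) 0))
      (∑ j, drF (w j) (fun l => D (w j l))) (by
        intro i
        have h2 := congrArg D (hT i)
        rw [map_add, map_sum, map_sum, map_sum] at h2
        simp only [der_tt, der_pw, hDl, hDp, hDy] at h2
        simpa using h2) hA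
    simp only [LinearMap.add_apply, LinearMap.coe_sum, Finset.sum_apply] at h1
    rw [h1]
    apply Finset.sum_eq_zero
    intro j _
    rw [drF_apply]
    by_cases hj : w j (Fin.last n) = 0
    · apply Finset.sum_eq_zero
      intro l _
      refine Fin.lastCases ?_ (fun l => ?_) l
      · rw [hj, map_zero, zero_mul]
      · rw [hw2 j hj l, mul_zero]
    · rw [hw1 j hj]
      simp
  refine ⟨?_, ?_, ?_⟩
  · intro s
    ext l
    have h := key 0 0 (Pi.single s (Pi.single l 1))
    have hz : (Fin.snoc (0 : Fin n → ℂ) 0 : Fin (n + 1) → ℂ) = 0 := by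
      ext l
      refine Fin.lastCases ?_ (fun l => ?_) l <;> simp
    simp only [Pi.zero_apply, hz, drF_apply, hsF_apply, mul_zero, zero_mul,
      Finset.sum_const_zero, add_zero] at h
    rw [Finset.sum_eq_single s] at h
    · rw [Finset.sum_eq_single l] at h
      · simpa using h
      · intro b _ hb
        simp [hb]
      · simp
    · intro b _ hb
      simp [hb]
    · simp
  · intro s m
    have h := key (Pi.single s (Pi.single m 1)) 0 0
    have hz : (Fin.snoc (0 : Fin n → ℂ) 0 : Fin (n + 1) → ℂ) = 0 := by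
      ext l
      refine Fin.lastCases ?_ (fun l => ?_) l <;> simp
    simp only [Pi.zero_apply, hz, drF_apply, hsF_apply, mul_zero, zero_mul,
      Finset.sum_const_zero, add_zero, zero_add] at h
    rw [Finset.sum_eq_single s] at h
    · refine Eq.trans ?_ h
      refine Finset.sum_congr rfl fun l _ => ?_
      congr 1
      rw [Pi.single_eq_same, Finset.sum_eq_single m.castSucc]
      · simp
      · intro b _ hb
        have : (Fin.snoc (Pi.single m 1 : Fin n → ℂ) 0 : Fin (n + 1) → ℂ) b = 0 := by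
          revert hb
          refine Fin.lastCases ?_ (fun b => ?_) b
          · simp
          · intro hb
            have : b ≠ m := fun h => hb (by rw [h])
            simp [this]
        rw [this, mul_zero]
      · simp
    · intro b _ hb
      simp [hb, hz]
    · simp
  · intro s m
    have h := key 0 (Pi.single s (Pi.single m 1)) 0
    have hz : (Fin.snoc (0 : Fin n → ℂ) 0 : Fin (n + 1) → ℂ) = 0 := by
      ext l
      refine Fin.lastCases ?_ (fun l => ?_) l <;> simp
    simp only [Pi.zero_apply, hz, drF_apply, hsF_apply, mul_zero, zero_mul,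
      Finset.sum_const_zero, add_zero, zero_add] at h
    rw [Finset.sum_eq_single s] at h
    · rw [Pi.single_eq_same, Finset.sum_eq_single m.castSucc] at h
      · simpa using h
      · intro b _ hb
        have : (Fin.snoc (Pi.single m 1 : Fin n → ℂ) 0 : Fin (n + 1) → ℂ) b = 0 := by
          revert hb
          refine Fin.lastCases ?_ (fun b => ?_) b
          · simp
          · intro hb
            have : b ≠ m := fun h => hb (by rw [h])
            simp [this]
        rw [this, zero_mul]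
      · simp
    · intro b _ hb
      simp [hb, hz]
    · simp

end H80R
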