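import Mathlib
import Pool.Agent.H80R.Hyper

namespace H80R

open MvPolynomial Topology Filter

/-- Data: a decomposition of a tensor `∑ ℓ_s^{k-1} y_s + ∑ p_s^k` with general parameters. -/
structure Dec (n k a b r : ℕ) where
  /-- the base points of the tangent vectors -/
  pl : Fin a → Fin n → ℂ
  /-- the simple points -/
  pp : Fin b → Fin n → ℂ
  /-- the tangent directions -/
  py : Fin a → Fin (n + 1) → ℂ
  halg : AlgebraicIndependent ℚ (Sum.elim (fun q : Fin a × Fin n => pl q.1 q.2)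
      (Sum.elim (fun q : Fin b × Fin n => pp q.1 q.2)
        (fun q : Fin a × Fin (n + 1) => py q.1 q.2)))
  /-- the summands -/
  w : Fin r → Fin (n + 1) → ℂ
  hT : ∀ i, ∑ s, tt k (Fin.snoc (pl s) 0 : Fin (n + 1) → ℂ) (py s) i +
      ∑ s, pw k (Fin.snoc (pp s) 0 : Fin (n + 1) → ℂ) i = ∑ j, pw k (w j) i

/-- Forms singular at the summands off the hyperplane are singular, along the hyperplane, at the
base points. -/
theorem Dec.sing {n k a b r : ℕ} (hn : 1 ≤ n) (T : Dec n k a b r) {e : ℕ} (he : e + 1 ≤ k)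
    {B : MvPolynomial (Fin (n + 1)) ℂ} (hB : B ∈ Fm (n + 1) e)
    (hs0 : ∀ j, T.w j (Fin.last n) ≠ 0 → eval (T.w j) B = 0 ∧ gr (T.w j) B = 0) (s : Fin a) :
    eval (T.pl s) (res n B) = 0 ∧ gr (T.pl s) (res n B) = 0 := by
  classical
  obtain ⟨f, hf⟩ : ∃ f, k = e + f + 1 := ⟨k - e - 1, by omega⟩
  let i0 : Fin n := ⟨0, by omega⟩
  let L : Fin (n + 1) → ℂ := Fin.snoc (T.pl s) 0
  let g : MvPolynomial (Fin (n + 1)) ℂ := X i0.castSucc ^ f
  let ee : Fin (n + 1) → ℂ := Pi.single (Fin.last n) 1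
  have hee : lf ee = X (Fin.last n) := lf_last n
  have hg : g ∈ Fm (n + 1) f := isHomogeneous_X_pow _ _
  have hBg : B * g ∈ Fm (n + 1) (e + f) := mul_mem_Fm hB hg
  have hA : lf ee * (B * g) ∈ Fm (n + 1) k := by
    rw [hf]
    exact lf_mul_mem ee hBg
  have hy : T.py s (Fin.last n) ≠ 0 := T.halg.ne_zero (Sum.inr (Sum.inr (s, Fin.last n)))
  have hl : T.pl s i0 ≠ 0 := T.halg.ne_zero (Sum.inl (s, i0))
  have hgL : eval L g ≠ 0 := by
    simp only [g, map_pow, eval_X, L, Fin.snoc_castSucc]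
    exact pow_ne_zero _ hl
  have hLlast : eval L (lf ee) = 0 := by
    rw [hee, eval_X]
    simp [L]
  have hec : ∀ m : Fin n, ee m.castSucc = 0 := by
    intro m
    simp [ee, (Fin.castSucc_lt_last m).ne]
  have hel : ee (Fin.last n) = 1 := by simp [ee]
  obtain ⟨h1, h2, -⟩ := tangent_hyper T.pl T.pp T.py T.halg T.w T.hT hA
    (by
      intro j hj
      obtain ⟨h3, h4⟩ := hs0 j hj
      ext l
      rw [gr_lf_mul, map_mul, gr_mul', h3, h4]
      simp)
    (by
      intro j hj l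
      rw [gr_lf_mul, hec, hee, eval_X, hj]
      simp)
  have hBL : eval L B = 0 := by
    have h3 := congrFun (h1 s) (Fin.last n)
    rw [gr_lf_mul, hel] at h3
    change 1 * eval L (B * g) + eval L (lf ee) * gr L (B * g) (Fin.last n) = 0 at h3
    rw [hLlast, zero_mul, add_zero, one_mul, map_mul] at h3
    exact (mul_eq_zero.mp h3).resolve_right hgL
  have hgr : ∀ m : Fin n, gr L B m.castSucc = 0 := by
    intro m
    have h3 := h2 s m
    have h4 : ∀ l, T.py s l * hs L (lf ee * (B * g)) m.castSucc l =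
        (T.py s l * ee l) * gr L (B * g) m.castSucc := by
      intro l
      rw [hs_lf_mul, hec, hLlast]
      ring
    change ∑ l, T.py s l * hs L (lf ee * (B * g)) m.castSucc l = 0 at h3
    simp only [h4] at h3
    rw [← Finset.sum_mul, Finset.sum_eq_single (Fin.last n)] at h3
    · rw [hel, mul_one] at h3
      have h5 := (mul_eq_zero.mp h3).resolve_left hy
      rw [gr_mul', hBL, zero_mul, zero_add] at h5
      exact (mul_eq_zero.mp h5).resolve_left hgL
    · intro l _ hl
      simp [ee, hl]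
    · simp
  constructor
  · rw [eval_res]
    exact hBL
  · ext m
    rw [← gr_snoc_castSucc]
    exact hgr m

/-- forms singular at the summands off the hyperplane -/
noncomputable def Dec.BJ {n k a b r : ℕ} (T : Dec n k a b r) (e : ℕ) :
    Submodule ℂ (MvPolynomial (Fin (n + 1)) ℂ) where
  carrier := {B | B ∈ Fm (n + 1) e ∧
    ∀ j, T.w j (Fin.last n) ≠ 0 → eval (T.w j) B = 0 ∧ gr (T.w j) B = 0}
  add_mem' := by
    rintro A B ⟨hA, hA'⟩ ⟨hB, hB'⟩
    refine ⟨Submodule.add_mem _ hA hB, fun j hj => ⟨?_, ?_⟩⟩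
    · rw [map_add, (hA' j hj).1, (hB' j hj).1, add_zero]
    · rw [gr_add, (hA' j hj).2, (hB' j hj).2, add_zero]
  zero_mem' := by
    refine ⟨Submodule.zero_mem _, fun j _ => ⟨by simp, ?_⟩⟩
    ext l
    simp [gr]
  smul_mem' := by
    rintro c A ⟨hA, hA'⟩
    refine ⟨Submodule.smul_mem _ _ hA, fun j hj => ⟨?_, ?_⟩⟩
    · rw [smul_eval, (hA' j hj).1, mul_zero]
    · rw [gr_smul, (hA' j hj).2, smul_zero]

theorem Dec.BJ_le {n k a b r : ℕ} (T : Dec n k a b r) (e : ℕ) : T.BJ e ≤ Fm (n + 1) e :=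
  fun _ hA => hA.1

/-- Generic layer estimate: a space of forms whose restrictions to the hyperplane are singular
at given points. -/
theorem layer {n e a : ℕ} (z : Fin a → Fin n → ℂ) (W K : Submodule ℂ (MvPolynomial (Fin (n + 1)) ℂ))
    (hW : W ≤ Fm (n + 1) (e + 1)) (hWz : ∀ A ∈ W, ∀ s, gr (z s) (res n A) = 0)
    (hK : ∀ B ∈ Fm (n + 1) e, X (Fin.last n) * B ∈ W → B ∈ K) (hKe : K ≤ Fm (n + 1) e) :
    Module.finrank ℂ W ≤ nl n (e + 1) z + Module.finrank ℂ K := by
  classical
  have hWfd : FiniteDimensional ℂ W := Submodule.finiteDimensional_of_le hW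
  have hKfd : FiniteDimensional ℂ K := Submodule.finiteDimensional_of_le hKe
  let R : W →ₗ[ℂ] Fm n (e + 1) :=
    LinearMap.codRestrict (Fm n (e + 1)) ((res n).toLinearMap.domRestrict W)
      (fun A => res_mem (hW A.2))
  have hR : Module.finrank ℂ (LinearMap.range R) + Module.finrank ℂ (LinearMap.ker R) =
      Module.finrank ℂ W := LinearMap.finrank_range_add_finrank_ker R
  have h1 : Module.finrank ℂ (LinearMap.range R) ≤ nl n (e + 1) z := by
    apply Submodule.finrank_mono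
    rintro _ ⟨A, rfl⟩
    rw [LinearMap.mem_ker]
    funext s
    exact hWz A.1 A.2 s
  have h2 : Module.finrank ℂ (LinearMap.ker R) ≤ Module.finrank ℂ K := by
    -- division by the last variable
    have hdiv : ∀ A : LinearMap.ker R, ∃ B ∈ K, A.1.1 = X (Fin.last n) * B := by
      intro A
      have h3 : res n A.1.1 = 0 := congrArg Subtype.val (LinearMap.mem_ker.mp A.2)
      obtain ⟨B, hB, hAB⟩ := res_eq_zero_form (hW A.1.2) h3
      refine ⟨B, hK B hB ?_, hAB⟩
      rw [← hAB]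
      exact A.1.2
    let W2 : Submodule ℂ (MvPolynomial (Fin (n + 1)) ℂ) :=
      K.map (LinearMap.mulLeft ℂ (X (Fin.last n)))
    have h3 : Module.finrank ℂ W2 ≤ Module.finrank ℂ K := Submodule.finrank_map_le _ _
    refine le_trans ?_ h3
    let f : LinearMap.ker R →ₗ[ℂ] MvPolynomial (Fin (n + 1)) ℂ :=
      W.subtype ∘ₗ (LinearMap.ker R).subtype
    let f' : LinearMap.ker R →ₗ[ℂ] W2 := LinearMap.codRestrict W2 f (by
      intro A
      obtain ⟨B, hB, hAB⟩ := hdiv A
      exact ⟨B, hB, hAB.symm⟩)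
    apply LinearMap.finrank_le_finrank_of_injective (f := f')
    intro A B hAB
    have h4 : (f' A : MvPolynomial (Fin (n + 1)) ℂ) = f' B := by rw [hAB]
    have h5 : (A.1 : MvPolynomial (Fin (n + 1)) ℂ) = B.1 := h4
    exact Subtype.ext (Subtype.ext h5)
  omega

theorem Dec.BJ_zero {n k a b r : ℕ} (hn : 1 ≤ n) (hk : 1 ≤ k) (ha : 1 ≤ a)
    (T : Dec n k a b r) : Module.finrank ℂ (T.BJ 0) = 0 := by
  have h : T.BJ 0 = ⊥ := by
    rw [Submodule.eq_bot_iff]
    intro B hB
    obtain ⟨h1, -⟩ := T.sing hn (e := 0) (by omega) hB.1 hB.2 ⟨0, by omega⟩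
    have h2 : B ∈ homogeneousSubmodule (Fin (n + 1)) ℂ 0 := hB.1
    rw [homogeneousSubmodule_zero] at h2
    obtain ⟨c, hc⟩ := Submodule.mem_one.mp h2
    rw [← hc] at h1 ⊢
    rw [eval_res] at h1
    have h3 : c = 0 := by simpa [MvPolynomial.algebraMap_eq] using h1
    rw [h3, map_zero]
  rw [h, finrank_bot]

theorem Dec.BJ_succ {n k a b r : ℕ} (hn : 1 ≤ n) (T : Dec n k a b r) {e : ℕ}
    (he : e + 2 ≤ k) :
    Module.finrank ℂ (T.BJ (e + 1)) ≤ nl n (e + 1) T.pl + Module.finrank ℂ (T.BJ e) := by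
  apply layer T.pl (T.BJ (e + 1)) (T.BJ e) (T.BJ_le _)
  · intro A hA s
    exact (T.sing hn (by omega) hA.1 hA.2 s).2
  · intro B hB hXB
    refine ⟨hB, fun j hj => ?_⟩
    have h1 := (hXB.2 j hj).2
    rw [← lf_last] at h1
    exact gr_zero_of_lf_mul (d := e) _ _ (by rw [lf_last, eval_X]; exact hj) hB h1
  · exact T.BJ_le _

theorem Dec.BJ_bound {n k a b r : ℕ} (hn : 1 ≤ n) (ha : 1 ≤ a) (T : Dec n k a b r) (e : ℕ)
    (he : e + 1 ≤ k) :
    Module.finrank ℂ (T.BJ e) ≤ ∑ i ∈ Finset.range e, nl n (i + 1) T.pl := by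
  induction e with
  | zero => rw [T.BJ_zero hn (by omega) ha]; simp
  | succ e ih =>
    have h1 := ih (by omega)
    have h2 := T.BJ_succ hn (e := e) (by omega)
    rw [Finset.sum_range_succ]
    omega

/-- **Main estimate.** -/
theorem Dec.bound {n k a b r : ℕ} (hn : 1 ≤ n) (ha : 1 ≤ a) (T : Dec n (k + 1) a b r) :
    nl (n + 1) (k + 1) T.w ≤ nl n (k + 1) (Fin.append T.pl T.pp : Fin (a + b) → Fin n → ℂ) +
      ∑ i ∈ Finset.range k, nl n (i + 1) T.pl := by
  classical
  let K : Submodule ℂ (Fm (n + 1) (k + 1)) := LinearMap.ker (grL (n + 1) (k + 1) T.w)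
  let W : Submodule ℂ (MvPolynomial (Fin (n + 1)) ℂ) := K.map (Fm (n + 1) (k + 1)).subtype
  have hW1 : Module.finrank ℂ W = nl (n + 1) (k + 1) T.w :=
    LinearEquiv.finrank_eq
      (Submodule.equivMapOfInjective _ (Submodule.subtype_injective _) K).symm
  have hWm : ∀ A ∈ W, A ∈ Fm (n + 1) (k + 1) ∧ ∀ j, gr (T.w j) A = 0 := by
    rintro _ ⟨A, hA, rfl⟩
    exact ⟨A.2, fun j => congrFun (LinearMap.mem_ker.mp hA) j⟩
  have h1 := layer (Fin.append T.pl T.pp : Fin (a + b) → Fin n → ℂ) W (T.BJ k)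
    (fun A hA => (hWm A hA).1)
    (by
      intro A hA s
      obtain ⟨hA1, hA2⟩ := hWm A hA
      obtain ⟨h2, -, h3⟩ := tangent_hyper T.pl T.pp T.py T.halg T.w T.hT hA1
        (fun j _ => hA2 j) (fun j _ l => by rw [hA2 j]; rfl)
      refine Fin.addCases (fun s => ?_) (fun s => ?_) s
      · rw [Fin.append_left]
        ext m
        rw [← gr_snoc_castSucc, h2 s]
        rfl
      · rw [Fin.append_right]
        ext m
        rw [← gr_snoc_castSucc]
        exact h3 s m)
    (by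
      intro B hB hXB
      refine ⟨hB, fun j hj => ?_⟩
      have h2 := (hWm _ hXB).2 j
      rw [← lf_last] at h2
      exact gr_zero_of_lf_mul (d := k) _ _ (by rw [lf_last, eval_X]; exact hj) hB h2)
    (T.BJ_le _)
  have h2 := T.BJ_bound hn ha k le_rfl
  omega

/-- **Closedness produces decompositions with few forms singular along them.** -/
theorem closed_hyper {n N k a b r : ℕ} (hn : 1 ≤ n) (hnN : n ≤ N) (ha : 1 ≤ a)
    (hab : 2 * a + b ≤ r) (hcl : IsClosed[projTop (N + 1) (k + 1)] (Y (N + 1) (k + 1) r))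
    (S : ℕ → ℕ) (hS : ∀ i < k, Sg n (i + 1) a (S i)) (St : ℕ) (hSt : Sg n (k + 1) (a + b) St) :
    ∃ w : Fin r → Fin (n + 1) → ℂ,
      nl (n + 1) (k + 1) w ≤ St + ∑ i ∈ Finset.range k, S i := by
  classical
  obtain ⟨v, hv⟩ := exists_algebraicIndependent
    ((Fin a × Fin n) ⊕ ((Fin b × Fin n) ⊕ (Fin a × Fin (n + 1))))
  let pl : Fin a → Fin n → ℂ := fun s l => v (Sum.inl (s, l))
  let pp : Fin b → Fin n → ℂ := fun s l => v (Sum.inr (Sum.inl (s, l)))
  let py : Fin a → Fin (n + 1) → ℂ := fun s l => v (Sum.inr (Sum.inr (s, l)))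
  have halg : AlgebraicIndependent ℚ (Sum.elim (fun q : Fin a × Fin n => pl q.1 q.2)
      (Sum.elim (fun q : Fin b × Fin n => pp q.1 q.2)
        (fun q : Fin a × Fin (n + 1) => py q.1 q.2))) := by
    convert hv using 1
    ext (q | q | q) <;> rfl
  have hle : n + 1 ≤ N + 1 := by omega
  let xL : Fin a → Fin (N + 1) → ℂ := fun s => pad (Fin.snoc (pl s) 0 : Fin (n + 1) → ℂ)
  let yL : Fin a → Fin (N + 1) → ℂ := fun s => pad (py s)
  let zL : Fin b → Fin (N + 1) → ℂ := fun s => pad (Fin.snoc (pp s) 0 : Fin (n + 1) → ℂ)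
  -- the tensor does not vanish
  have hne : ∑ s, ttS (k + 1) (xL s) (yL s) + ∑ s, tpow (k + 1) (zL s) ≠ 0 := by
    intro h0
    let T : Dec n (k + 1) a b 0 :=
      { pl := pl
        pp := pp
        py := py
        halg := halg
        w := fun j => j.elim0
        hT := by
          intro i
          have h1 := congrArg (fun T : SymT (N + 1) (k + 1) =>
            T.1 (fun j => Fin.castLE hle (i j))) h0
          simp only [Submodule.coe_add, AddSubmonoidClass.coe_finsetSum, Pi.add_apply,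
            Finset.sum_apply] at h1
          have h2 : ∑ s, tt (k + 1) (xL s) (yL s) (fun j => Fin.castLE hle (i j)) +
            ∑ s, pw (k + 1) (zL s) (fun j => Fin.castLE hle (i j)) = 0 := h1
          simp only [xL, yL, zL, tt_pad hle, pw_pad hle] at h2
          rw [h2]
          simp }
    have h1 := (T.sing hn (e := 0) (by omega) (B := 1) (isHomogeneous_one _ _)
      (fun j => j.elim0) ⟨0, by omega⟩).1
    rw [map_one, map_one] at h1
    exact one_ne_zero h1
  obtain ⟨w, hw⟩ := closed_imp (by omega) hcl hab xL yL zL hne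
  let T : Dec n (k + 1) a b r :=
    { pl := pl
      pp := pp
      py := py
      halg := halg
      w := fun j l => w j (Fin.castLE hle l)
      hT := by
        intro i
        have h1 := hw (fun j => Fin.castLE hle (i j))
        simp only [xL, yL, zL, tt_pad hle, pw_pad hle] at h1
        exact h1 }
  refine ⟨T.w, ?_⟩
  have h1 := T.bound hn ha
  have h2 : nl n (k + 1) (Fin.append T.pl T.pp : Fin (a + b) → Fin n → ℂ) ≤ St := by
    apply hSt
    let φ : Fin (a + b) × Fin n → (Fin a × Fin n) ⊕ ((Fin b × Fin n) ⊕ (Fin a × Fin (n + 1))) :=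
      fun q => Sum.elim (fun s => Sum.inl (s, q.2)) (fun s => Sum.inr (Sum.inl (s, q.2)))
        (finSumFinEquiv.symm q.1)
    have hφ : Function.Injective φ := by
      rintro ⟨s, l⟩ ⟨s', l'⟩ h
      revert h
      refine Fin.addCases (fun s => ?_) (fun s => ?_) s <;>
      refine Fin.addCases (fun s' => ?_) (fun s' => ?_) s' <;>
      · simp [φ]
    have h3 := hv.comp φ hφ
    convert h3 using 1
    ext ⟨s, l⟩
    refine Fin.addCases (fun s => ?_) (fun s => ?_) s
    · simp [φ, T, pl]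
    · simp [φ, T, pp]
  have h3 : ∀ i ∈ Finset.range k, nl n (i + 1) T.pl ≤ S i := by
    intro i hi
    apply hS i (Finset.mem_range.mp hi)
    have h4 := hv.comp (fun q : Fin a × Fin n => Sum.inl q) (by
      intro q q' h
      simpa using h)
    convert h4 using 1
    ext ⟨s, l⟩
    rfl
  have h4 := Finset.sum_le_sum h3
  omega

end H80R
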