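import Mathlib
import Pool.Agent.H80R.Hyper2

namespace H80R

open MvPolynomial Topology Filter

/-- Chain rule for derivations and rational polynomials. -/
theorem der_aeval' {σ : Type*} [Fintype σ] (D : Derivation ℚ ℂ ℂ) (w : σ → ℂ)
    (P : MvPolynomial σ ℚ) : D (aeval w P) = ∑ l, aeval w (pderiv l P) * D (w l) := by
  classical
  induction P using MvPolynomial.induction_on with
  | C a =>
    have h1 : aeval w (C a : MvPolynomial σ ℚ) = algebraMap ℚ ℂ a := by simp
    rw [h1, Derivation.map_algebraMap]
    simp
  | add p q hp hq =>
    simp only [map_add, hp, hq, add_mul, Finset.sum_add_distrib]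
  | mul_X p n hp =>
    rw [map_mul, Derivation.leibniz, hp]
    simp only [aeval_X, smul_eq_mul, Derivation.leibniz, pderiv_X, map_add, map_mul, add_mul,
      Finset.sum_add_distrib, Finset.mul_sum]
    congr 1
    · rw [Finset.sum_eq_single n]
      · simp
      · intro b _ hb
        simp [hb.symm]
      · simp
    · exact Finset.sum_congr rfl fun l _ => by ring

theorem eq_C_of_pderiv {σ : Type*} {P : MvPolynomial σ ℚ} (h : ∀ l, pderiv l P = 0) :
    P = C (coeff 0 P) := by
  classical
  ext m
  rw [coeff_C]
  split_ifs with hm
  · rw [← hm]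
  · have h1 : m ≠ 0 := fun h => hm h.symm
    obtain ⟨l, hl⟩ := Finsupp.ne_iff.mp h1
    have hl' : Finsupp.single l 1 ≤ m := by
      rw [Finsupp.single_le_iff]
      exact Nat.one_le_iff_ne_zero.mpr hl
    have h2 : (m - Finsupp.single l 1) + Finsupp.single l 1 = m := tsub_add_cancel_of_le hl'
    have h3 := congrArg (coeff (m - Finsupp.single l 1)) (h l)
    rw [coeff_pderiv, h2, coeff_zero] at h3
    refine (mul_eq_zero.mp h3).resolve_right ?_
    positivity

theorem totalDegree_pderiv_lt {σ : Type*} {P : MvPolynomial σ ℚ} (l : σ) (n : ℕ)
    (hP : P.totalDegree ≤ n + 1) : (pderiv l P).totalDegree ≤ n := by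
  classical
  apply Finset.sup_le
  intro m hm
  rw [mem_support_iff, coeff_pderiv] at hm
  have h1 : m + Finsupp.single l 1 ∈ P.support := by
    rw [mem_support_iff]
    exact left_ne_zero_of_mul hm
  have h2 := le_totalDegree h1
  rw [Finsupp.sum_add_index' (by simp) (by simp), Finsupp.sum_single_index rfl] at h2
  omega

/-- coordinates of `∑ w_j^k` -/
noncomputable def crd (N k : ℕ) {r : ℕ} (w : Fin r → Fin N → ℂ) (α : Ex N k) : ℂ :=
  ∑ j, eval (w j) (monomial (α : Fin N →₀ ℕ) (1 : ℂ))

theorem crd_alg {N k r : ℕ} (w : Fin r → Fin N → ℂ)
    (hw : AlgebraicIndependent ℚ (fun p : Fin r × Fin N => w p.1 p.2)) (h0 : nl N k w = 0) :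
    AlgebraicIndependent ℚ (crd N k w) := by
  classical
  have hker : LinearMap.ker (grL N k w) = ⊥ := Submodule.finrank_eq_zero.mp h0
  rw [algebraicIndependent_iff]
  have main : ∀ (n : ℕ) (P : MvPolynomial (Ex N k) ℚ), P.totalDegree ≤ n →
      aeval (crd N k w) P = 0 → P = 0 := by
    intro n
    induction n with
    | zero =>
      intro P hP h
      rw [Nat.le_zero, totalDegree_eq_zero_iff_eq_C] at hP
      rw [hP] at h ⊢
      rw [aeval_C] at h
      have h1 : coeff 0 P = 0 := (map_eq_zero_iff _ (algebraMap ℚ ℂ).injective).mp h
      rw [h1, C_0]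
    | succ n ih =>
      intro P hP h
      have hpd : ∀ α, pderiv α P = 0 := by
        -- the test form
        let c : Ex N k → ℂ := fun α => aeval (crd N k w) (pderiv α P)
        have hA : (⟨ofCoef c, ofCoef_mem c⟩ : Fm N k) ∈ LinearMap.ker (grL N k w) := by
          rw [LinearMap.mem_ker]
          funext j l
          obtain ⟨D, hD⟩ := exists_derivation _ hw (Pi.single (j, l) 1)
          have h1 : D (aeval (crd N k w) P) = 0 := by rw [h, map_zero]
          rw [der_aeval'] at h1
          have h2 : ∀ α : Ex N k, D (crd N k w α) =
              gr (w j) (monomial (α : Fin N →₀ ℕ) (1 : ℂ)) l := by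
            intro α
            have h3 : ∀ j', eval (w j') (monomial (α : Fin N →₀ ℕ) (1 : ℂ)) =
                aeval (w j') (monomial (α : Fin N →₀ ℕ) (1 : ℚ)) := by
              intro j'
              rw [aeval_eq_eval_map, map_monomial, map_one (algebraMap ℚ ℂ)]
            simp only [crd, h3]
            rw [map_sum, Finset.sum_eq_single j]
            · rw [der_aeval', Finset.sum_eq_single l]
              · rw [hD (j, l), Pi.single_eq_same, mul_one, aeval_eq_eval_map, ← pderiv_map,
                  map_monomial, map_one (algebraMap ℚ ℂ)]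
                rfl
              · intro l' _ hl'
                rw [hD (j, l'), Pi.single_eq_of_ne, mul_zero]
                intro h
                exact hl' (Prod.ext_iff.mp h).2
              · simp
            · intro j' _ hj'
              rw [der_aeval']
              apply Finset.sum_eq_zero
              intro l' _
              rw [hD (j', l'), Pi.single_eq_of_ne, mul_zero]
              intro h
              exact hj' (Prod.ext_iff.mp h).1
            · simp
          simp only [h2] at h1
          change gr (w j) (ofCoef c) l = 0
          rw [← h1, ofCoef, ← grP_apply, map_sum, Finset.sum_apply]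
          exact Finset.sum_congr rfl fun α _ => by
            rw [map_smul, Pi.smul_apply, smul_eq_mul, grP_apply]
        rw [hker, Submodule.mem_bot] at hA
        have hA0 : ofCoef c = 0 := congrArg Subtype.val hA
        intro α
        apply ih _ (totalDegree_pderiv_lt α n hP)
        change c α = 0
        have h4 := congrArg (coeff (α : Fin N →₀ ℕ)) hA0
        rw [coeff_zero] at h4
        simp only [ofCoef, coeff_sum, coeff_smul, coeff_monomial, smul_eq_mul, mul_ite, mul_one,
          mul_zero] at h4
        rw [Finset.sum_eq_single α] at h4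
        · simpa using h4
        · rintro b - hne
          rw [if_neg]
          intro h
          exact hne (Subtype.ext h)
        · simp
      have h5 := eq_C_of_pderiv hpd
      rw [h5] at h ⊢
      rw [aeval_C] at h
      have h1 : coeff 0 P = 0 := (map_eq_zero_iff _ (algebraMap ℚ ℂ).injective).mp h
      rw [h1, C_0]
  intro P hP
  exact main _ P le_rfl hP

end H80R
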