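import Mathlib
import Pool.Agent.H80R.Dense

namespace H80R

open MvPolynomial Topology Filter

/-- extension of a field homomorphism to an algebraic extension -/
theorem extend_hom {K S M : Type*} [Field K] [Field S] [Field M] [Algebra K S]
    [Algebra.IsAlgebraic K S] [IsAlgClosed M] (f : K →+* M) :
    ∃ g : S →+* M, ∀ x, g (algebraMap K S x) = f x := by
  let _ : Algebra K M := f.toAlgebra
  exact ⟨(IsAlgClosed.lift : S →ₐ[K] M).toRingHom, fun x => AlgHom.commutes _ x⟩

open scoped IntermediateField.algebraAdjoinAdjoin in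
/-- A map from a transcendence basis to an algebraically independent family extends to a field
homomorphism. -/
theorem exists_hom_of_basis {κ : Type*} (v u : κ → ℂ) (hv : IsTranscendenceBasis ℚ v)
    (hu : AlgebraicIndependent ℚ u) : ∃ g : ℂ →+* ℂ, ∀ i, g (v i) = u i := by
  let A := Algebra.adjoin ℚ (Set.range v)
  let K := IntermediateField.adjoin ℚ (Set.range v)
  have h2 : Algebra.IsAlgebraic K ℂ := hv.isAlgebraic_field
  let e : MvPolynomial κ ℚ ≃ₐ[ℚ] A := hv.1.aevalEquiv
  let g0 : A →+* ℂ := (aeval (R := ℚ) u).toRingHom.comp e.symm.toRingEquiv.toRingHom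
  have hg0 : Function.Injective g0 := by
    intro x y hxy
    have h3 : aeval u (e.symm x) = aeval u (e.symm y) := hxy
    exact e.symm.injective (hu h3)
  let f : K →+* ℂ := IsFractionRing.lift (A := A) (K := K) hg0
  obtain ⟨g, hg⟩ := extend_hom (S := ℂ) f
  refine ⟨g, fun i => ?_⟩
  let w : A := ⟨v i, Algebra.subset_adjoin ⟨i, rfl⟩⟩
  have h3 : g (algebraMap K ℂ (algebraMap A K w)) = f (algebraMap A K w) := hg _
  have h4 : f (algebraMap A K w) = g0 w := IsFractionRing.lift_algebraMap hg0 w
  have h5 : e.symm w = X i := by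
    rw [AlgEquiv.symm_apply_eq]
    apply Subtype.ext
    have h6 : ((e (X i) : A) : ℂ) = aeval v (X i : MvPolynomial κ ℚ) := rfl
    rw [h6, aeval_X]
  have h6 : g0 w = u i := by
    change aeval u (e.symm w) = u i
    rw [h5, aeval_X]
  rw [h4, h6] at h3
  exact h3

/-- Two finite algebraically independent families are conjugate. -/
theorem exists_hom {ι : Type} [Finite ι] (x y : ι → ℂ) (hx : AlgebraicIndependent ℚ x)
    (hy : AlgebraicIndependent ℚ y) : ∃ g : ℂ →+* ℂ, ∀ i, g (x i) = y i := by
  classical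
  obtain ⟨s, hxs, hs⟩ := exists_isTranscendenceBasis_superset
    (show AlgebraicIndepOn ℚ id (Set.range x) from hx.coe_range)
  obtain ⟨t, hyt, ht⟩ := exists_isTranscendenceBasis_superset
    (show AlgebraicIndepOn ℚ id (Set.range y) from hy.coe_range)
  have hC : Cardinal.aleph0 < Cardinal.mk ℂ := by
    rw [Cardinal.mk_complex]
    exact Cardinal.aleph0_lt_continuum
  have hQ : Cardinal.mk ℚ ≤ Cardinal.aleph0 := by simp
  have h1 : Cardinal.mk ℂ = Cardinal.mk s :=
    IsAlgClosed.cardinal_eq_cardinal_transcendence_basis_of_aleph0_lt' _ hs hQ hC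
  have h2 : Cardinal.mk ℂ = Cardinal.mk t :=
    IsAlgClosed.cardinal_eq_cardinal_transcendence_basis_of_aleph0_lt' _ ht hQ hC
  have hyfin : (Set.range y).Finite := Set.finite_range y
  have htinf : Infinite t := by
    rw [← Cardinal.aleph0_le_mk_iff, ← h2]
    exact hC.le
  have h3 : Cardinal.mk (↥(t \ Set.range y)) = Cardinal.mk t := by
    have h4 := Cardinal.mk_sdiff_add_mk hyt
    have h5 : Cardinal.mk (Set.range y) < Cardinal.aleph0 := hyfin.lt_aleph0
    have h6 : Cardinal.aleph0 ≤ Cardinal.mk (↥(t \ Set.range y)) := by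
      by_contra hcon
      rw [not_le] at hcon
      have h7 := Cardinal.add_lt_aleph0 hcon h5
      rw [h4, ← h2] at h7
      exact absurd h7 (not_lt.mpr hC.le)
    rw [← h4, Cardinal.add_eq_left h6 (h5.le.trans h6)]
  have h4 : Cardinal.mk s ≤ Cardinal.mk (↥(t \ Set.range y)) := by
    rw [h3, ← h2, h1]
  obtain ⟨f⟩ := Cardinal.le_def _ _ |>.mp h4
  have hxinj := hx.injective
  let G : s → t := fun z => if h : ∃ i, x i = z then ⟨y h.choose, hyt ⟨h.choose, rfl⟩⟩
    else ⟨(f z : ℂ), (f z).2.1⟩
  have hG : Function.Injective G := by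
    intro z z' hzz
    simp only [G] at hzz
    by_cases h : ∃ i, x i = (z : ℂ)
    · by_cases h' : ∃ i, x i = (z' : ℂ)
      · rw [dif_pos h, dif_pos h'] at hzz
        have h5 : y h.choose = y h'.choose := congrArg Subtype.val hzz
        have h6 := hy.injective h5
        apply Subtype.ext
        rw [← h.choose_spec, ← h'.choose_spec, h6]
      · rw [dif_pos h, dif_neg h'] at hzz
        exfalso
        have h5 : y h.choose = (f z' : ℂ) := congrArg Subtype.val hzz
        exact (f z').2.2 ⟨h.choose, h5⟩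
    · by_cases h' : ∃ i, x i = (z' : ℂ)
      · rw [dif_neg h, dif_pos h'] at hzz
        exfalso
        have h5 : (f z : ℂ) = y h'.choose := congrArg Subtype.val hzz
        exact (f z).2.2 ⟨h'.choose, h5.symm⟩
      · rw [dif_neg h, dif_neg h'] at hzz
        have h5 := Subtype.ext_iff.mp hzz
        exact f.injective (Subtype.ext h5)
  obtain ⟨g, hg⟩ := exists_hom_of_basis (fun z : s => (z : ℂ)) (fun z : s => (G z : ℂ)) hs
    (ht.1.comp G hG)
  refine ⟨g, fun i => ?_⟩
  have h5 := hg ⟨x i, hxs ⟨i, rfl⟩⟩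
  simp only at h5
  rw [h5]
  have h6 : ∃ j, x j = x i := ⟨i, rfl⟩
  simp only [G]
  rw [dif_pos h6]
  change y h6.choose = y i
  rw [hxinj h6.choose_spec]

end H80R
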