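import Mathlib
import Pool.Agent.H80R.Dense2

namespace H80R

open MvPolynomial Topology Filter

/-- Algebraically independent perturbations. -/
theorem alg_add {ι : Type} [Finite ι] (c : ι → ℂ) :
    ∃ v : ι → ℂ, ∀ q : ℚ, q ≠ 0 → AlgebraicIndependent ℚ (fun α => c α + (q : ℂ) * v α) := by
  classical
  let K := IntermediateField.adjoin ℚ (Set.range c)
  have hK : Cardinal.mk K ≤ Cardinal.aleph0 := by
    have h1 := IntermediateField.cardinalMk_adjoin_le ℚ (Set.range c)
    refine h1.trans ?_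
    have h2 : Cardinal.mk (Set.range c) ≤ Cardinal.aleph0 :=
      (Set.finite_range c).lt_aleph0.le
    simp
  obtain ⟨κ, x, hx⟩ := exists_isTranscendenceBasis' K ℂ
  have h1 : Infinite κ := by
    by_contra hfin
    rw [not_infinite_iff_finite] at hfin
    have h2 := IsAlgClosed.cardinal_le_max_transcendence_basis (R := K) x hx
    have h3 : Cardinal.mk ℂ ≤ Cardinal.aleph0 := by
      simp only [Cardinal.lift_id] at h2
      refine h2.trans ?_
      refine max_le (max_le hK ?_) le_rfl
      exact (Cardinal.lt_aleph0_of_finite κ).le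
    have h4 : Cardinal.aleph0 < Cardinal.mk ℂ := by
      rw [Cardinal.mk_complex]
      exact Cardinal.aleph0_lt_continuum
    exact absurd h3 (not_le.mpr h4)
  obtain ⟨f, hf⟩ := exists_injective_nat ι
  let g : ℕ ↪ κ := Infinite.natEmbedding κ
  let v : ι → ℂ := fun i => x (g (f i))
  have hv : AlgebraicIndependent K v := hx.1.comp (g ∘ f) (g.injective.comp hf)
  refine ⟨v, fun q hq => ?_⟩
  have hmem : ∀ α, c α ∈ K := fun α => IntermediateField.subset_adjoin ℚ _ ⟨α, rfl⟩
  have hqmem : (q : ℂ) ∈ K := by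
    simp
  let c' : ι → K := fun α => ⟨c α, hmem α⟩
  let q' : K := ⟨(q : ℂ), hqmem⟩
  have hq' : q' ≠ 0 := by
    intro h
    have h2 : (q : ℂ) = 0 := congrArg Subtype.val h
    exact hq (by exact_mod_cast h2)
  have hind : AlgebraicIndependent K (fun α => c α + (q : ℂ) * v α) := by
    rw [algebraicIndependent_iff] at hv ⊢
    intro P hP
    let s : MvPolynomial ι K →ₐ[K] MvPolynomial ι K := aeval (fun α => C (c' α) + C q' * X α)
    let t : MvPolynomial ι K →ₐ[K] MvPolynomial ι K :=
      aeval (fun α => C q'⁻¹ * (X α - C (c' α)))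
    have hts : t.comp s = AlgHom.id K _ := by
      apply MvPolynomial.algHom_ext
      intro α
      have e1 : ∀ a : K, t (C a) = C a := fun a => by
        simp [t]
      simp only [AlgHom.comp_apply, s, aeval_X, map_add, map_mul, e1, AlgHom.id_apply]
      have e2 : t (X α) = C q'⁻¹ * (X α - C (c' α)) := by simp [t]
      rw [e2, ← mul_assoc, ← C_mul, mul_inv_cancel₀ hq', C_1]
      ring
    have h2 : aeval v (s P) = 0 := by
      have h3 : (aeval v).comp s = (aeval (fun α => c α + (q : ℂ) * v α) :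
          MvPolynomial ι K →ₐ[K] ℂ) := by
        apply MvPolynomial.algHom_ext
        intro α
        simp only [AlgHom.comp_apply, s, aeval_X, map_add, map_mul, algHom_C]
        rfl
      have h4 := congrArg (fun f : MvPolynomial ι K →ₐ[K] ℂ => f P) h3
      simp only [AlgHom.comp_apply] at h4
      rw [h4, hP]
    have h3 := hv _ h2
    have h4 := congrArg (fun f : MvPolynomial ι K →ₐ[K] MvPolynomial ι K => f P) hts
    simp only [AlgHom.comp_apply, AlgHom.id_apply] at h4
    rw [← h4, h3, map_zero]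
  exact hind.restrictScalars (algebraMap ℚ K).injective

/-- exponent of a multi-index -/
noncomputable def ex {N k : ℕ} (i : Fin k → Fin N) : Fin N →₀ ℕ := ∑ j, Finsupp.single (i j) 1

theorem mon_eq {N k : ℕ} (i : Fin k → Fin N) :
    (mon i : MvPolynomial (Fin N) ℂ) = monomial (ex i) 1 := by
  rw [ex, monomial_sum_one]
  rfl

theorem ex_mem {N k : ℕ} (i : Fin k → Fin N) : ex i ∈ Ex N k := by
  rw [mem_Ex, ex, map_sum]
  simp

theorem exists_ex {N k : ℕ} (α : Ex N k) : ∃ i : Fin k → Fin N, ex i = α := by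
  obtain ⟨i, hi⟩ := exists_mon k α.1 (mem_Ex.mp α.2)
  refine ⟨i, ?_⟩
  rw [mon_eq] at hi
  exact monomial_left_injective (one_ne_zero) hi

/-- a multi-index with given exponent -/
noncomputable def idx {N k : ℕ} (α : Ex N k) : Fin k → Fin N := (exists_ex α).choose

theorem ex_idx {N k : ℕ} (α : Ex N k) : ex (idx α) = α := (exists_ex α).choose_spec

theorem ex_perm {N k : ℕ} {i i' : Fin k → Fin N} (h : ex i = ex i') :
    ∃ σ : Equiv.Perm (Fin k), i' ∘ σ = i := by
  classical
  have hcard : ∀ (i : Fin k → Fin N) (l : Fin N), (ex i) l = Fintype.card {j // i j = l} := by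
    intro i l
    rw [ex, Finsupp.finsetSum_apply, Fintype.card_subtype, Finset.card_filter]
    exact Finset.sum_congr rfl fun j _ => by rw [Finsupp.single_apply]
  have e : ∀ l : Fin N, Nonempty ({j // i j = l} ≃ {j // i' j = l}) := by
    intro l
    apply Fintype.card_eq.mp
    rw [← hcard, ← hcard, h]
  replace e := fun l => (e l).some
  let σ : Fin k ≃ Fin k := (Equiv.sigmaFiberEquiv i).symm.trans
    ((Equiv.sigmaCongrRight e).trans (Equiv.sigmaFiberEquiv i'))
  refine ⟨σ, ?_⟩
  ext j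
  have h1 : σ j = (e (i j) ⟨j, rfl⟩ : {j' // i' j' = i j}).1 := rfl
  simp only [Function.comp, h1]
  rw [(e (i j) ⟨j, rfl⟩).2]

theorem ex_comp {N k : ℕ} (i : Fin k → Fin N) (σ : Equiv.Perm (Fin k)) : ex (i ∘ σ) = ex i := by
  simp only [ex, Function.comp]
  exact Equiv.sum_comp σ (fun j => Finsupp.single (i j) 1)

theorem sym_eq {N k : ℕ} (T : SymT N k) {i i' : Fin k → Fin N} (h : ex i = ex i') :
    T.1 i = T.1 i' := by
  obtain ⟨σ, hσ⟩ := ex_perm h
  rw [← hσ]
  exact T.2 σ i'

/-- A symmetric tensor with algebraically independent coordinates has rank at most `r` as soon as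
`r` general double points are not contained in a singular form. -/
theorem rankLE_of_generic {N k r : ℕ} (T : SymT N k)
    (hT : AlgebraicIndependent ℚ (fun α : Ex N k => T.1 (idx α)))
    (h : ∃ w₀ : Fin r → Fin N → ℂ, nl N k w₀ = 0) : RankLE r T := by
  classical
  obtain ⟨w₀, hw₀⟩ := h
  obtain ⟨v, hv⟩ := exists_algebraicIndependent (Fin r × Fin N)
  let w : Fin r → Fin N → ℂ := fun s l => v (s, l)
  have hw : AlgebraicIndependent ℚ (fun p : Fin r × Fin N => w p.1 p.2) := hv
  have hnl : nl N k w = 0 := by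
    have := nl_le_of_generic (d := k) w₀ w hw
    omega
  obtain ⟨φ, hφ⟩ := exists_hom _ _ (crd_alg w hw hnl) hT
  refine ⟨fun _ => 1, fun j l => φ (w j l), ?_⟩
  apply Subtype.ext
  ext i
  rw [AddSubmonoidClass.coe_finsetSum, Finset.sum_apply]
  have h1 : ∀ j, ((1 : ℂ) • tpow k (fun l => φ (w j l)) : SymT N k).1 i =
      φ (eval (w j) (monomial (ex i) (1 : ℂ))) := by
    intro j
    rw [one_smul, tpow_apply, ← mon_eq, eval_mon]
    simp only [pw, map_prod]
  have h2 : ∑ j, ((1 : ℂ) • tpow k (fun l => φ (w j l)) : SymT N k).1 i =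
      φ (crd N k w ⟨ex i, ex_mem i⟩) := by
    rw [crd, map_sum]
    exact Finset.sum_congr rfl fun j _ => h1 j
  refine Eq.trans ?_ h2.symm
  rw [hφ]
  apply sym_eq
  rw [ex_idx]

/-- If some `r` double points are not contained in a singular form of degree `k`, then `Y_r` is
closed only if it is everything. -/
theorem univ_of_nl {N k r : ℕ} (h : ∃ w₀ : Fin r → Fin N → ℂ, nl N k w₀ = 0)
    (hcl : IsClosed[projTop N k] (Y N k r)) : Y N k r = Set.univ := by
  classical
  rw [Set.eq_univ_iff_forall]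
  intro p
  induction p using Projectivization.ind with
  | h T hT =>
    rw [mem_Y]
    by_contra hcon
    have h1 : IsClosed ((fun v : {v : SymT N k // v ≠ 0} => Projectivization.mk ℂ v.1 v.2) ⁻¹'
        (Y N k r)) := closed_pre hcl
    have h3 : (⟨T, hT⟩ : {v : SymT N k // v ≠ 0}) ∈
        ((fun v : {v : SymT N k // v ≠ 0} => Projectivization.mk ℂ v.1 v.2) ⁻¹' (Y N k r))ᶜ := by
      intro h4
      exact hcon ((mem_Y T hT).mp h4)
    have h5 := h1.isOpen_compl.mem_nhds h3
    rw [nhds_subtype_eq_comap, mem_comap] at h5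
    obtain ⟨O, hO, hOs⟩ := h5
    obtain ⟨v, hv⟩ := alg_add (fun α : Ex N k => T.1 (idx α))
    let U : SymT N k := ⟨fun i => v ⟨ex i, ex_mem i⟩, fun σ i => by
      exact congrArg v (Subtype.ext (ex_comp i σ))⟩
    let f : ℂ → SymT N k := fun t => T + t • U
    have hf : Continuous f := by
      apply Continuous.add continuous_const
      exact continuous_id.smul continuous_const
    have hf0 : f 0 = T := by simp [f]
    have hlim : Tendsto (fun m : ℕ => ((((m : ℚ) + 1)⁻¹ : ℚ) : ℂ)) atTop (𝓝 0) := by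
      have h6 : Tendsto (fun m : ℕ => (1 : ℂ) / ((m : ℂ) + 1)) atTop (𝓝 0) :=
        tendsto_one_div_add_atTop_nhds_zero_nat
      refine h6.congr fun m => ?_
      push_cast
      rw [one_div]
    have hft : Tendsto (fun m : ℕ => f ((((m : ℚ) + 1)⁻¹ : ℚ) : ℂ)) atTop (𝓝 T) := by
      have h6 := (hf.tendsto 0).comp hlim
      rw [hf0] at h6
      exact h6
    have h7 : ∀ᶠ m : ℕ in atTop, f ((((m : ℚ) + 1)⁻¹ : ℚ) : ℂ) ∈ O ∧
        f ((((m : ℚ) + 1)⁻¹ : ℚ) : ℂ) ≠ 0 :=
      (hft.eventually hO).and (hft.eventually (isOpen_ne.mem_nhds hT))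
    obtain ⟨m, hm1, hm2⟩ := h7.exists
    have hq : (((m : ℚ) + 1)⁻¹ : ℚ) ≠ 0 := by positivity
    have h8 : RankLE r (f ((((m : ℚ) + 1)⁻¹ : ℚ) : ℂ)) := by
      apply rankLE_of_generic _ _ h
      have h9 := hv _ hq
      convert h9 using 1
      ext α
      have h10 : (⟨ex (idx α), ex_mem (idx α)⟩ : Ex N k) = α := Subtype.ext (ex_idx α)
      change T.1 (idx α) + ((((m : ℚ) + 1)⁻¹ : ℚ) : ℂ) * v ⟨ex (idx α), ex_mem (idx α)⟩ = _
      rw [h10]
    have h11 : (⟨f ((((m : ℚ) + 1)⁻¹ : ℚ) : ℂ), hm2⟩ : {v : SymT N k // v ≠ 0}) ∈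
        ((fun v : {v : SymT N k // v ≠ 0} => Projectivization.mk ℂ v.1 v.2) ⁻¹' (Y N k r))ᶜ :=
      hOs hm1
    exact h11 ((mem_Y _ hm2).mpr h8)

end H80R
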