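import Mathlib
import Pool.Agent.H80R.Dense3

namespace H80R

/-- number of general double points which kill all forms of degree `e + 1` in `n` variables -/
def zz (n e : ℕ) : ℕ := ∑ m ∈ Finset.range n, ((m + 1).multichoose e + m) / (m + 1)

theorem zz_succ (n e : ℕ) : zz (n + 1) e = zz n e + ((n + 1).multichoose e + n) / (n + 1) :=
  Finset.sum_range_succ _ _

theorem zz_zero (e : ℕ) : zz 0 e = 0 := rfl

theorem zz_mono_left {j n : ℕ} (h : j ≤ n) (e : ℕ) : zz j e ≤ zz n e := by
  induction n, h using Nat.le_induction with
  | base => exact le_rfl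
  | succ n _ ih =>
    rw [zz_succ]
    exact ih.trans (Nat.le_add_right _ _)

theorem zz_mono_right (n : ℕ) {e e' : ℕ} (h : e ≤ e') : zz n e ≤ zz n e' := by
  apply Finset.sum_le_sum
  intro m _
  apply Nat.div_le_div_right
  have := mc_mono (N := m + 1) (by omega) h
  omega

theorem ceil_bounds (x j : ℕ) : x ≤ (j + 1) * ((x + j) / (j + 1)) ∧
    (j + 1) * ((x + j) / (j + 1)) ≤ x + j := by
  have h1 := Nat.div_add_mod (x + j) (j + 1)
  have h2 := Nat.mod_lt (x + j) (show 0 < j + 1 by omega)
  constructor <;> omega

theorem mc_pos {n : ℕ} (hn : 1 ≤ n) (e : ℕ) : 1 ≤ n.multichoose e := by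
  rw [Nat.multichoose_eq]
  exact Nat.choose_pos (by omega)

theorem zz_pos {n : ℕ} (hn : 1 ≤ n) (e : ℕ) : 1 ≤ zz n e := by
  have h1 := zz_mono_left hn e
  have h2 : zz 1 e = 1 := by
    simp [zz]
  omega

theorem Sg_run {N d u j : ℕ} (hd : 1 ≤ d) (h : Sg N d u ((j + 1).multichoose d)) (t : ℕ) :
    Sg N d (u + t) (max (j.multichoose d) ((j + 1).multichoose d - (j + 1) * t)) := by
  induction t with
  | zero => exact Sg_mono h (by simp)
  | succ t ih =>
    by_cases hlt : j.multichoose d < max (j.multichoose d)
        ((j + 1).multichoose d - (j + 1) * t)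
    · have h1 := Sg_step hd ih hlt
      refine Sg_mono h1 ?_
      have h2 : (j + 1) * (t + 1) = (j + 1) * t + (j + 1) := by ring
      rw [h2]
      omega
    · have h1 := Sg_add ih 1
      refine Sg_mono h1 ?_
      omega

theorem Sg_threshold {n e : ℕ} : ∀ i j : ℕ, i + j = n →
    Sg n (e + 1) (zz n e - zz j e) (j.multichoose (e + 1)) := by
  intro i
  induction i with
  | zero =>
    intro j hj
    have : j = n := by omega
    subst this
    rw [Nat.sub_self]
    exact Sg_zero _ _
  | succ i ih =>
    intro j hj
    have h1 := ih (j + 1) (by omega)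
    have h2 := Sg_run (by omega) h1 (((j + 1).multichoose e + j) / (j + 1))
    have h3 := ceil_bounds ((j + 1).multichoose e) j
    have h4 : (j + 1).multichoose (e + 1) = j.multichoose (e + 1) + (j + 1).multichoose e :=
      Nat.multichoose_succ_succ _ _
    have h5 := zz_succ j e
    have h6 := zz_mono_left (show j + 1 ≤ n by omega) e
    have h7 : zz n e - zz (j + 1) e + ((j + 1).multichoose e + j) / (j + 1) =
        zz n e - zz j e := by
      generalize ((j + 1).multichoose e + j) / (j + 1) = q at h5
      omega
    rw [h7] at h2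
    refine Sg_mono h2 ?_
    apply max_le le_rfl
    omega

theorem Sg_kill (n e : ℕ) : Sg n (e + 1) (zz n e) 0 := by
  have h := Sg_threshold (n := n) (e := e) n 0 (by omega)
  rw [zz_zero, Nat.sub_zero, Nat.multichoose_zero_succ] at h
  exact h

/-- a convexity property of the numbers `⌈x / (j + 1)⌉` -/
theorem mul_ceil_le {j e : ℕ} (he : 1 ≤ e) :
    j * (((j + 1).multichoose e + j) / (j + 1)) ≤ (j + 1).multichoose e := by
  set x := (j + 1).multichoose e with hx
  obtain ⟨h1, h2⟩ := ceil_bounds x j
  set q := (x + j) / (j + 1) with hq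
  rcases Nat.lt_or_ge e 3 with h3 | h3
  · rcases Nat.lt_or_ge e 2 with h4 | h4
    · have : e = 1 := by omega
      subst this
      rw [Nat.multichoose_one_right] at hx
      have h5 : q < 2 := by
        by_contra hcon
        have : 2 ≤ q := by omega
        nlinarith
      nlinarith
    · have : e = 2 := by omega
      subst this
      have h5 : 2 * x = (j + 1) * (j + 2) := by
        have h6 := Nat.triangle_succ (j + 1)
        have h7 : x = (j + 2).choose 2 := by
          rw [hx, Nat.multichoose_eq]
          congr 1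
        rw [h7, Nat.choose_two_right]
        have h8 : 2 ∣ (j + 2) * (j + 2 - 1) := by
          have h9 : j + 2 - 1 = j + 1 := by omega
          rw [h9, mul_comm]
          exact (Nat.even_mul_succ_self (j + 1)).two_dvd
        rw [Nat.mul_div_cancel' h8]
        have h9 : j + 2 - 1 = j + 1 := by omega
        rw [h9]
        ring
      have h6 : 2 * q ≤ j + 3 := by
        by_contra hcon
        have : j + 4 ≤ 2 * q := by omega
        nlinarith
      nlinarith
  · have h4 : (j + 1).multichoose 3 ≤ x := mc_mono (by omega) h3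
    have h5 : j * j ≤ (j + 1).multichoose 3 := by
      have h6 : ∀ j : ℕ, j * j ≤ (j + 3).choose 3 := by
        intro j
        induction j with
        | zero => simp
        | succ j ih =>
          have h7 : (j + 1 + 3).choose 3 = (j + 3).choose 2 + (j + 3).choose 3 := by
            rw [Nat.choose_succ_succ]
          have h8 : 2 * (j + 3).choose 2 = (j + 3) * (j + 2) := by
            rw [Nat.choose_two_right]
            have h8 : 2 ∣ (j + 3) * (j + 3 - 1) := by
              have h9 : j + 3 - 1 = j + 2 := by omega
              rw [h9, mul_comm]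
              exact (Nat.even_mul_succ_self (j + 2)).two_dvd
            rw [Nat.mul_div_cancel' h8]
            have h9 : j + 3 - 1 = j + 2 := by omega
            rw [h9]
          rw [h7]
          nlinarith
      have h7 : (j + 1).multichoose 3 = (j + 3).choose 3 := by
        rw [Nat.multichoose_eq]
        congr 1
      rw [h7]
      exact h6 j
    have h6 : (j + 1) * (j * q) ≤ (j + 1) * x := by nlinarith
    exact Nat.le_of_mul_le_mul_left h6 (by omega)

theorem mc_le_mul_zz (j e : ℕ) : j.multichoose (e + 1) ≤ j * zz j e := by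
  induction j with
  | zero => simp
  | succ j ih =>
    rw [Nat.multichoose_succ_succ, zz_succ]
    have h1 := (ceil_bounds ((j + 1).multichoose e) j).1
    nlinarith

theorem ratio_step {j e : ℕ} (he : 1 ≤ e) :
    j.multichoose (e + 1) * zz (j + 1) e ≤ (j + 1).multichoose (e + 1) * zz j e := by
  rw [Nat.multichoose_succ_succ, zz_succ]
  have h1 := mc_le_mul_zz j e
  have h2 := mul_ceil_le (j := j) he
  set q := ((j + 1).multichoose e + j) / (j + 1)
  have h3 : j.multichoose (e + 1) * q ≤ (j + 1).multichoose e * zz j e := by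
    calc j.multichoose (e + 1) * q ≤ j * zz j e * q := Nat.mul_le_mul_right _ h1
      _ = (j * q) * zz j e := by ring
      _ ≤ _ := Nat.mul_le_mul_right _ h2
  nlinarith

theorem ratio {j n e : ℕ} (he : 1 ≤ e) (hjn : j ≤ n) :
    zz n e * j.multichoose (e + 1) ≤ zz j e * n.multichoose (e + 1) := by
  induction n, hjn using Nat.le_induction with
  | base => exact le_rfl
  | succ n hn ih =>
    rcases Nat.eq_zero_or_pos n with h0 | h0
    · subst h0
      have : j = 0 := by omega
      subst this
      simp
    · have h1 := ratio_step (j := n) he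
      have h2 := zz_pos h0 e
      have h3 : zz n e * (zz (n + 1) e * j.multichoose (e + 1)) ≤
          zz n e * (zz j e * (n + 1).multichoose (e + 1)) := by
        calc zz n e * (zz (n + 1) e * j.multichoose (e + 1)) =
            zz (n + 1) e * (zz n e * j.multichoose (e + 1)) := by ring
          _ ≤ zz (n + 1) e * (zz j e * n.multichoose (e + 1)) := Nat.mul_le_mul_left _ ih
          _ = zz j e * (n.multichoose (e + 1) * zz (n + 1) e) := by ring
          _ ≤ zz j e * ((n + 1).multichoose (e + 1) * zz n e) := Nat.mul_le_mul_left _ h1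
          _ = _ := by ring
      exact Nat.le_of_mul_le_mul_left h3 (by omega)

theorem exists_between {n e v : ℕ} (hv : v ≤ zz n e) (hn : 1 ≤ n) :
    ∃ j, j < n ∧ zz j e ≤ v ∧ v ≤ zz (j + 1) e := by
  induction n, hn using Nat.le_induction with
  | base => exact ⟨0, by omega, by simp [zz_zero], hv⟩
  | succ n hn ih =>
    by_cases h : v ≤ zz n e
    · obtain ⟨j, hj, h1, h2⟩ := ih h
      exact ⟨j, by omega, h1, h2⟩
    · exact ⟨n, by omega, by omega, hv⟩

/-- **Star-shaped bound** for the dimension of the space of forms of degree `e + 1` singular at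
`u` general points. -/
theorem Sg_star {n e u : ℕ} (hn : 1 ≤ n) (he : 1 ≤ e) (hu : u ≤ zz n e) :
    ∃ w, Sg n (e + 1) u w ∧ zz n e * w ≤ (zz n e - u) * n.multichoose (e + 1) := by
  obtain ⟨v, hv⟩ : ∃ v, zz n e = u + v := ⟨zz n e - u, by omega⟩
  obtain ⟨j, hj, h1, h2⟩ := exists_between (v := v) (by omega : v ≤ zz n e) hn
  obtain ⟨t, ht⟩ : ∃ t, zz (j + 1) e = v + t := ⟨zz (j + 1) e - v, by omega⟩
  have h3 := zz_mono_left (show j + 1 ≤ n by omega) e
  have h4 := Sg_threshold (n := n) (e := e) (n - (j + 1)) (j + 1) (by omega)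
  have h5 := Sg_run (by omega) h4 t
  have h6 : zz n e - zz (j + 1) e + t = u := by omega
  rw [h6] at h5
  refine ⟨_, h5, ?_⟩
  have h7 : zz n e - u = v := by omega
  rw [h7]
  have r1 := ratio (j := j) (n := n) he (by omega)
  have r2 := ratio (j := j + 1) (n := n) he (by omega)
  have hP : (j + 1).multichoose (e + 1) = j.multichoose (e + 1) + (j + 1).multichoose e :=
    Nat.multichoose_succ_succ _ _
  have hq := (ceil_bounds ((j + 1).multichoose e) j).1
  have hz := zz_succ j e
  set q := ((j + 1).multichoose e + j) / (j + 1)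
  set s := n.multichoose (e + 1)
  set z := zz n e
  rcases le_total (j.multichoose (e + 1)) ((j + 1).multichoose (e + 1) - (j + 1) * t) with h | h
  · rw [max_eq_right h]
    rcases le_total s (z * (j + 1)) with h8 | h8
    · -- large slope
      have h9 : z * (j + 1).multichoose (e + 1) ≤ v * s + z * ((j + 1) * t) := by
        calc z * (j + 1).multichoose (e + 1) ≤ zz (j + 1) e * s := r2
          _ = v * s + t * s := by rw [ht]; ring
          _ ≤ v * s + t * (z * (j + 1)) := by
            have := Nat.mul_le_mul_left t h8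
            omega
          _ = _ := by ring
      rw [Nat.mul_sub]
      omega
    · -- small slope
      obtain ⟨p, hp⟩ : ∃ p, v = zz j e + p := ⟨v - zz j e, by omega⟩
      have hpt : q = p + t := by omega
      have h9 : (j + 1).multichoose (e + 1) ≤ j.multichoose (e + 1) + (j + 1) * p +
          (j + 1) * t := by
        rw [hP]
        rw [hpt] at hq
        nlinarith
      have h10 : (j + 1).multichoose (e + 1) - (j + 1) * t ≤
          j.multichoose (e + 1) + (j + 1) * p := by omega
      calc z * ((j + 1).multichoose (e + 1) - (j + 1) * t) ≤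
          z * (j.multichoose (e + 1) + (j + 1) * p) := Nat.mul_le_mul_left _ h10
        _ = z * j.multichoose (e + 1) + p * (z * (j + 1)) := by ring
        _ ≤ zz j e * s + p * s := by
          have := Nat.mul_le_mul_left p h8
          omega
        _ = v * s := by rw [hp]; ring
  · rw [max_eq_left h]
    calc z * j.multichoose (e + 1) ≤ zz j e * s := r1
      _ ≤ v * s := Nat.mul_le_mul_right _ h1

theorem Sg_one {n : ℕ} (hn : 1 ≤ n) {a : ℕ} (ha : 1 ≤ a) : Sg n 1 a 0 := by
  obtain ⟨m, rfl⟩ : ∃ m, n = m + 1 := ⟨n - 1, by omega⟩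
  have h1 := Sg_step (N := m + 1) (d := 1) (a := 0) (w := (m + 1).multichoose 1) (m := m)
    le_rfl (Sg_zero _ _) (by rw [Nat.multichoose_one_right, Nat.multichoose_one_right]; omega)
  rw [Nat.multichoose_one_right, Nat.sub_self] at h1
  exact Sg_le h1 (by omega)

/-- the same bound, normalised by the number of points needed in the largest degree -/
theorem Sg_star' {n K i a : ℕ} (hn : 1 ≤ n) (hi : i ≤ K) (ha : 1 ≤ a) (haz : a ≤ zz n K) :
    ∃ w, Sg n (i + 1) a w ∧ zz n K * w ≤ (zz n K - a) * n.multichoose (i + 1) := by
  rcases Nat.eq_zero_or_pos i with h0 | h0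
  · subst h0
    exact ⟨0, Sg_one hn ha, by simp⟩
  · by_cases h : a ≤ zz n i
    · obtain ⟨w, hw, hw2⟩ := Sg_star hn h0 h
      refine ⟨w, hw, ?_⟩
      have h1 := zz_mono_right n hi
      have h2 := zz_pos hn i
      obtain ⟨p, hp⟩ : ∃ p, zz n i = a + p := ⟨zz n i - a, by omega⟩
      obtain ⟨p', hp'⟩ : ∃ p', zz n K = zz n i + p' := ⟨zz n K - zz n i, by omega⟩
      have h3 : zz n i - a = p := by omega
      have h4 : zz n K - a = p + p' := by omega
      rw [h3] at hw2
      rw [h4]
      have h5 : zz n i * (zz n K * w) ≤ zz n i * ((p + p') * n.multichoose (i + 1)) := by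
        calc zz n i * (zz n K * w) = zz n K * (zz n i * w) := by ring
          _ ≤ zz n K * (p * n.multichoose (i + 1)) := Nat.mul_le_mul_left _ hw2
          _ = (zz n K * p) * n.multichoose (i + 1) := by ring
          _ ≤ (zz n i * (p + p')) * n.multichoose (i + 1) := by
            apply Nat.mul_le_mul_right
            rw [hp', hp]
            nlinarith
          _ = _ := by ring
      exact Nat.le_of_mul_le_mul_left h5 (by omega)
    · exact ⟨0, Sg_le (Sg_kill n i) (by omega), by simp⟩

theorem sum_mc_succ (n K : ℕ) :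
    ∑ i ∈ Finset.range (K + 1), n.multichoose (i + 1) + 1 = (n + 1).multichoose (K + 1) := by
  induction K with
  | zero =>
    simp [Nat.multichoose_one_right]
  | succ K ih =>
    rw [Finset.sum_range_succ, Nat.multichoose_succ_succ n (K + 1)]
    omega

end H80R
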