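import Mathlib
import Pool.Agent.H80R.Kill

namespace H80R

open Topology

theorem nl_ge {N d r : ℕ} (w : Fin r → Fin N → ℂ) : N.multichoose d ≤ nl N d w + N * r := by
  have h1 := LinearMap.finrank_range_add_finrank_ker (grL N d w)
  rw [finrank_Fm] at h1
  have h2 : Module.finrank ℂ (LinearMap.range (grL N d w)) ≤ N * r := by
    have := Submodule.finrank_le (LinearMap.range (grL N d w))
    refine this.trans ?_
    rw [Module.finrank_pi_fintype]
    simp [mul_comm]
  have h3 : nl N d w = Module.finrank ℂ (LinearMap.ker (grL N d w)) := rfl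
  omega

/-- first arithmetic condition on `(n, k)`, where `k = K + 2` -/
def C1 (n K : ℕ) : Prop :=
  (n + 1) * (zz n (K + 1) + zz n K) < (n + 1).multichoose (K + 2)

/-- second arithmetic condition on `(n, k)`, where `k = K + 2` -/
def C2 (n K : ℕ) : Prop :=
  (3 * n + 2) * (zz n K * zz n (K + 1)) <
    ((n + 1).multichoose (K + 1) - 1) * zz n (K + 1) + 2 * (n.multichoose (K + 2) * zz n K)

/-- purely arithmetic core -/
theorem arith {n za zk F s a u : ℕ} (ha : 1 ≤ a) (haza : a ≤ za) (hzk : za ≤ zk) (huzk : u ≤ zk)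
    (hs : s ≤ n * zk) (h1 : (n + 1) * (zk + za) ≤ F + s)
    (h2 : (3 * n + 2) * (za * zk) < F * zk + 2 * (s * za))
    (hau : a = u ∨ u = a + 1 ∨ a = za) :
    (n + 1) * (a + u) * (za * zk) < za * zk + zk * a * F + za * u * s := by
  have hza : 1 ≤ za := ha.trans haza
  have hX : 2 * (n + 1) * (za * zk) ≤ zk * F + za * s := by
    obtain ⟨p, rfl⟩ : ∃ p, zk = za + p := ⟨zk - za, by omega⟩
    have e1 : (za + p) * ((n + 1) * (za + p + za)) ≤ (za + p) * (F + s) :=
      Nat.mul_le_mul_left _ h1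
    have e2 : p * s ≤ p * (n * (za + p)) := Nat.mul_le_mul_left _ hs
    nlinarith
  rcases hau with h | h | h
  · subst h
    have e1 : a * (2 * (n + 1) * (za * zk)) ≤ a * (zk * F + za * s) := Nat.mul_le_mul_left _ hX
    have e2 : 0 < za * zk := Nat.mul_pos (by omega) (by omega)
    nlinarith
  · subst h
    obtain ⟨X, hX'⟩ : ∃ X, zk * F + za * s = 2 * (n + 1) * (za * zk) + X :=
      ⟨_, (Nat.add_sub_cancel' hX).symm⟩
    have e1 : X ≤ a * X := Nat.le_mul_of_pos_left X (by omega)
    have e2 : a * (zk * F + za * s) = a * (2 * (n + 1) * (za * zk)) + a * X := by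
      rw [hX']
      ring
    have e3 : n * (za * zk) < X + za * s := by nlinarith
    nlinarith
  · subst h
    obtain ⟨q, rfl⟩ : ∃ q, zk = u + q := ⟨zk - u, by omega⟩
    -- `(n+1)(a+u) zk < zk + zk F + u s`
    have e1 : (u + q) * ((n + 1) * (u + q + a)) ≤ (u + q) * (F + s) := Nat.mul_le_mul_left _ h1
    have e2 : q * s ≤ q * (n * (u + q)) := Nat.mul_le_mul_left _ hs
    have e3 : (n + 1) * (a + u) * (u + q) < (u + q) + (u + q) * F + u * s := by
      nlinarith
    have e4 : a * ((n + 1) * (a + u) * (u + q)) < a * ((u + q) + (u + q) * F + u * s) :=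
      Nat.mul_lt_mul_of_pos_left e3 (by omega)
    nlinarith

/-- For every `r ≥ 2` there are parameters for which the estimate applies. -/
theorem exists_param {n K r : ℕ} (hn : 1 ≤ n) (hK : 1 ≤ K) (hr : 2 ≤ r) (hC1 : C1 n K)
    (hC2 : C2 n K) :
    ∃ (a b St : ℕ) (S : ℕ → ℕ), 1 ≤ a ∧ 2 * a + b ≤ r ∧ (∀ i < K + 1, Sg n (i + 1) a (S i)) ∧
      Sg n (K + 2) (a + b) St ∧
      (St + ∑ i ∈ Finset.range (K + 1), S i = 0 ∨
        St + ∑ i ∈ Finset.range (K + 1), S i + (n + 1) * r < (n + 1).multichoose (K + 2)) := by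
  have hzz := zz_mono_right n (show K ≤ K + 1 by omega)
  have hza := zz_pos hn K
  by_cases hbig : zz n (K + 1) + zz n K ≤ r
  · refine ⟨zz n K, r - 2 * zz n K, 0, fun _ => 0, hza, by omega, ?_, ?_, Or.inl (by simp)⟩
    · intro i hi
      exact Sg_le (Sg_kill n i) (zz_mono_right n (by omega))
    · exact Sg_le (Sg_kill n (K + 1)) (by omega)
  · -- choose `a`
    let a := min (r / 2) (zz n K)
    have ha1 : 1 ≤ a := by omega
    have haz : a ≤ zz n K := min_le_right _ _
    have har : 2 * a ≤ r := by omega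
    have hu : r - a ≤ zz n (K + 1) := by omega
    have hS : ∀ i, ∃ w, i ≤ K → (Sg n (i + 1) a w ∧
        zz n K * w ≤ (zz n K - a) * n.multichoose (i + 1)) := by
      intro i
      by_cases hi : i ≤ K
      · obtain ⟨w, hw⟩ := Sg_star' (i := i) hn hi ha1 haz
        exact ⟨w, fun _ => hw⟩
      · exact ⟨0, fun h => absurd h hi⟩
    choose S hS using hS
    obtain ⟨St, hSt, hSt2⟩ := Sg_star (n := n) (e := K + 1) (u := r - a) hn (by omega) hu
    refine ⟨a, r - 2 * a, St, S, ha1, by omega, fun i hi => (hS i (by omega)).1, ?_, Or.inr ?_⟩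
    · have h1 : a + (r - 2 * a) = r - a := by omega
      rw [h1]
      exact hSt
    · -- the arithmetic
      have hsum : zz n K * ∑ i ∈ Finset.range (K + 1), S i ≤
          (zz n K - a) * ((n + 1).multichoose (K + 1) - 1) := by
        have h1 := sum_mc_succ n K
        have h2 : (n + 1).multichoose (K + 1) - 1 =
            ∑ i ∈ Finset.range (K + 1), n.multichoose (i + 1) := by omega
        rw [h2, Finset.mul_sum, Finset.mul_sum]
        exact Finset.sum_le_sum fun i hi => (hS i (by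
          have := Finset.mem_range.mp hi
          omega)).2
      have hP : (n + 1).multichoose (K + 2) = n.multichoose (K + 2) +
          (n + 1).multichoose (K + 1) := Nat.multichoose_succ_succ _ _
      have hF1 := mc_pos (show 1 ≤ n + 1 by omega) (K + 1)
      have hs := mc_le_mul_zz n (K + 1)
      unfold C1 at hC1
      unfold C2 at hC2
      obtain ⟨F, hF⟩ : ∃ F, (n + 1).multichoose (K + 1) = F + 1 :=
        ⟨(n + 1).multichoose (K + 1) - 1, by omega⟩
      rw [hF, Nat.add_sub_cancel] at hsum hC2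
      rw [hP, hF] at hC1 ⊢
      have harith := arith (n := n) (za := zz n K) (zk := zz n (K + 1)) (F := F)
        (s := n.multichoose (K + 2)) (a := a) (u := r - a) ha1 haz hzz hu hs (by omega) hC2
        (by omega)
      have hau : a + (r - a) = r := by omega
      rw [hau] at harith
      set za := zz n K
      set zk := zz n (K + 1)
      set s := n.multichoose (K + 2)
      set T := ∑ i ∈ Finset.range (K + 1), S i
      obtain ⟨p, hp⟩ : ∃ p, za = a + p := ⟨za - a, by omega⟩
      obtain ⟨q, hq⟩ : ∃ q, zk = (r - a) + q := ⟨zk - (r - a), by omega⟩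
      have e1 : za - a = p := by omega
      have e2 : zk - (r - a) = q := by omega
      rw [e1] at hsum
      rw [e2] at hSt2
      have e3 : zk * (za * T) ≤ zk * (p * F) := Nat.mul_le_mul_left _ hsum
      have e4 : za * (zk * St) ≤ za * (q * s) := Nat.mul_le_mul_left _ hSt2
      have e5 : zk * (za * F) = zk * (a * F) + zk * (p * F) := by rw [hp]; ring
      have e6 : za * (zk * s) = za * ((r - a) * s) + za * (q * s) := by rw [hq]; ring
      have e7 : (za * zk) * (St + T + (n + 1) * r) < (za * zk) * (s + (F + 1)) := by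
        nlinarith
      exact lt_of_mul_lt_mul_left e7 (Nat.zero_le _)

/-- **Main theorem, first form.** -/
theorem exists_nl_zero {n N K r : ℕ} (hn : 1 ≤ n) (hnN : n ≤ N) (hK : 1 ≤ K) (hr : 2 ≤ r)
    (hC1 : C1 n K) (hC2 : C2 n K)
    (hcl : IsClosed[projTop (N + 1) (K + 2)] (Y (N + 1) (K + 2) r)) :
    ∃ w : Fin r → Fin (n + 1) → ℂ, nl (n + 1) (K + 2) w = 0 := by
  obtain ⟨a, b, St, S, ha, hab, hS, hSt, hor⟩ := exists_param hn hK hr hC1 hC2
  obtain ⟨w, hw⟩ := closed_hyper (k := K + 1) hn hnN ha hab hcl S hS St hSt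
  refine ⟨w, ?_⟩
  have hw' : nl (n + 1) (K + 2) w ≤ St + ∑ i ∈ Finset.range (K + 1), S i := hw
  rcases hor with h | h
  · omega
  · exfalso
    have h1 := nl_ge (d := K + 2) w
    omega

/-- **Main theorem, closed sets.** -/
theorem univ_of_closed {n K r : ℕ} (hn : 1 ≤ n) (hK : 1 ≤ K) (hr : 2 ≤ r)
    (hC1 : C1 n K) (hC2 : C2 n K)
    (hcl : IsClosed[projTop (n + 1) (K + 2)] (Y (n + 1) (K + 2) r)) :
    Y (n + 1) (K + 2) r = Set.univ :=
  univ_of_nl (exists_nl_zero hn le_rfl hK hr hC1 hC2 hcl) hcl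

/-- **Main theorem, larger spaces.** -/
theorem not_closed_pad {n N K r : ℕ} (hn : 1 ≤ n) (hnN : n ≤ N) (hK : 1 ≤ K) (hr : 2 ≤ r)
    (hC1 : C1 n K) (hC2 : C2 n K) (hrk : (n + 1) * r < (n + 1).multichoose (K + 2)) :
    ¬ IsClosed[projTop (N + 1) (K + 2)] (Y (N + 1) (K + 2) r) := by
  intro hcl
  obtain ⟨w, hw⟩ := exists_nl_zero hn hnN hK hr hC1 hC2 hcl
  have h1 := nl_ge (d := K + 2) w
  omega

end H80R
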