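import Mathlib
import Pool.Agent.H80R.MainN

namespace H80R

/-- `e · zz n e ≤ e (n - 1) + C(n + e, n) - 1` -/
theorem zz_bound {n : ℕ} (hn : 1 ≤ n) (e : ℕ) :
    e * zz n e + 1 ≤ e * (n - 1) + (n + e).choose n := by
  induction n, hn using Nat.le_induction with
  | base =>
    have h : zz 1 e = 1 := by simp [zz]
    rw [h, Nat.choose_one_right]
    omega
  | succ n hn ih =>
    rw [zz_succ]
    obtain ⟨-, h2⟩ := ceil_bounds ((n + 1).multichoose e) n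
    set q := ((n + 1).multichoose e + n) / (n + 1) with hq
    have h3 : (n + 1).multichoose e = (n + e).choose n := by
      rw [Nat.multichoose_eq]
      have h4 : n + 1 + e - 1 = n + e := by omega
      rw [h4]
      exact (Nat.choose_symm_add).symm
    have h4 : (n + e).choose (n + 1) * (n + 1) = (n + e).choose n * e := by
      have h5 := Nat.choose_succ_right_eq (n + e) n
      have h6 : n + e - n = e := by omega
      rw [h6] at h5
      exact h5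
    have h5 : (n + 1 + e).choose (n + 1) = (n + e).choose n + (n + e).choose (n + 1) := by
      have h6 : n + 1 + e = (n + e) + 1 := by ring
      rw [h6, Nat.choose_succ_succ]
    have h6 : e * q < (n + e).choose (n + 1) + e ∨ e = 0 := by
      rcases Nat.eq_zero_or_pos e with h0 | h0
      · exact Or.inr h0
      · left
        rw [h3] at h2
        have h7 : (n + 1) * (e * q) < (n + 1) * ((n + e).choose (n + 1) + e) := by
          nlinarith
        exact lt_of_mul_lt_mul_left h7 (Nat.zero_le _)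
    rcases h6 with h6 | h6
    · rw [h5]
      have h7 : n + 1 - 1 = n := by omega
      rw [h7]
      obtain ⟨m, rfl⟩ : ∃ m, n = m + 1 := ⟨n - 1, by omega⟩
      rw [Nat.add_sub_cancel] at ih
      nlinarith
    · subst h6
      simp

theorem polyC1 {n K : ℕ} (hn : 2 ≤ n) (hK : n ≤ K) (hK6 : 6 ≤ K) :
    21 * (n + 1) * (K + 2) * (K * (n + K + 1) + (K + 1) ^ 2) <
      20 * K * (K + 1) * (n + K + 2) * (n + K + 1) := by
  rcases Nat.lt_or_ge n 6 with h | h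
  · obtain ⟨t, rfl⟩ : ∃ t, K = t + 6 := ⟨K - 6, by omega⟩
    interval_cases n
    · have key : 20 * (t + 6) * ((t + 6) + 1) * (2 + (t + 6) + 2) * (2 + (t + 6) + 1) =
          21 * (2 + 1) * ((t + 6) + 2) * ((t + 6) * (2 + (t + 6) + 1) + ((t + 6) + 1) ^ 2) +
          (20 * t ^ 4 + 514 * t ^ 3 + 4745 * t ^ 2 + 18255 * t ^ 1 + 23688) := by ring
      rw [key]
      omega
    · have key : 20 * (t + 6) * ((t + 6) + 1) * (3 + (t + 6) + 2) * (3 + (t + 6) + 1) =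
          21 * (3 + 1) * ((t + 6) + 2) * ((t + 6) * (3 + (t + 6) + 1) + ((t + 6) + 1) ^ 2) +
          (20 * t ^ 4 + 512 * t ^ 3 + 4636 * t ^ 2 + 16924 * t ^ 1 + 19152) := by ring
      rw [key]
      omega
    · have key : 20 * (t + 6) * ((t + 6) + 1) * (4 + (t + 6) + 2) * (4 + (t + 6) + 1) =
          21 * (4 + 1) * ((t + 6) + 2) * ((t + 6) * (4 + (t + 6) + 1) + ((t + 6) + 1) ^ 2) +
          (20 * t ^ 4 + 510 * t ^ 3 + 4525 * t ^ 2 + 15525 * t ^ 1 + 14280) := by ring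
      rw [key]
      omega
    · have key : 20 * (t + 6) * ((t + 6) + 1) * (5 + (t + 6) + 2) * (5 + (t + 6) + 1) =
          21 * (5 + 1) * ((t + 6) + 2) * ((t + 6) * (5 + (t + 6) + 1) + ((t + 6) + 1) ^ 2) +
          (20 * t ^ 4 + 508 * t ^ 3 + 4412 * t ^ 2 + 14058 * t ^ 1 + 9072) := by ring
      rw [key]
      omega
  · obtain ⟨s, rfl⟩ : ∃ s, n = s + 6 := ⟨n - 6, by omega⟩
    obtain ⟨t, rfl⟩ : ∃ t, K = s + 6 + t := ⟨K - (s + 6), by omega⟩
    have key : 20 * (s + 6 + t) * ((s + 6 + t) + 1) * ((s + 6) + (s + 6 + t) + 2) * ((s + 6) + (s + 6 + t) + 1) =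
        21 * ((s + 6) + 1) * ((s + 6 + t) + 2) * ((s + 6 + t) * ((s + 6) + (s + 6 + t) + 1) + ((s + 6 + t) + 1) ^ 2) +
        (17 * s ^ 4 + 72 * s ^ 3 * t ^ 1 + 356 * s ^ 3 + 113 * s ^ 2 * t ^ 2 + 1252 * s ^ 2 * t ^ 1 + 2560 * s ^ 2 + 78 * s ^ 1 * t ^ 3 + 1402 * s ^ 1 * t ^ 2 + 7025 * s ^ 1 * t ^ 1 + 6811 * s ^ 1 + 20 * t ^ 4 + 506 * t ^ 3 + 4297 * t ^ 2 + 12523 * t ^ 1 + 3528) := by ring
    rw [key]
    omega

theorem polyC2 {n K : ℕ} (hn : 2 ≤ n) (hK : n ≤ K) (hK6 : 6 ≤ K) :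
    (21 * (3 * n + 2) + 1) * (K + 1) * (K + 2) <
      20 * (K * (n + K + 1) * (K + 2) + 2 * n * (K + 1) ^ 2) := by
  rcases Nat.lt_or_ge n 6 with h | h
  · obtain ⟨t, rfl⟩ : ∃ t, K = t + 6 := ⟨K - 6, by omega⟩
    interval_cases n
    · have key : 20 * ((t + 6) * (2 + (t + 6) + 1) * ((t + 6) + 2) + 2 * 2 * ((t + 6) + 1) ^ 2) =
          (21 * (3 * 2 + 2) + 1) * ((t + 6) + 1) * ((t + 6) + 2) +
          (20 * t ^ 3 + 371 * t ^ 2 + 2065 * t ^ 1 + 3096) := by ring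
      rw [key]
      omega
    · have key : 20 * ((t + 6) * (3 + (t + 6) + 1) * ((t + 6) + 2) + 2 * 3 * ((t + 6) + 1) ^ 2) =
          (21 * (3 * 3 + 2) + 1) * ((t + 6) + 1) * ((t + 6) + 2) +
          (20 * t ^ 3 + 368 * t ^ 2 + 1960 * t ^ 1 + 2488) := by ring
      rw [key]
      omega
    · have key : 20 * ((t + 6) * (4 + (t + 6) + 1) * ((t + 6) + 2) + 2 * 4 * ((t + 6) + 1) ^ 2) =
          (21 * (3 * 4 + 2) + 1) * ((t + 6) + 1) * ((t + 6) + 2) +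
          (20 * t ^ 3 + 365 * t ^ 2 + 1855 * t ^ 1 + 1880) := by ring
      rw [key]
      omega
    · have key : 20 * ((t + 6) * (5 + (t + 6) + 1) * ((t + 6) + 2) + 2 * 5 * ((t + 6) + 1) ^ 2) =
          (21 * (3 * 5 + 2) + 1) * ((t + 6) + 1) * ((t + 6) + 2) +
          (20 * t ^ 3 + 362 * t ^ 2 + 1750 * t ^ 1 + 1272) := by ring
      rw [key]
      omega
  · obtain ⟨s, rfl⟩ : ∃ s, n = s + 6 := ⟨n - 6, by omega⟩
    obtain ⟨t, rfl⟩ : ∃ t, K = s + 6 + t := ⟨K - (s + 6), by omega⟩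
    have key : 20 * ((s + 6 + t) * ((s + 6) + (s + 6 + t) + 1) * ((s + 6 + t) + 2) + 2 * (s + 6) * ((s + 6 + t) + 1) ^ 2) =
        (21 * (3 * (s + 6) + 2) + 1) * ((s + 6 + t) + 1) * ((s + 6 + t) + 2) +
        (17 * s ^ 3 + 54 * s ^ 2 * t ^ 1 + 254 * s ^ 2 + 57 * s ^ 1 * t ^ 2 + 613 * s ^ 1 * t ^ 1 + 1037 * s ^ 1 + 20 * t ^ 3 + 359 * t ^ 2 + 1645 * t ^ 1 + 664) := by ring
    rw [key]
    omega

end H80R
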