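import Mathlib
import Pool.Agent.H80R.Arith

namespace H80R

theorem mc_eq_choose (n e : ℕ) : (n + 1).multichoose e = (n + e).choose n := by
  rw [Nat.multichoose_eq]
  have h4 : n + 1 + e - 1 = n + e := by omega
  rw [h4]
  exact (Nat.choose_symm_add).symm

theorem choose_rel (n K : ℕ) : (n + (K + 1)).choose n * (K + 1) = (n + K + 1) * (n + K).choose n := by
  have h := Nat.choose_mul_succ_eq (n + K) n
  have h2 : n + K + 1 - n = K + 1 := by omega
  rw [h2] at h
  have h3 : n + (K + 1) = n + K + 1 := by ring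
  rw [h3, ← h]
  ring

theorem mc_rel {n : ℕ} (hn : 1 ≤ n) (K : ℕ) :
    (K + 1) * n.multichoose (K + 1) = n * (n + K).choose n := by
  obtain ⟨m, rfl⟩ : ∃ m, n = m + 1 := ⟨n - 1, by omega⟩
  rw [mc_eq_choose]
  have h1 := Nat.choose_succ_right_eq (m + (K + 1)) m
  have h2 : m + (K + 1) - m = K + 1 := by omega
  rw [h2] at h1
  have h3 : m + 1 + K = m + (K + 1) := by ring
  rw [h3]
  nlinarith

theorem C12_of_big {n K : ℕ} (hn : 2 ≤ n) (hK : n ≤ K) (hK6 : 6 ≤ K)
    (hB : 20 * (K * (n - 1)) ≤ (n + K).choose n)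
    (hP : 20 * ((K + 1) * (n - 1)) ≤ (n + (K + 1)).choose n) : C1 n K ∧ C2 n K := by
  have hP1 := choose_rel n K
  have hM1 := choose_rel n (K + 1)
  have hs1 := mc_rel (show 1 ≤ n by omega) (K + 1)
  have hza := zz_bound (show 1 ≤ n by omega) K
  have hzk := zz_bound (show 1 ≤ n by omega) (K + 1)
  have hzapos := zz_pos (show 1 ≤ n by omega) K
  have hzkpos := zz_pos (show 1 ≤ n by omega) (K + 1)
  have hBpos : 0 < (n + K).choose n := Nat.choose_pos (by omega)
  have hPpos : 0 < (n + (K + 1)).choose n := Nat.choose_pos (by omega)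
  have hc1 := polyC1 hn hK hK6
  have hc2 := polyC2 hn hK hK6
  have hK20 : 20 * K ≤ (n + K).choose n := by
    refine le_trans ?_ hB
    have : 1 ≤ n - 1 := by omega
    nlinarith
  unfold C1 C2
  rw [mc_eq_choose n (K + 2), mc_eq_choose n (K + 1)]
  have hadd : n + (K + 1 + 1) = n + (K + 2) := by ring
  rw [hadd] at hM1
  set B := (n + K).choose n
  set P := (n + (K + 1)).choose n
  set M := (n + (K + 2)).choose n
  set s := n.multichoose (K + 2)
  set za := zz n K
  set zk := zz n (K + 1)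
  have hA : 20 * K * za ≤ 21 * B := by nlinarith
  have hZ : 20 * (K + 1) * zk ≤ 21 * P := by nlinarith
  constructor
  · have h1 : (20 * K * (K + 1) ^ 2 * (K + 2)) * ((n + 1) * (zk + za)) <
        (20 * K * (K + 1) ^ 2 * (K + 2)) * M := by
      calc (20 * K * (K + 1) ^ 2 * (K + 2)) * ((n + 1) * (zk + za)) =
          (n + 1) * (K + 2) * (K + 1) * (K * (20 * (K + 1) * zk) + (K + 1) * (20 * K * za)) := by
            ring
        _ ≤ (n + 1) * (K + 2) * (K + 1) * (K * (21 * P) + (K + 1) * (21 * B)) := by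
            apply Nat.mul_le_mul_left
            exact Nat.add_le_add (Nat.mul_le_mul_left _ hZ) (Nat.mul_le_mul_left _ hA)
        _ = 21 * (n + 1) * (K + 2) * (K * (P * (K + 1)) + (K + 1) ^ 2 * B) := by ring
        _ = (21 * (n + 1) * (K + 2) * (K * (n + K + 1) + (K + 1) ^ 2)) * B := by
            rw [hP1]
            ring
        _ < (20 * K * (K + 1) * (n + K + 2) * (n + K + 1)) * B :=
            Nat.mul_lt_mul_of_pos_right hc1 hBpos
        _ = 20 * K * (K + 1) * (n + K + 2) * ((n + K + 1) * B) := by ring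
        _ = 20 * K * (K + 1) * (n + K + 2) * (P * (K + 1)) := by rw [hP1]
        _ = 20 * K * (K + 1) ^ 2 * ((n + (K + 1) + 1) * P) := by ring
        _ = 20 * K * (K + 1) ^ 2 * (M * (K + 1 + 1)) := by rw [hM1]
        _ = _ := by ring
    exact lt_of_mul_lt_mul_left h1 (Nat.zero_le _)
  · by_contra hcon
    rw [not_lt] at hcon
    obtain ⟨P', hP'⟩ : ∃ P', P = P' + 1 := ⟨P - 1, by omega⟩
    have hP'' : P - 1 = P' := by omega
    rw [hP''] at hcon
    have h1 : (za * zk) * (20 * K * P' * P + 40 * (K + 1) * s * B) ≤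
        (za * zk) * (21 * B * P * (3 * n + 2)) := by
      calc (za * zk) * (20 * K * P' * P + 40 * (K + 1) * s * B) =
          (P' * zk * P) * (20 * K * za) + (2 * s * za * B) * (20 * (K + 1) * zk) := by ring
        _ ≤ (P' * zk * P) * (21 * B) + (2 * s * za * B) * (21 * P) :=
            Nat.add_le_add (Nat.mul_le_mul_left _ hA) (Nat.mul_le_mul_left _ hZ)
        _ = (21 * B * P) * (P' * zk + 2 * (s * za)) := by ring
        _ ≤ (21 * B * P) * ((3 * n + 2) * (za * zk)) := Nat.mul_le_mul_left _ hcon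
        _ = _ := by ring
    have h2 : 20 * K * P' * P + 40 * (K + 1) * s * B ≤ 21 * B * P * (3 * n + 2) :=
      Nat.le_of_mul_le_mul_left h1 (Nat.mul_pos (by omega) (by omega))
    -- multiply by `(K+1)(K+2)` and divide by `P`
    have h3 : P * (20 * K * (K + 2) * (P' * (K + 1)) + 40 * (K + 1) ^ 2 * n * B) ≤
        P * (21 * (3 * n + 2) * (K + 1) * (K + 2) * B) := by
      calc P * (20 * K * (K + 2) * (P' * (K + 1)) + 40 * (K + 1) ^ 2 * n * B) =
          (K + 1) * (K + 2) * (20 * K * P' * P) + 40 * (K + 1) ^ 2 * B * (n * P) := by ring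
        _ = (K + 1) * (K + 2) * (20 * K * P' * P) + 40 * (K + 1) ^ 2 * B * ((K + 1 + 1) * s) := by
            rw [hs1]
        _ = (K + 1) * (K + 2) * (20 * K * P' * P + 40 * (K + 1) * s * B) := by ring
        _ ≤ (K + 1) * (K + 2) * (21 * B * P * (3 * n + 2)) := Nat.mul_le_mul_left _ h2
        _ = _ := by ring
    have h4 := Nat.le_of_mul_le_mul_left h3 hPpos
    have h5 : P' * (K + 1) + (K + 1) = (n + K + 1) * B := by
      rw [← hP1, hP']
      ring
    have h6 : (20 * (K * (n + K + 1) * (K + 2) + 2 * n * (K + 1) ^ 2)) * B ≤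
        ((21 * (3 * n + 2) + 1) * (K + 1) * (K + 2)) * B := by
      calc (20 * (K * (n + K + 1) * (K + 2) + 2 * n * (K + 1) ^ 2)) * B =
          20 * K * (K + 2) * ((n + K + 1) * B) + 40 * (K + 1) ^ 2 * n * B := by ring
        _ = 20 * K * (K + 2) * (P' * (K + 1) + (K + 1)) + 40 * (K + 1) ^ 2 * n * B := by rw [h5]
        _ = (20 * K * (K + 2) * (P' * (K + 1)) + 40 * (K + 1) ^ 2 * n * B) +
            (K + 1) * (K + 2) * (20 * K) := by ring
        _ ≤ 21 * (3 * n + 2) * (K + 1) * (K + 2) * B + (K + 1) * (K + 2) * B :=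
            Nat.add_le_add h4 (Nat.mul_le_mul_left _ hK20)
        _ = _ := by ring
    have h7 := Nat.le_of_mul_le_mul_right h6 hBpos
    omega

/-- growth in `K` -/
theorem big_step {n K : ℕ} (hn : 2 ≤ n) (hK : 1 ≤ K)
    (h : 20 * (K * (n - 1)) ≤ (n + K).choose n) :
    20 * ((K + 1) * (n - 1)) ≤ (n + (K + 1)).choose n := by
  have h1 := choose_rel n K
  obtain ⟨m, rfl⟩ : ∃ m, n = m + 2 := ⟨n - 2, by omega⟩
  have h2 : m + 2 - 1 = m + 1 := by omega
  rw [h2] at h ⊢
  set B := (m + 2 + K).choose (m + 2)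
  set P := (m + 2 + (K + 1)).choose (m + 2)
  have h3 : (K + 1) * (20 * ((K + 1) * (m + 1))) ≤ (K + 1) * P := by
    have h4 : (m + 2 + K + 1) * (20 * (K * (m + 1))) ≤ (m + 2 + K + 1) * B :=
      Nat.mul_le_mul_left _ h
    nlinarith
  exact Nat.le_of_mul_le_mul_left h3 (by omega)

theorem big_of_base {n K₀ K : ℕ} (hn : 2 ≤ n) (hK₀ : 1 ≤ K₀)
    (h : 20 * (K₀ * (n - 1)) ≤ (n + K₀).choose n) (hK : K₀ ≤ K) :
    20 * (K * (n - 1)) ≤ (n + K).choose n := by
  induction K, hK using Nat.le_induction with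
  | base => exact h
  | succ K hK ih => exact big_step hn (by omega) ih

theorem big_diag {n : ℕ} (hn : 6 ≤ n) : 20 * (n * (n - 1)) ≤ (n + n).choose n := by
  have h : ∀ n, 6 ≤ n → 20 * (n * n) ≤ (n + n).choose n + 20 * n := by
    intro n hn
    induction n, hn using Nat.le_induction with
    | base => decide
    | succ n hn ih =>
      have h1 := Nat.succ_mul_centralBinom_succ n
      rw [Nat.centralBinom_eq_two_mul_choose, Nat.centralBinom_eq_two_mul_choose] at h1
      have h2 : n + 1 + (n + 1) = 2 * (n + 1) := by ring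
      have h3 : n + n = 2 * n := by ring
      rw [h2]
      rw [h3] at ih
      set A := (2 * (n + 1)).choose (n + 1)
      set D := (2 * n).choose n
      have h4 : (n + 1) * (3 * D) ≤ (n + 1) * A := by
        rw [h1]
        nlinarith
      have h5 : 3 * D ≤ A := Nat.le_of_mul_le_mul_left h4 (by omega)
      nlinarith
  have h1 := h n hn
  obtain ⟨m, rfl⟩ : ∃ m, n = m + 1 := ⟨n - 1, by omega⟩
  rw [Nat.add_sub_cancel]
  nlinarith

/-- all `K ≥ n ≥ 6` -/
theorem C12_six {n K : ℕ} (hn : 6 ≤ n) (hK : n ≤ K) : C1 n K ∧ C2 n K := by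
  have h1 := big_of_base (show 2 ≤ n by omega) (show 1 ≤ n by omega) (big_diag hn) hK
  exact C12_of_big (by omega) hK (by omega) h1 (big_step (by omega) (by omega) h1)

end H80R
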