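import Mathlib
import Pool.Agent.H80R.PartA

namespace H80R

open MvPolynomial Topology Filter

/-- Algebraically independent points impose independent conditions on forms. -/
theorem eval_surj {m d b : ℕ} (hb : b ≤ m.multichoose d) (R : Fin b → Fin m → ℂ)
    (hR : AlgebraicIndependent ℚ (fun p : Fin b × Fin m => R p.1 p.2)) (c : Fin b → ℂ) :
    ∃ A ∈ Fm m d, ∀ j, eval (R j) A = c j := by
  have h1 : TS m d (fun s : Fin 0 => s.elim0) R := by
    apply TS_of_GGS (GGS_zero m d) (by simpa using hb)
    have h2 := hR.comp (Sum.elim (fun p : Fin 0 × Fin m => p.1.elim0) id) (by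
      rintro (⟨p, p'⟩ | p) (⟨q, q'⟩ | q) h
      · exact p.elim0
      · exact p.elim0
      · exact q.elim0
      · simpa using h)
    convert h2 using 1
    ext (⟨p, p'⟩ | p)
    · exact p.elim0
    · rfl
  obtain ⟨A, hA, -, hA2⟩ := h1 (fun s => s.elim0) c
  exact ⟨A, hA, hA2⟩

/-- The first `b` of `N'` algebraically independent points. -/
theorem eval_surj_prefix {m d b N' : ℕ} (hb : b ≤ m.multichoose d) (hbN : b ≤ N')
    (R : Fin N' → Fin m → ℂ)
    (hR : AlgebraicIndependent ℚ (fun p : Fin N' × Fin m => R p.1 p.2)) (c : Fin b → ℂ) :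
    ∃ A ∈ Fm m d, ∀ j, eval (R (Fin.castLE hbN j)) A = c j := by
  apply eval_surj hb (fun j => R (Fin.castLE hbN j))
  have h1 := hR.comp (fun p : Fin b × Fin m => (Fin.castLE hbN p.1, p.2)) (by
    rintro ⟨p, p'⟩ ⟨q, q'⟩ h
    simp only [Prod.mk.injEq, Fin.castLE_inj] at h
    exact Prod.ext h.1 h.2)
  exact h1

/-- the size of the layer of degree `e` -/
def rho (m K N' e : ℕ) : ℕ := min N' (m.multichoose (min e (K - e)))

/-- Layers of forms dual to the pairing `(f, g) ↦ ∑ f(ℓ) g(ℓ)`. -/
theorem exists_layer {m K N' e : ℕ} (hm : 1 ≤ m) (he : e ≤ K)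
    (hN' : N' ≤ m.multichoose (K / 2)) (R : Fin N' → Fin m → ℂ)
    (hR : AlgebraicIndependent ℚ (fun p : Fin N' × Fin m => R p.1 p.2)) :
    ∃ U : Fin (rho m K N' e) → MvPolynomial (Fin m) ℂ, (∀ s, U s ∈ Fm m e) ∧
      ∀ a : Fin (rho m K N' e) → ℂ,
        (∀ g ∈ Fm m (K - e), ∑ s', eval (R s') (∑ s, a s • U s) * eval (R s') g = 0) →
        a = 0 := by
  classical
  have hle : rho m K N' e ≤ N' := min_le_left _ _
  have hle2 : rho m K N' e ≤ m.multichoose (min e (K - e)) := min_le_right _ _
  rcases le_total e (K - e) with h | h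
  · -- small degree
    have h1 : rho m K N' e ≤ m.multichoose e := by
      rw [min_eq_left h] at hle2
      exact hle2
    have h2 : N' ≤ m.multichoose (K - e) := hN'.trans (mc_mono hm (by omega))
    have h3 : ∀ s : Fin (rho m K N' e), ∃ A ∈ Fm m e,
        ∀ j, eval (R (Fin.castLE hle j)) A = (Pi.single s 1 : Fin (rho m K N' e) → ℂ) j :=
      fun s => eval_surj_prefix h1 hle R hR _
    choose U hU hU2 using h3
    refine ⟨U, hU, fun a ha => ?_⟩
    ext s0
    obtain ⟨g, hg, hg2⟩ := eval_surj h2 R hR (Pi.single (Fin.castLE hle s0) 1)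
    have h4 := ha g hg
    simp only [hg2] at h4
    rw [Finset.sum_eq_single (Fin.castLE hle s0)] at h4
    · rw [Pi.single_eq_same, mul_one, map_sum] at h4
      simp only [smul_eval, hU2] at h4
      rw [Finset.sum_eq_single s0] at h4
      · simpa using h4
      · intro b _ hb
        rw [Pi.single_eq_of_ne hb.symm, mul_zero]
      · simp
    · intro b _ hb
      rw [Pi.single_eq_of_ne hb, mul_zero]
    · simp
  · -- large degree
    have h1 : rho m K N' e ≤ m.multichoose (K - e) := by
      rw [min_eq_right h] at hle2
      exact hle2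
    have h2 : N' ≤ m.multichoose e := hN'.trans (mc_mono hm (by omega))
    have h3 : ∀ s : Fin (rho m K N' e), ∃ A ∈ Fm m e,
        ∀ j, eval (R j) A = (Pi.single (Fin.castLE hle s) 1 : Fin N' → ℂ) j :=
      fun s => eval_surj h2 R hR _
    choose U hU hU2 using h3
    refine ⟨U, hU, fun a ha => ?_⟩
    ext s0
    obtain ⟨g, hg, hg2⟩ := eval_surj_prefix h1 hle R hR (Pi.single s0 1)
    have h4 := ha g hg
    have h5 : ∀ s' : Fin N', eval (R s') (∑ s, a s • U s) * eval (R s') g =
        ∑ s : Fin (rho m K N' e), a s *
          ((Pi.single (Fin.castLE hle s) 1 : Fin N' → ℂ) s' * eval (R s') g) := by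
      intro s'
      rw [map_sum, Finset.sum_mul]
      refine Finset.sum_congr rfl fun s _ => ?_
      rw [smul_eval, hU2]
      ring
    simp only [h5] at h4
    rw [Finset.sum_comm] at h4
    rw [Finset.sum_eq_single s0] at h4
    · rw [Finset.sum_eq_single (Fin.castLE hle s0)] at h4
      · rw [Pi.single_eq_same, hg2, Pi.single_eq_same] at h4
        simpa using h4
      · intro b _ hb
        rw [Pi.single_eq_of_ne hb]
        ring
      · simp
    · intro s _ hs
      apply Finset.sum_eq_zero
      intro s' _
      by_cases hss : s' = Fin.castLE hle s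
      · subst hss
        rw [hg2, Pi.single_eq_of_ne hs]
        ring
      · rw [Pi.single_eq_of_ne hss]
        ring
    · simp

/-- **Length bound.** If `∑_s x_0 ℓ_s^{K}` (with `N'` algebraically independent linear forms
`ℓ_s` in the other `m` variables) is a sum of `r` powers, then `∑_{e ≤ K} ρ_e ≤ r`. -/
theorem length_bound {m K N' r : ℕ} (hm : 1 ≤ m)
    (hN' : N' ≤ m.multichoose (K / 2)) (R : Fin N' → Fin m → ℂ)
    (hR : AlgebraicIndependent ℚ (fun p : Fin N' × Fin m => R p.1 p.2))
    (w : Fin r → Fin (m + 1) → ℂ)
    (hT : ∀ i, ∑ s, tt (K + 1) (Fin.snoc (R s) 0 : Fin (m + 1) → ℂ)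
      (Pi.single (Fin.last m) 1) i = ∑ j, pw (K + 1) (w j) i) :
    ∑ e ∈ Finset.range (K + 1), rho m K N' e ≤ r := by
  classical
  -- the basic identity
  let ee : Fin (m + 1) → ℂ := Pi.single (Fin.last m) 1
  have hee : lf ee = X (Fin.last m) := by
    simp only [lf, ee]
    rw [Finset.sum_eq_single (Fin.last m)]
    · simp
    · intro l _ hl
      simp [hl]
    · simp
  have hid : ∀ B ∈ Fm (m + 1) K,
      ∑ s, eval (Fin.snoc (R s) 0 : Fin (m + 1) → ℂ) B =
        ∑ j, w j (Fin.last m) * eval (w j) B := by
    intro B hB
    have h1 := ext_forms (N := m + 1) (k := K + 1)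
      (∑ s, drF (Fin.snoc (R s) 0 : Fin (m + 1) → ℂ) ee) (∑ j, evF (w j)) (by
        intro i
        simp only [LinearMap.coe_sum, Finset.sum_apply, drF_apply, evF_apply, sum_gr_mon,
          eval_mon]
        exact hT i) (lf_mul_mem ee hB)
    simp only [LinearMap.coe_sum, Finset.sum_apply, drF_apply, evF_apply, map_mul] at h1
    have h2 : ∀ s, ∑ l, ee l * gr (Fin.snoc (R s) 0 : Fin (m + 1) → ℂ) (lf ee * B) l =
        eval (Fin.snoc (R s) 0 : Fin (m + 1) → ℂ) B := by
      intro s
      rw [Finset.sum_eq_single (Fin.last m)]
      · rw [gr_lf_mul, hee, eval_X]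
        simp [ee]
      · intro l _ hl
        simp [ee, hl]
      · simp
    simp only [h2] at h1
    simp only [hee, eval_X] at h1
    exact h1
  -- the layers
  have hlay : ∀ e : Fin (K + 1), ∃ U : Fin (rho m K N' e) → MvPolynomial (Fin m) ℂ,
      (∀ s, U s ∈ Fm m e) ∧ ∀ a : Fin (rho m K N' e) → ℂ,
        (∀ g ∈ Fm m (K - e), ∑ s', eval (R s') (∑ s, a s • U s) * eval (R s') g = 0) →
        a = 0 := fun e => exists_layer hm (by omega) hN' R hR
  choose U hU hU2 using hlay
  let ι := Σ e : Fin (K + 1), Fin (rho m K N' e)
  let u : Fin r → Fin m → ℂ := fun j l => w j l.castSucc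
  let t : Fin r → ℂ := fun j => w j (Fin.last m)
  let Φ : ι → Fin r → ℂ := fun p j =>
    if t j = 0 then 0 else (t j ^ (p.1 : ℕ))⁻¹ * eval (u j) (U p.1 p.2)
  have hli : LinearIndependent ℂ Φ := by
    rw [Fintype.linearIndependent_iff]
    intro a ha
    let f : Fin (K + 1) → MvPolynomial (Fin m) ℂ := fun e => ∑ s, a ⟨e, s⟩ • U e s
    have hf : ∀ e : Fin (K + 1), f e ∈ Fm m e := fun e =>
      Submodule.sum_mem _ fun s _ => Submodule.smul_mem _ _ (hU e s)
    have h0 : ∀ j, t j ≠ 0 → ∑ e : Fin (K + 1), (t j ^ (e : ℕ))⁻¹ * eval (u j) (f e) = 0 := by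
      intro j hj
      have h1 := congrFun ha j
      rw [Finset.sum_apply, Fintype.sum_sigma] at h1
      rw [← Pi.zero_apply (M := fun _ : Fin r => ℂ) j, ← h1]
      refine Finset.sum_congr rfl fun e _ => ?_
      simp only [f, map_sum, smul_eval, Finset.mul_sum, Pi.smul_apply, smul_eq_mul, Φ, if_neg hj]
      exact Finset.sum_congr rfl fun s _ => by ring
    -- downward induction
    have hdown : ∀ n : ℕ, ∀ e : Fin (K + 1), K - (e : ℕ) < n → ∀ s, a ⟨e, s⟩ = 0 := by
      intro n
      induction n with
      | zero => intro e he; omega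
      | succ n ih =>
        intro e he s
        have hfz : ∀ e' : Fin (K + 1), (e : ℕ) < e' → f e' = 0 := by
          intro e' he'
          simp only [f]
          apply Finset.sum_eq_zero
          intro s' _
          rw [ih e' (by omega) s', zero_smul]
        have h1 : (fun s => a ⟨e, s⟩) = (0 : Fin (rho m K N' e) → ℂ) := by
          apply hU2 e
          intro g hg
          -- the test form
          let B : MvPolynomial (Fin (m + 1)) ℂ :=
            ∑ d : Fin (K + 1), if (d : ℕ) ≤ e then
              X (Fin.last m) ^ ((e : ℕ) - d) * (rename Fin.castSucc (f d) *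
                rename Fin.castSucc g) else 0
          have hB : B ∈ Fm (m + 1) K := by
            refine Submodule.sum_mem _ fun d _ => ?_
            split_ifs with hd
            · have e1 : (X (Fin.last m) ^ ((e : ℕ) - d) : MvPolynomial (Fin (m + 1)) ℂ) ∈
                  Fm (m + 1) ((e : ℕ) - d) := isHomogeneous_X_pow _ _
              have e2 : rename Fin.castSucc (f d) ∈ Fm (m + 1) d :=
                IsHomogeneous.rename_isHomogeneous (hf d)
              have e3 : rename Fin.castSucc g ∈ Fm (m + 1) (K - e) :=
                IsHomogeneous.rename_isHomogeneous hg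
              have e4 := mul_mem_Fm e1 (mul_mem_Fm e2 e3)
              have e5 : (e : ℕ) - d + (d + (K - e)) = K := by omega
              rw [e5] at e4
              exact e4
            · exact Submodule.zero_mem _
          have h2 := hid B hB
          have hren : ∀ (v : Fin (m + 1) → ℂ) (q : MvPolynomial (Fin m) ℂ),
              eval v (rename Fin.castSucc q) = eval (fun l => v l.castSucc) q := by
            intro v q
            rw [eval_rename]
            rfl
          have hrhs : ∑ j, w j (Fin.last m) * eval (w j) B = 0 := by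
            apply Finset.sum_eq_zero
            intro j _
            by_cases hj : t j = 0
            · have : w j (Fin.last m) = 0 := hj
              rw [this, zero_mul]
            · have h3 : eval (w j) B = t j ^ (e : ℕ) *
                  (∑ e' : Fin (K + 1), (t j ^ (e' : ℕ))⁻¹ * eval (u j) (f e')) *
                    eval (u j) g := by
                simp only [B, map_sum]
                rw [Finset.mul_sum, Finset.sum_mul]
                refine Finset.sum_congr rfl fun d _ => ?_
                split_ifs with hd
                · rw [map_mul, map_mul, map_pow, eval_X, hren, hren]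
                  have h4 : t j ^ (e : ℕ) = t j ^ ((e : ℕ) - d) * t j ^ (d : ℕ) := by
                    rw [← pow_add]
                    congr 1
                    omega
                  rw [h4]
                  have h5 : t j ^ (d : ℕ) ≠ 0 := pow_ne_zero _ hj
                  have h6 : w j (Fin.last m) = t j := rfl
                  have h7 : (fun l : Fin m => w j l.castSucc) = u j := rfl
                  rw [h6, h7]
                  field_simp
                · rw [hfz d (by omega)]
                  simp
              rw [h3, h0 j hj]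
              ring
          rw [hrhs] at h2
          rw [← h2]
          refine Finset.sum_congr rfl fun s' _ => ?_
          simp only [B, map_sum]
          rw [Finset.sum_eq_single e]
          · rw [if_pos le_rfl, Nat.sub_self, pow_zero, one_mul, map_mul, hren, hren]
            simp only [Fin.snoc_castSucc]
            congr 1
            simp only [f, map_sum]
          · intro d _ hd
            split_ifs with hde
            · rw [map_mul, map_pow, eval_X]
              have h8 : (e : ℕ) - d ≠ 0 := by
                have : (d : ℕ) ≠ e := fun h => hd (Fin.ext h)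
                omega
              rw [Fin.snoc_last, zero_pow h8, zero_mul]
            · simp
          · simp
        exact congrFun h1 s
    rintro ⟨e, s⟩
    exact hdown (K + 1) e (by omega) s
  have hcard := hli.fintype_card_le_finrank
  rw [Module.finrank_fintype_fun_eq_card, Fintype.card_fin, Fintype.card_sigma] at hcard
  rw [Finset.sum_range]
  simpa using hcard

end H80R
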