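import Mathlib
import Pool.Agent.H80R.PartB

namespace H80R

open MvPolynomial Topology Filter

/-- If `2 N' ≤ r` and `r` is smaller than the length bound, then `Y_r` is not closed. -/
theorem not_closed_B {m n K N' r : ℕ} (hm : 1 ≤ m) (hmn : m ≤ n)
    (hN' : N' ≤ m.multichoose (K / 2)) (h1 : 2 * N' ≤ r)
    (h2 : r < ∑ e ∈ Finset.range (K + 1), rho m K N' e) :
    ¬ IsClosed[projTop (n + 1) (K + 1)] (Y (n + 1) (K + 1) r) := by
  intro hcl
  have hle : m + 1 ≤ n + 1 := by omega
  obtain ⟨v, hv⟩ := exists_algebraicIndependent (Fin N' × Fin m)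
  let R : Fin N' → Fin m → ℂ := fun s l => v (s, l)
  let x : Fin N' → Fin (m + 1) → ℂ := fun s => Fin.snoc (R s) 0
  let y : Fin (m + 1) → ℂ := Pi.single (Fin.last m) 1
  have hcore : ∀ w : Fin r → Fin (m + 1) → ℂ,
      ¬ ∀ i, ∑ s, tt (K + 1) (x s) y i = ∑ j, pw (K + 1) (w j) i := by
    intro w hw
    have := length_bound hm hN' R hv w hw
    omega
  have hne : ∑ s : Fin N', ttS (K + 1) (pad (x s) : Fin (n + 1) → ℂ) (pad y) +
      ∑ s : Fin 0, tpow (K + 1) ((fun s : Fin 0 => (s.elim0 : Fin (n + 1) → ℂ)) s) ≠ 0 := by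
    intro h0
    apply hcore (fun _ _ => 0)
    intro i
    have h3 := congrArg (fun T : SymT (n + 1) (K + 1) => T.1 (fun j => Fin.castLE hle (i j))) h0
    simp only [AddSubmonoidClass.coe_finsetSum,
      Finset.sum_apply, Finset.univ_eq_empty, Finset.sum_empty, add_zero] at h3
    have h4 : ∑ s, tt (K + 1) (pad (x s) : Fin (n + 1) → ℂ) (pad y)
        (fun j => Fin.castLE hle (i j)) = 0 := h3
    simp only [tt_pad hle] at h4
    rw [h4]
    simp [pw]
  obtain ⟨w, hw⟩ := closed_imp (by omega) hcl (a := N') (b := 0) (by omega)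
    (fun s => pad (x s)) (fun _ => pad y) (fun s => s.elim0) hne
  apply hcore (fun j l => w j (Fin.castLE hle l))
  intro i
  have h3 := hw (fun j => Fin.castLE hle (i j))
  simp only [Finset.univ_eq_empty, Finset.sum_empty, add_zero, tt_pad hle] at h3
  exact h3

theorem sum_mc {m : ℕ} (p : ℕ) :
    ∑ e ∈ Finset.range (p + 1), m.multichoose e = (m + 1).multichoose p := by
  induction p with
  | zero => simp [Nat.multichoose_zero_right]
  | succ p ih => rw [Finset.sum_range_succ, ih, Nat.multichoose_succ_succ, add_comm]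

/-- splitting a sum over a range -/
theorem sum_split (f : ℕ → ℕ) (a b : ℕ) : ∑ e ∈ Finset.range (a + b), f e =
    ∑ e ∈ Finset.range a, f e + ∑ e ∈ Finset.range b, f (a + e) := by
  induction b with
  | zero => simp
  | succ b ih => rw [← add_assoc, Finset.sum_range_succ, ih, Finset.sum_range_succ, add_assoc]

/-- the reflection of the layers, `K = 2 p + 1` -/
theorem sum_rho_odd {m p N' : ℕ} :
    ∑ e ∈ Finset.range (2 * p + 1 + 1), rho m (2 * p + 1) N' e =
      2 * ∑ e ∈ Finset.range (p + 1), min N' (m.multichoose e) := by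
  have h1 : ∑ e ∈ Finset.range (2 * p + 1 + 1), rho m (2 * p + 1) N' e =
      ∑ e ∈ Finset.range ((p + 1) + (p + 1)), rho m (2 * p + 1) N' e := by
    congr 2
    ring
  rw [h1, sum_split, two_mul (∑ e ∈ Finset.range (p + 1), min N' (m.multichoose e))]
  congr 1
  · refine Finset.sum_congr rfl fun e he => ?_
    have := Finset.mem_range.mp he
    unfold rho
    rw [min_eq_left (by omega : e ≤ 2 * p + 1 - e)]
  · rw [← Finset.sum_range_reflect]
    refine Finset.sum_congr rfl fun e he => ?_
    have := Finset.mem_range.mp he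
    unfold rho
    have e1 : min (p + 1 + (p + 1 - 1 - e)) (2 * p + 1 - (p + 1 + (p + 1 - 1 - e))) = e := by
      omega
    rw [e1]

/-- the reflection of the layers, `K = 2 p` -/
theorem sum_rho_even {m p N' : ℕ} :
    ∑ e ∈ Finset.range (2 * p + 1), rho m (2 * p) N' e =
      2 * (∑ e ∈ Finset.range p, min N' (m.multichoose e)) + min N' (m.multichoose p) := by
  have h1 : ∑ e ∈ Finset.range (2 * p + 1), rho m (2 * p) N' e =
      ∑ e ∈ Finset.range ((p + 1) + p), rho m (2 * p) N' e := by
    congr 2
    ring
  rw [h1, sum_split, Finset.sum_range_succ]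
  have h2 : ∑ e ∈ Finset.range p, rho m (2 * p) N' e =
      ∑ e ∈ Finset.range p, min N' (m.multichoose e) := by
    refine Finset.sum_congr rfl fun e he => ?_
    have := Finset.mem_range.mp he
    unfold rho
    rw [min_eq_left (by omega : e ≤ 2 * p - e)]
  have h3 : ∑ e ∈ Finset.range p, rho m (2 * p) N' (p + 1 + e) =
      ∑ e ∈ Finset.range p, min N' (m.multichoose e) := by
    rw [← Finset.sum_range_reflect]
    refine Finset.sum_congr rfl fun e he => ?_
    have := Finset.mem_range.mp he
    unfold rho
    have e1 : min (p + 1 + (p - 1 - e)) (2 * p - (p + 1 + (p - 1 - e))) = e := by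
      omega
    rw [e1]
  have h4 : rho m (2 * p) N' p = min N' (m.multichoose p) := by
    unfold rho
    have e1 : min p (2 * p - p) = p := by omega
    rw [e1]
  rw [h2, h3, h4]
  ring

/-- **Part (B), even order.** -/
theorem not_closed_even {m n k r : ℕ} (hm : 1 ≤ m) (hmn : m ≤ n) (hk : 4 ≤ k) (hke : Even k)
    (hr : 2 ≤ r) (h : r < 2 * (m + k / 2 - 1).choose m) :
    ¬ IsClosed[projTop (n + 1) k] (Y (n + 1) k r) := by
  obtain ⟨q, hq⟩ := hke
  obtain ⟨p, rfl⟩ : ∃ p, q = p + 1 := ⟨q - 1, by omega⟩
  have hk2 : k = 2 * p + 1 + 1 := by omega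
  subst hk2
  have hp : 1 ≤ p := by omega
  have hdiv : (2 * p + 1) / 2 = p := by omega
  have e1 : m + (2 * p + 1 + 1) / 2 - 1 = m + p := by omega
  rw [e1] at h
  have e2 : (m + p).choose m = (m + 1).multichoose p := by
    rw [Nat.multichoose_eq]
    have : m + 1 + p - 1 = m + p := by omega
    rw [this]
    exact Nat.choose_symm_add
  rw [e2] at h
  rcases le_total (r / 2) (m.multichoose p) with h1 | h1
  · apply not_closed_B (N' := r / 2) hm hmn (by rw [hdiv]; exact h1) (by omega)
    rw [sum_rho_odd, Finset.sum_range_succ, min_eq_left h1]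
    have h2 : 1 ≤ ∑ e ∈ Finset.range p, min (r / 2) (m.multichoose e) := by
      have h3 : min (r / 2) (m.multichoose 0) ≤
          ∑ e ∈ Finset.range p, min (r / 2) (m.multichoose e) :=
        Finset.single_le_sum (f := fun e => min (r / 2) (m.multichoose e))
          (fun _ _ => Nat.zero_le _) (Finset.mem_range.mpr (by omega : 0 < p))
      rw [Nat.multichoose_zero_right] at h3
      have : 1 ≤ min (r / 2) 1 := by
        rw [le_min_iff]
        omega
      omega
    omega
  · apply not_closed_B (N' := m.multichoose p) hm hmn (by rw [hdiv]) (by omega)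
    rw [sum_rho_odd]
    have h2 : ∑ e ∈ Finset.range (p + 1), min (m.multichoose p) (m.multichoose e) =
        ∑ e ∈ Finset.range (p + 1), m.multichoose e := by
      refine Finset.sum_congr rfl fun e he => ?_
      have := Finset.mem_range.mp he
      exact min_eq_right (mc_mono hm (by omega))
    rw [h2, sum_mc]
    exact h

/-- **Part (B), odd order.** -/
theorem not_closed_odd {m n p r : ℕ} (hm : 1 ≤ m) (hmn : m ≤ n) (hp : 2 ≤ p) (hr : 2 ≤ r)
    (h : r < (m + p - 1).choose m + (m + p).choose m) (h' : r + 1 < 4 * (m + p - 1).choose m) :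
    ¬ IsClosed[projTop (n + 1) (2 * p + 1)] (Y (n + 1) (2 * p + 1) r) := by
  have hdiv : (2 * p) / 2 = p := by omega
  obtain ⟨q, rfl⟩ : ∃ q, p = q + 1 := ⟨p - 1, by omega⟩
  have e1 : (m + (q + 1) - 1).choose m = (m + 1).multichoose q := by
    rw [Nat.multichoose_eq]
    have e0 : m + 1 + q - 1 = m + q := by omega
    have e0' : m + (q + 1) - 1 = m + q := by omega
    rw [e0, e0']
    exact Nat.choose_symm_add
  have e2 : (m + (q + 1)).choose m = (m + 1).multichoose (q + 1) := by
    rw [Nat.multichoose_eq]
    have : m + 1 + (q + 1) - 1 = m + (q + 1) := by omega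
    rw [this]
    exact Nat.choose_symm_add
  have e3 : (m + 1).multichoose (q + 1) = m.multichoose (q + 1) + (m + 1).multichoose q :=
    Nat.multichoose_succ_succ _ _
  rw [e1, e2, e3] at h
  rw [e1] at h'
  have hS : ∀ N', m.multichoose q ≤ N' →
      ∑ e ∈ Finset.range (q + 1), min N' (m.multichoose e) = (m + 1).multichoose q := by
    intro N' hN
    rw [← sum_mc]
    refine Finset.sum_congr rfl fun e he => ?_
    have := Finset.mem_range.mp he
    exact min_eq_right ((mc_mono hm (by omega)).trans hN)
  rcases le_total (r / 2) (m.multichoose q) with h1 | h1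
  · have h1' : r / 2 ≤ m.multichoose (q + 1) := h1.trans (mc_mono hm (by omega))
    apply not_closed_B (N' := r / 2) hm hmn (by rw [hdiv]; exact h1') (by omega)
    rw [sum_rho_even, Finset.sum_range_succ, min_eq_left h1, min_eq_left h1']
    have h2 : 1 ≤ ∑ e ∈ Finset.range q, min (r / 2) (m.multichoose e) := by
      have h3 : min (r / 2) (m.multichoose 0) ≤
          ∑ e ∈ Finset.range q, min (r / 2) (m.multichoose e) :=
        Finset.single_le_sum (f := fun e => min (r / 2) (m.multichoose e))
          (fun _ _ => Nat.zero_le _) (Finset.mem_range.mpr (by omega : 0 < q))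
      rw [Nat.multichoose_zero_right] at h3
      have : 1 ≤ min (r / 2) 1 := by
        rw [le_min_iff]
        omega
      omega
    omega
  · rcases le_total (r / 2) (m.multichoose (q + 1)) with h2 | h2
    · apply not_closed_B (N' := r / 2) hm hmn (by rw [hdiv]; exact h2) (by omega)
      rw [sum_rho_even, hS _ h1, min_eq_left h2]
      omega
    · apply not_closed_B (N' := m.multichoose (q + 1)) hm hmn (by rw [hdiv]) (by omega)
      rw [sum_rho_even, hS _ (mc_mono hm (by omega)), min_self]
      omega

/-- For `m ≤ 2 p - 1` the second numerical condition is automatic. -/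
theorem not_closed_odd' {m n p r : ℕ} (hm : 1 ≤ m) (hmn : m ≤ n) (hp : 2 ≤ p)
    (hmp : m ≤ 2 * p - 1) (hr : 2 ≤ r)
    (h : r < (m + p - 1).choose m + (m + p).choose m) :
    ¬ IsClosed[projTop (n + 1) (2 * p + 1)] (Y (n + 1) (2 * p + 1) r) := by
  apply not_closed_odd hm hmn hp hr h
  obtain ⟨q, rfl⟩ : ∃ q, p = q + 1 := ⟨p - 1, by omega⟩
  have e0 : m + (q + 1) - 1 = m + q := by omega
  rw [e0] at h ⊢
  -- `C(m+q+1, m) (q+1) = C(m+q, m) (m+q+1)`
  have h1 : (m + (q + 1)).choose m * (q + 1) = (m + q).choose m * (m + q + 1) := by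
    have h2 := Nat.add_one_mul_choose_eq (m + q) q
    have h3 : (m + q).choose q = (m + q).choose m := Nat.choose_symm_add.symm
    have h4 : (m + (q + 1)).choose m = (m + q + 1).choose (q + 1) := by
      have : (m + (q + 1)).choose m = (m + (q + 1)).choose (q + 1) := Nat.choose_symm_add
      rw [this]
      rfl
    rw [h4, ← h2, h3]
    ring
  have h2 : q + 1 ≤ (m + q).choose m := by
    have h3 : (1 + q).choose 1 ≤ (m + q).choose m := by
      have e1 : (1 + q).choose 1 = (2).multichoose q := by
        rw [Nat.multichoose_two]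
        simp [add_comm]
      have e2 : (m + q).choose m = (m + 1).multichoose q := by
        rw [Nat.multichoose_eq]
        have : m + 1 + q - 1 = m + q := by omega
        rw [this]
        exact Nat.choose_symm_add
      have e3 : ∀ a, 1 ≤ a → ∀ b, a.multichoose b ≤ (a + 1).multichoose b := by
        intro a ha b
        rcases b with _ | b
        · simp [Nat.multichoose_zero_right]
        · rw [Nat.multichoose_succ_succ]
          omega
      have e4 : ∀ a b c, 1 ≤ a → a ≤ b → a.multichoose c ≤ b.multichoose c := by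
        intro a b c ha hab
        induction b, hab using Nat.le_induction with
        | base => exact le_rfl
        | succ b hb ih => exact ih.trans (e3 b (by omega) c)
      rw [e1, e2]
      exact e4 2 (m + 1) q (by omega) (by omega)
    simpa [add_comm] using h3
  have h3 : (m + (q + 1)).choose m * (q + 1) ≤ (m + q).choose m * (3 * (q + 1) - 1) := by
    rw [h1]
    exact Nat.mul_le_mul_left _ (by omega)
  have h4 : (m + (q + 1)).choose m + 1 ≤ 3 * (m + q).choose m := by
    have h5 : ((m + (q + 1)).choose m + 1) * (q + 1) ≤ 3 * (m + q).choose m * (q + 1) := by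
      have h6 : (m + q).choose m * (3 * (q + 1) - 1) + (m + q).choose m =
          3 * (m + q).choose m * (q + 1) := by
        have : 3 * (q + 1) - 1 + 1 = 3 * (q + 1) := by omega
        calc _ = (m + q).choose m * (3 * (q + 1) - 1 + 1) := by ring
          _ = _ := by rw [this]; ring
      calc ((m + (q + 1)).choose m + 1) * (q + 1)
          = (m + (q + 1)).choose m * (q + 1) + (q + 1) := by ring
        _ ≤ (m + q).choose m * (3 * (q + 1) - 1) + (m + q).choose m := Nat.add_le_add h3 h2
        _ = _ := h6
    exact Nat.le_of_mul_le_mul_right h5 (by omega)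
  omega

end H80R
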