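import Mathlib
import Pool.Agent.H80R.PartB2

namespace H80R

open MvPolynomial Topology Filter

/-- gradient of a monomial times a monomial, evaluated at a coordinate vector -/
theorem eval_single_X {N : ℕ} (i l : Fin N) :
    eval (Pi.single i 1 : Fin N → ℂ) (X l) = if l = i then 1 else 0 := by
  rw [eval_X]
  by_cases h : l = i
  · subst h; simp
  · simp [h]

/-- **Part (D).** If `2 ≤ r ≤ dim V` and `k ≥ 3`, then `Y_r` is not closed. -/
theorem not_closed_D {n k r : ℕ} (hk : 3 ≤ k) (hr : 2 ≤ r) (hrn : r ≤ n + 1) :
    ¬ IsClosed[projTop (n + 1) k] (Y (n + 1) k r) := by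
  classical
  intro hcl
  obtain ⟨a, rfl⟩ : ∃ a, r = a + 2 := ⟨r - 2, by omega⟩
  obtain ⟨q, rfl⟩ : ∃ q, k = q + 3 := ⟨k - 3, by omega⟩
  let i0 : Fin (a + 2) := 0
  let i1 : Fin (a + 2) := 1
  have h01 : i0 ≠ i1 := by
    intro h
    simpa [i0, i1] using congrArg Fin.val h
  let x : Fin (a + 2) → ℂ := Pi.single i0 1
  let y : Fin (a + 2) → ℂ := Pi.single i1 1
  let z : Fin a → Fin (a + 2) → ℂ := fun s => Pi.single (s.succ.succ) 1
  -- the core statement in `a + 2` variables
  have hcore : ∀ w : Fin (a + 2) → Fin (a + 2) → ℂ,
      ¬ ∀ i, tt (q + 3) x y i + ∑ s, pw (q + 3) (z s) i = ∑ j, pw (q + 3) (w j) i := by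
    intro w hw
    have hid : ∀ A ∈ Fm (a + 2) (q + 3),
        gr x A i1 + ∑ s, eval (z s) A = ∑ j, eval (w j) A := by
      intro A hA
      have h1 := ext_forms (N := a + 2) (k := q + 3) (drF x y + ∑ s, evF (z s))
        (∑ j, evF (w j)) (by
          intro i
          simp only [LinearMap.add_apply, LinearMap.coe_sum, Finset.sum_apply, drF_apply,
            evF_apply, sum_gr_mon, eval_mon]
          exact hw i) hA
      simp only [LinearMap.add_apply, LinearMap.coe_sum, Finset.sum_apply, drF_apply,
        evF_apply] at h1
      rw [← h1]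
      congr 1
      rw [Finset.sum_eq_single i1]
      · simp [y]
      · intro b _ hb
        simp [y, hb]
      · simp
    have hX : ∀ (l : Fin (a + 2)) (d : ℕ), (X l ^ d : MvPolynomial (Fin (a + 2)) ℂ) ∈
        Fm (a + 2) d := fun l d => isHomogeneous_X_pow _ _
    -- injectivity of the pairing with the points `w j`
    have hinj : ∀ h : Fin (a + 2) → ℂ, (∀ j, eval (w j) (lf h) = 0) → h = 0 := by
      intro h hh
      have hB : ∀ B ∈ Fm (a + 2) (q + 2), gr x (lf h * B) i1 +
          ∑ s, eval (z s) (lf h) * eval (z s) B = 0 := by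
        intro B hB
        have h1 := hid _ (lf_mul_mem h hB)
        simp only [map_mul, hh, zero_mul, Finset.sum_const_zero] at h1
        exact h1
      have hev : ∀ (l : Fin (a + 2)), eval (Pi.single l 1 : Fin (a + 2) → ℂ) (lf h) = h l := by
        intro l
        rw [eval_lf, Finset.sum_eq_single l]
        · simp
        · intro b _ hb
          simp [hb]
        · simp
      have e1 : h i1 = 0 := by
        have h1 := hB _ (hX i0 (q + 2))
        rw [gr_lf_mul, hev] at h1
        have h2 : gr x (X i0 ^ (q + 2)) i1 = 0 := by
          simp only [gr, Derivation.leibniz_pow, pderiv_X_of_ne h01, smul_zero, map_zero]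
        have h3 : ∑ s, eval (z s) (lf h) * eval (z s) (X i0 ^ (q + 2)) = 0 := by
          apply Finset.sum_eq_zero
          intro s _
          rw [map_pow, eval_single_X, if_neg (Fin.succ_ne_zero _).symm]
          simp
        rw [h2, h3, map_pow, eval_single_X] at h1
        simpa using h1
      have e0 : h i0 = 0 := by
        have h1 := hB _ (mul_mem_Fm (d := q + 1) (e := 1) (hX i0 (q + 1)) (hX i1 1))
        rw [gr_lf_mul, hev] at h1
        have h2 : gr x (X i0 ^ (q + 1) * X i1 ^ 1) i1 = 1 := by
          simp only [gr, Derivation.leibniz, Derivation.leibniz_pow, pderiv_X_of_ne h01, x,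
            smul_zero, add_zero, pow_one, pderiv_X_self, smul_eq_mul, mul_one, map_pow,
            eval_single_X, if_true, one_pow, mul_zero]
        have h3 : ∑ s, eval (z s) (lf h) * eval (z s) (X i0 ^ (q + 1) * X i1 ^ 1) = 0 := by
          apply Finset.sum_eq_zero
          intro s _
          rw [map_mul, map_pow, eval_single_X, if_neg (Fin.succ_ne_zero _).symm]
          simp
        have h4 : eval x (X i0 ^ (q + 1) * X i1 ^ 1) = 0 := by
          rw [map_mul, map_pow, map_pow, eval_single_X, eval_single_X, if_neg h01.symm]
          simp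
        rw [h2, h3, h4] at h1
        simpa using h1
      have e2 : ∀ s : Fin a, h s.succ.succ = 0 := by
        intro s
        have h1 := hB _ (hX s.succ.succ (q + 2))
        rw [gr_lf_mul, hev] at h1
        have hne0 : i0 ≠ s.succ.succ := (Fin.succ_ne_zero _).symm
        have hne1 : s.succ.succ ≠ i1 := by
          intro h
          have := congrArg Fin.val h
          simp [i1] at this
        have h2 : gr x (X s.succ.succ ^ (q + 2)) i1 = 0 := by
          simp only [gr, Derivation.leibniz_pow, pderiv_X_of_ne hne1, smul_zero, map_zero]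
        have h3 : ∑ s', eval (z s') (lf h) * eval (z s') (X s.succ.succ ^ (q + 2)) =
            h s.succ.succ := by
          rw [Finset.sum_eq_single s]
          · rw [map_pow, eval_single_X, if_pos rfl, one_pow, mul_one, hev]
          · intro b _ hb
            rw [map_pow, eval_single_X, if_neg]
            · simp
            · intro h
              apply hb
              have := Fin.succ_injective _ (Fin.succ_injective _ h)
              exact this.symm
          · simp
        have h4 : eval x (X s.succ.succ ^ (q + 2)) = 0 := by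
          rw [map_pow, eval_single_X, if_neg hne0.symm]
          simp
        rw [h2, h3, h4] at h1
        simpa using h1
      ext l
      refine Fin.cases e0 (fun l => ?_) l
      refine Fin.cases e1 (fun l => e2 l) l
    -- dual vectors
    let W : Matrix (Fin (a + 2)) (Fin (a + 2)) ℂ := Matrix.of w
    have hW : IsUnit W := by
      rw [← Matrix.mulVec_injective_iff_isUnit]
      intro u v huv
      have h1 : u - v = 0 := by
        apply hinj
        intro j
        have h2 := congrFun huv j
        simp only [Matrix.mulVec, dotProduct, W, Matrix.of_apply] at h2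
        rw [eval_lf]
        simp only [Pi.sub_apply, sub_mul, Finset.sum_sub_distrib]
        rw [sub_eq_zero]
        calc ∑ l, u l * w j l = ∑ l, w j l * u l := Finset.sum_congr rfl fun l _ => mul_comm _ _
          _ = ∑ l, w j l * v l := h2
          _ = _ := Finset.sum_congr rfl fun l _ => mul_comm _ _
      exact sub_eq_zero.mp h1
    have hzero : ∀ j, w j i1 = 0 := by
      intro j
      obtain ⟨h, hh⟩ := (Matrix.mulVec_surjective_iff_isUnit.mpr hW) (Pi.single j 1)
      have hh' : ∀ j', eval (w j') (lf h) = (Pi.single j 1 : Fin (a + 2) → ℂ) j' := by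
        intro j'
        rw [← hh, eval_lf]
        simp only [Matrix.mulVec, dotProduct, W, Matrix.of_apply]
        exact Finset.sum_congr rfl fun l _ => mul_comm _ _
      have hlfp : ∀ d, lf h ^ d ∈ Fm (a + 2) d := by
        intro d
        have := IsHomogeneous.pow (lf_mem h) d
        simpa using this
      have hmem : X i1 ^ 2 * lf h ^ (q + 1) ∈ Fm (a + 2) (q + 3) := by
        have h1 := mul_mem_Fm (hX i1 2) (hlfp (q + 1))
        have h2 : 2 + (q + 1) = q + 3 := by ring
        rw [h2] at h1
        exact h1
      have h1 := hid _ hmem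
      have h2 : gr x (X i1 ^ 2 * lf h ^ (q + 1)) i1 = 0 := by
        simp only [gr, Derivation.leibniz, Derivation.leibniz_pow, pderiv_X_self, map_add,
          smul_eq_mul, map_mul, map_pow, nsmul_eq_mul]
        rw [eval_single_X, if_neg h01.symm]
        simp
      have h3 : ∑ s, eval (z s) (X i1 ^ 2 * lf h ^ (q + 1)) = 0 := by
        apply Finset.sum_eq_zero
        intro s _
        rw [map_mul, map_pow, eval_single_X, if_neg]
        · simp
        · intro h
          have := congrArg Fin.val h
          simp [i1] at this
      have h4 : ∑ j', eval (w j') (X i1 ^ 2 * lf h ^ (q + 1)) = w j i1 ^ 2 := by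
        rw [Finset.sum_eq_single j]
        · rw [map_mul, map_pow, map_pow, eval_X, hh', Pi.single_eq_same]
          simp
        · intro b _ hb
          rw [map_mul, map_pow, map_pow, eval_X, hh', Pi.single_eq_of_ne hb]
          simp
        · simp
      rw [h2, h3, h4] at h1
      simp only [add_zero] at h1
      exact pow_eq_zero_iff (two_ne_zero) |>.mp h1.symm
    have hcontra := hinj (Pi.single i1 1) (by
      intro j
      rw [eval_lf, Finset.sum_eq_single i1]
      · simp [hzero j]
      · intro b _ hb
        simp [hb]
      · simp)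
    have := congrFun hcontra i1
    simp at this
  -- padding
  have hle : a + 2 ≤ n + 1 := hrn
  have hne : ∑ s : Fin 1, ttS (q + 3) ((fun _ => pad x : Fin 1 → Fin (n + 1) → ℂ) s)
      ((fun _ => pad y : Fin 1 → Fin (n + 1) → ℂ) s) +
      ∑ s, tpow (q + 3) (pad (z s) : Fin (n + 1) → ℂ) ≠ 0 := by
    intro h0
    apply hcore (fun _ _ => 0)
    intro i
    have h1 := congrArg (fun T : SymT (n + 1) (q + 3) => T.1 (fun j => Fin.castLE hle (i j))) h0
    simp only [Submodule.coe_add, AddSubmonoidClass.coe_finsetSum, Pi.add_apply,
      Finset.sum_apply, Finset.univ_unique, Finset.sum_singleton] at h1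
    have h2 : tt (q + 3) (pad x : Fin (n + 1) → ℂ) (pad y) (fun j => Fin.castLE hle (i j)) +
        ∑ s, pw (q + 3) (pad (z s) : Fin (n + 1) → ℂ) (fun j => Fin.castLE hle (i j)) = 0 := h1
    rw [tt_pad hle] at h2
    simp only [pw_pad hle] at h2
    rw [h2]
    simp [pw]
  obtain ⟨w, hw⟩ := closed_imp (by omega) hcl (a := 1) (b := a) (by omega)
    (fun _ => pad x) (fun _ => pad y) (fun s => pad (z s)) hne
  apply hcore (fun j l => w j (Fin.castLE hle l))
  intro i
  have h1 := hw (fun j => Fin.castLE hle (i j))
  simp only [Finset.univ_unique, Finset.sum_singleton] at h1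
  rw [tt_pad hle] at h1
  simp only [pw_pad hle] at h1
  exact h1

end H80R
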