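import Mathlib
import Pool.Agent.H80R.Arith2

namespace H80R

open Topology

/-- number of monomials of degree `e` in `m` variables, in computable form -/
def mc (m e : ℕ) : ℕ := (m + e - 1).choose e

theorem mc_eq (m e : ℕ) : m.multichoose e = mc m e := Nat.multichoose_eq m e

/-- the largest `m' ≤ m` with `mc m' e < w` -/
def dm (e w : ℕ) : ℕ → ℕ
  | 0 => 0
  | m + 1 => if mc (m + 1) e < w then m + 1 else dm e w m

theorem dm_spec {e w : ℕ} (he : 1 ≤ e) (hw : 0 < w) (m : ℕ) : mc (dm e w m) e < w := by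
  induction m with
  | zero =>
    have h : mc 0 e = 0 := by
      unfold mc
      rw [Nat.zero_add]
      exact Nat.choose_eq_zero_of_lt (by omega)
    show mc 0 e < w
    omega
  | succ m ih =>
    unfold dm
    split_ifs with h
    · exact h
    · exact ih

/-- one step of the estimate -/
def stp (n e w : ℕ) : ℕ := if w = 0 then 0 else w - (dm e w n + 1)

/-- bound for the dimension of the space of forms of degree `e` in `n` variables singular at
`u` general points -/
def sgc (n e : ℕ) : ℕ → ℕ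
  | 0 => mc n e
  | u + 1 => stp n e (sgc n e u)

theorem Sg_sgc {n e : ℕ} (he : 1 ≤ e) (u : ℕ) : Sg n e u (sgc n e u) := by
  induction u with
  | zero =>
    show Sg n e 0 (mc n e)
    rw [← mc_eq]
    exact Sg_zero n e
  | succ u ih =>
    show Sg n e (u + 1) (stp n e (sgc n e u))
    unfold stp
    split_ifs with h
    · rw [h] at ih
      exact Sg_add ih 1
    · apply Sg_step he ih
      rw [mc_eq]
      exact dm_spec he (by omega) n

/-- sum of the estimates over the layers -/
def tots (n a : ℕ) : ℕ → ℕ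
  | 0 => 0
  | k + 1 => tots n a k + sgc n (k + 1) a

theorem tots_eq (n a k : ℕ) : tots n a k = ∑ i ∈ Finset.range k, sgc n (i + 1) a := by
  induction k with
  | zero => rfl
  | succ k ih =>
    rw [Finset.sum_range_succ, ← ih]
    rfl

/-- A numerical criterion. -/
theorem nl_zero_of_num {n N k a r : ℕ} (hn : 1 ≤ n) (hnN : n ≤ N) (ha : 1 ≤ a) (har : 2 * a ≤ r)
    (hnum : sgc n (k + 1) (r - a) + tots n a k = 0 ∨
      sgc n (k + 1) (r - a) + tots n a k + (n + 1) * r < mc (n + 1) (k + 1))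
    (hcl : IsClosed[projTop (N + 1) (k + 1)] (Y (N + 1) (k + 1) r)) :
    ∃ w : Fin r → Fin (n + 1) → ℂ, nl (n + 1) (k + 1) w = 0 := by
  have hab : a + (r - 2 * a) = r - a := by omega
  obtain ⟨w, hw⟩ := closed_hyper (k := k) (b := r - 2 * a) hn hnN ha (by omega) hcl
    (fun i => sgc n (i + 1) a) (fun i _ => Sg_sgc (by omega) a) (sgc n (k + 1) (r - a))
    (by rw [hab]; exact Sg_sgc (by omega) (r - a))
  refine ⟨w, ?_⟩
  rw [← tots_eq] at hw
  rcases hnum with h | h
  · omega
  · exfalso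
    have h1 := nl_ge (d := k + 1) w
    rw [mc_eq] at h1
    omega

theorem sgc_zero_mono {n e u u' : ℕ} (h : sgc n e u = 0) (hu : u ≤ u') : sgc n e u' = 0 := by
  induction u', hu using Nat.le_induction with
  | base => exact h
  | succ u' _ ih =>
    show stp n e (sgc n e u') = 0
    rw [ih]
    rfl

/-- A numerical criterion, large `r`. -/
theorem nl_zero_of_large {n N k a c r : ℕ} (hn : 1 ≤ n) (hnN : n ≤ N) (ha : 1 ≤ a)
    (har : 2 * a ≤ r) (hc : c ≤ r - a)
    (hnum : sgc n (k + 1) c = 0 ∧ tots n a k = 0)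
    (hcl : IsClosed[projTop (N + 1) (k + 1)] (Y (N + 1) (k + 1) r)) :
    ∃ w : Fin r → Fin (n + 1) → ℂ, nl (n + 1) (k + 1) w = 0 := by
  refine nl_zero_of_num hn hnN ha har (Or.inl ?_) hcl
  rw [sgc_zero_mono hnum.1 hc, hnum.2]

/-- A numerical criterion, small `r`. -/
theorem nl_zero_of_small {n N k r : ℕ} (hn : 1 ≤ n) (hnN : n ≤ N) (a : ℕ) (ha : 1 ≤ a)
    (har : 2 * a ≤ r)
    (hnum : sgc n (k + 1) (r - a) + tots n a k + (n + 1) * r < mc (n + 1) (k + 1))
    (hcl : IsClosed[projTop (N + 1) (k + 1)] (Y (N + 1) (k + 1) r)) :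
    ∃ w : Fin r → Fin (n + 1) → ℂ, nl (n + 1) (k + 1) w = 0 :=
  nl_zero_of_num hn hnN ha har (Or.inr hnum) hcl

end H80R
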