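import Mathlib
import Pool.Agent.H80R.Small
import Pool.Agent.H80R.PartD

namespace H80R

open Topology

/-- computable form of `zz` -/
def zc (n e : ℕ) : ℕ := ∑ m ∈ Finset.range n, (mc (m + 1) e + m) / (m + 1)

theorem zc_eq (n e : ℕ) : zz n e = zc n e := by
  unfold zz zc
  simp only [mc_eq]

/-- computable form of the two arithmetic conditions -/
def C12 (n K : ℕ) : Prop :=
  (n + 1) * (zc n (K + 1) + zc n K) < mc (n + 1) (K + 2) ∧
  (3 * n + 2) * (zc n K * zc n (K + 1)) <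
    (mc (n + 1) (K + 1) - 1) * zc n (K + 1) + 2 * (mc n (K + 2) * zc n K)

instance (n K : ℕ) : Decidable (C12 n K) := by unfold C12; infer_instance

theorem C12_iff (n K : ℕ) : C12 n K ↔ C1 n K ∧ C2 n K := by
  unfold C12 C1 C2
  simp only [mc_eq, zc_eq]

theorem C12_two {K : ℕ} (hK : 4 ≤ K) : C1 2 K ∧ C2 2 K := by
  rcases Nat.lt_or_ge K 37 with h | h
  · rw [← C12_iff]
    have h1 : ∀ K < 37, 4 ≤ K → C12 2 K := by decide +kernel
    exact h1 K h hK
  · have hb : 20 * (37 * (2 - 1)) ≤ (2 + 37).choose 2 := by decide +kernel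
    exact C12_of_big (by omega) (by omega) (by omega)
      (big_of_base (by omega) (by omega) hb h) (big_of_base (by omega) (by omega) hb (by omega))

theorem C12_three {K : ℕ} (hK : 4 ≤ K) : C1 3 K ∧ C2 3 K := by
  rcases Nat.lt_or_ge K 13 with h | h
  · rw [← C12_iff]
    have h1 : ∀ K < 13, 4 ≤ K → C12 3 K := by decide +kernel
    exact h1 K h hK
  · have hb : 20 * (13 * (3 - 1)) ≤ (3 + 13).choose 3 := by decide +kernel
    exact C12_of_big (by omega) (by omega) (by omega)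
      (big_of_base (by omega) (by omega) hb h) (big_of_base (by omega) (by omega) hb (by omega))

theorem C12_four {K : ℕ} (hK : 5 ≤ K) : C1 4 K ∧ C2 4 K := by
  rcases Nat.lt_or_ge K 8 with h | h
  · rw [← C12_iff]
    have h1 : ∀ K < 8, 5 ≤ K → C12 4 K := by decide +kernel
    exact h1 K h hK
  · have hb : 20 * (8 * (4 - 1)) ≤ (4 + 8).choose 4 := by decide +kernel
    exact C12_of_big (by omega) (by omega) (by omega)
      (big_of_base (by omega) (by omega) hb h) (big_of_base (by omega) (by omega) hb (by omega))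

theorem C12_five {K : ℕ} (hK : 5 ≤ K) : C1 5 K ∧ C2 5 K := by
  rcases Nat.lt_or_ge K 7 with h | h
  · rw [← C12_iff]
    have h1 : ∀ K < 7, 5 ≤ K → C12 5 K := by decide +kernel
    exact h1 K h hK
  · have hb : 20 * (7 * (5 - 1)) ≤ (5 + 7).choose 5 := by decide +kernel
    exact C12_of_big (by omega) (by omega) (by omega)
      (big_of_base (by omega) (by omega) hb h) (big_of_base (by omega) (by omega) hb (by omega))

theorem table_zero {n N k R a₀ : ℕ} (hn : 1 ≤ n) (hnN : n ≤ N) (l : List ℕ)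
    (h1 : ∀ r < R, 2 ≤ r → 1 ≤ l.getD r 1 ∧ 2 * l.getD r 1 ≤ r ∧
      sgc n (k + 1) (r - l.getD r 1) + tots n (l.getD r 1) k + (n + 1) * r < mc (n + 1) (k + 1))
    (ha : 1 ≤ a₀) (hR : 2 * a₀ ≤ R)
    (h2 : sgc n (k + 1) (R - a₀) = 0 ∧ tots n a₀ k = 0) {r : ℕ} (hr : 2 ≤ r)
    (hcl : IsClosed[projTop (N + 1) (k + 1)] (Y (N + 1) (k + 1) r)) :
    ∃ w : Fin r → Fin (n + 1) → ℂ, nl (n + 1) (k + 1) w = 0 := by
  rcases Nat.lt_or_ge r R with h | h
  · obtain ⟨h3, h4, h5⟩ := h1 r h hr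
    exact nl_zero_of_small hn hnN _ h3 h4 h5 hcl
  · exact nl_zero_of_large hn hnN ha (by omega) (show R - a₀ ≤ r - a₀ by omega) h2 hcl

theorem zero_two_four {N r : ℕ} (hN : 2 ≤ N) (hr : 2 ≤ r)
    (hcl : IsClosed[projTop (N + 1) 4] (Y (N + 1) 4 r)) :
    ∃ w : Fin r → Fin 3 → ℂ, nl 3 4 w = 0 :=
  table_zero (n := 2) (k := 3) (R := 5) (a₀ := 2) (by omega) hN [1, 1, 1, 1, 2]
    (by decide +kernel) (by omega) (by omega) (by decide +kernel) hr hcl

theorem zero_two_five {N r : ℕ} (hN : 2 ≤ N) (hr : 2 ≤ r)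
    (hcl : IsClosed[projTop (N + 1) 5] (Y (N + 1) 5 r)) :
    ∃ w : Fin r → Fin 3 → ℂ, nl 3 5 w = 0 :=
  table_zero (n := 2) (k := 4) (R := 6) (a₀ := 3) (by omega) hN [1, 1, 1, 1, 1, 2]
    (by decide +kernel) (by omega) (by omega) (by decide +kernel) hr hcl

theorem zero_three_five {N r : ℕ} (hN : 3 ≤ N) (hr : 2 ≤ r)
    (hcl : IsClosed[projTop (N + 1) 5] (Y (N + 1) 5 r)) :
    ∃ w : Fin r → Fin 4 → ℂ, nl 4 5 w = 0 :=
  table_zero (n := 3) (k := 4) (R := 14) (a₀ := 6) (by omega) hN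
    [1, 1, 1, 1, 1, 1, 1, 1, 2, 2, 2, 3, 4, 4]
    (by decide +kernel) (by omega) (by omega) (by decide +kernel) hr hcl

theorem zero_four_six {N r : ℕ} (hN : 4 ≤ N) (hr : 2 ≤ r)
    (hcl : IsClosed[projTop (N + 1) 6] (Y (N + 1) 6 r)) :
    ∃ w : Fin r → Fin 5 → ℂ, nl 5 6 w = 0 :=
  table_zero (n := 4) (k := 5) (R := 42) (a₀ := 17) (by omega) hN
    [1, 1, 1, 1, 1, 1, 1, 1, 1, 1, 1, 1, 1, 1, 1, 1, 2, 2, 2, 2, 2, 2, 3, 3, 3, 3, 3, 4, 4, 4,
      5, 5, 6, 6, 7, 8, 9, 9, 10, 11, 13, 15]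
    (by decide +kernel) (by omega) (by omega) (by decide +kernel) hr hcl

theorem zero_one {N k r : ℕ} (hN : 1 ≤ N) (hr : 2 ≤ r)
    (hcl : IsClosed[projTop (N + 1) (k + 1)] (Y (N + 1) (k + 1) r)) :
    ∃ w : Fin r → Fin 2 → ℂ, nl 2 (k + 1) w = 0 := by
  obtain ⟨w, hw⟩ := closed_hyper (n := 1) (k := k) (a := 1) (b := r - 2) le_rfl hN le_rfl
    (by omega) hcl (fun _ => 0)
    (fun i _ => by
      have h := Sg_kill 1 i
      have h1 : zz 1 i = 1 := by simp [zz]
      rwa [h1] at h) 0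
    (by
      have h := Sg_kill 1 k
      have h1 : zz 1 k = 1 := by simp [zz]
      rw [h1] at h
      exact Sg_le h (by omega))
  refine ⟨w, ?_⟩
  simpa using hw

/-- **Main theorem, `k ≥ n + 2`.** -/
theorem nl_zero_main {n N k r : ℕ} (hn : 1 ≤ n) (hnN : n ≤ N) (hk : n + 2 ≤ k) (hr : 2 ≤ r)
    (hcl : IsClosed[projTop (N + 1) k] (Y (N + 1) k r)) :
    ∃ w : Fin r → Fin (n + 1) → ℂ, nl (n + 1) k w = 0 := by
  obtain ⟨K, rfl⟩ : ∃ K, k = K + 2 := ⟨k - 2, by omega⟩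
  have hnK : n ≤ K := by omega
  have hK1 : 1 ≤ K := by omega
  rcases Nat.lt_or_ge n 6 with h6 | h6
  · interval_cases n
    · exact zero_one hnN hr hcl
    · rcases Nat.lt_or_ge K 4 with h4 | h4
      · interval_cases K
        · exact zero_two_four hnN hr hcl
        · exact zero_two_five hnN hr hcl
      · exact exists_nl_zero hn hnN hK1 hr (C12_two h4).1 (C12_two h4).2 hcl
    · rcases Nat.lt_or_ge K 4 with h4 | h4
      · interval_cases K
        exact zero_three_five hnN hr hcl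
      · exact exists_nl_zero hn hnN hK1 hr (C12_three h4).1 (C12_three h4).2 hcl
    · rcases Nat.lt_or_ge K 5 with h4 | h4
      · interval_cases K
        exact zero_four_six hnN hr hcl
      · exact exists_nl_zero hn hnN hK1 hr (C12_four h4).1 (C12_four h4).2 hcl
    · exact exists_nl_zero hn hnN hK1 hr (C12_five hnK).1 (C12_five hnK).2 hcl
  · exact exists_nl_zero hn hnN hK1 hr (C12_six h6 hnK).1 (C12_six h6 hnK).2 hcl

/-- plane cubics -/
theorem zero_two_three {r : ℕ} (hr : 2 ≤ r) (hcl : IsClosed[projTop 3 3] (Y 3 3 r)) :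
    ∃ w : Fin r → Fin 3 → ℂ, nl 3 3 w = 0 := by
  rcases Nat.lt_or_ge r 4 with h | h
  · exact absurd hcl (not_closed_D (n := 2) (k := 3) (by omega) hr (by omega))
  · exact nl_zero_of_large (n := 2) (N := 2) (k := 2) (a := 2) (c := 2) (by omega) le_rfl
      (by omega) (by omega) (by omega) (by decide +kernel) hcl

end H80R
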