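import Mathlib
import Pool.Agent.H80R.Cases

namespace H80R

open Topology Filter

/-- extension of a symmetric tensor by zero to a larger space -/
def padT {m N k : ℕ} (T : SymT m k) : SymT N k :=
  ⟨fun i => if h : ∀ j, (i j).1 < m then T.1 (fun j => ⟨(i j).1, h j⟩) else 0, by
    intro σ i
    beta_reduce
    by_cases h : ∀ j, (i j).1 < m
    · have h1 : ∀ j, ((i ∘ σ) j).1 < m := fun j => h (σ j)
      rw [dif_pos h, dif_pos h1]
      exact T.2 σ (fun j => ⟨(i j).1, h j⟩)
    · have h1 : ¬ ∀ j, ((i ∘ σ) j).1 < m := by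
        intro h2
        apply h
        intro j
        have := h2 (σ.symm j)
        simpa using this
      rw [dif_neg h, dif_neg h1]⟩

theorem padT_apply {m N k : ℕ} (hm : m ≤ N) (T : SymT m k) (i : Fin k → Fin m) :
    (padT T : SymT N k).1 (fun j => Fin.castLE hm (i j)) = T.1 i := by
  have h : ∀ j, ((fun j => Fin.castLE hm (i j)) j : Fin N).1 < m := fun j => (i j).2
  show (if h : ∀ j, ((fun j => Fin.castLE hm (i j)) j : Fin N).1 < m then
    T.1 (fun j => ⟨((fun j => Fin.castLE hm (i j)) j : Fin N).1, h j⟩) else 0) = T.1 i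
  rw [dif_pos h]
  congr 1

theorem padT_tpow {m N k : ℕ} (v : Fin m → ℂ) :
    (padT (tpow k v) : SymT N k) = tpow k (pad v) := by
  apply Subtype.ext
  funext i
  show (if h : ∀ j, (i j).1 < m then (tpow k v).1 (fun j => ⟨(i j).1, h j⟩) else 0) =
    ∏ j, (pad v : Fin N → ℂ) (i j)
  by_cases h : ∀ j, (i j).1 < m
  · rw [dif_pos h]
    show ∏ j, v ⟨(i j).1, h j⟩ = _
    refine Finset.prod_congr rfl fun j _ => ?_
    simp [pad, h j]
  · rw [dif_neg h]
    symm
    push Not at h
    obtain ⟨j, hj⟩ := h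
    apply Finset.prod_eq_zero (Finset.mem_univ j)
    simp [pad, not_lt.mpr hj]

theorem padT_sum {m N k r : ℕ} (c : Fin r → ℂ) (v : Fin r → Fin m → ℂ) :
    (padT (∑ i, c i • tpow k (v i)) : SymT N k) = ∑ i, c i • tpow k (pad (v i)) := by
  apply Subtype.ext
  funext i
  have h2 : (∑ s, c s • tpow k (pad (v s)) : SymT N k).1 i =
      ∑ s, c s * (tpow k (pad (v s)) : SymT N k).1 i := by
    rw [AddSubmonoidClass.coe_finsetSum, Finset.sum_apply]
    rfl
  rw [h2]
  simp only [← padT_tpow]
  show (if h : ∀ j, (i j).1 < m then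
      (∑ i, c i • tpow k (v i) : SymT m k).1 (fun j => ⟨(i j).1, h j⟩) else 0) =
    ∑ s, c s * (if h : ∀ j, (i j).1 < m then (tpow k (v s)).1 (fun j => ⟨(i j).1, h j⟩) else 0)
  by_cases h : ∀ j, (i j).1 < m
  · simp only [dif_pos h]
    rw [AddSubmonoidClass.coe_finsetSum, Finset.sum_apply]
    rfl
  · simp only [dif_neg h, mul_zero, Finset.sum_const_zero]

theorem RankLE_padT {m N k r : ℕ} (hm : m ≤ N) (T : SymT m k) :
    RankLE r (padT T : SymT N k) ↔ RankLE r T := by
  constructor
  · rintro ⟨c, v, h⟩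
    refine ⟨c, fun s l => v s (Fin.castLE hm l), ?_⟩
    apply Subtype.ext
    funext i
    rw [← padT_apply hm T i, h]
    rw [AddSubmonoidClass.coe_finsetSum, Finset.sum_apply, AddSubmonoidClass.coe_finsetSum,
      Finset.sum_apply]
    rfl
  · rintro ⟨c, v, h⟩
    exact ⟨c, fun s => pad (v s), by rw [h, padT_sum]⟩

theorem padT_ne {m N k : ℕ} (hm : m ≤ N) {T : SymT m k} (hT : T ≠ 0) :
    (padT T : SymT N k) ≠ 0 := by
  intro h
  apply hT
  apply Subtype.ext
  funext i
  rw [← padT_apply hm T i, h]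
  rfl

theorem continuous_padT {m N k : ℕ} : Continuous (padT : SymT m k → SymT N k) := by
  refine Continuous.subtype_mk ?_ _
  refine continuous_pi fun i => ?_
  by_cases h : ∀ j, (i j).1 < m
  · simp only [dif_pos h]
    exact (continuous_apply _).comp continuous_subtype_val
  · simp only [dif_neg h]
    exact continuous_const

/-- closedness passes to subspaces -/
theorem closed_sub {m N k r : ℕ} (hm : m ≤ N) (hcl : IsClosed[projTop N k] (Y N k r)) :
    IsClosed[projTop m k] (Y m k r) := by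
  have h1 := closed_pre hcl
  refine (closed_iff _).mpr ?_
  let f : {v : SymT m k // v ≠ 0} → {v : SymT N k // v ≠ 0} := fun v =>
    ⟨padT v.1, padT_ne hm v.2⟩
  have hf : Continuous f :=
    Continuous.subtype_mk (continuous_padT.comp continuous_subtype_val) _
  convert h1.preimage hf using 1
  ext v
  simp only [Set.mem_preimage]
  rw [mem_Y, mem_Y]
  exact (RankLE_padT hm v.1).symm

theorem Y_zero (k r : ℕ) (hk : 1 ≤ k) : Y 0 k r = Set.univ := by
  have h : ∀ T : SymT 0 k, T = 0 := by
    intro T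
    apply Subtype.ext
    funext i
    exact (i ⟨0, hk⟩).elim0
  ext p
  simp only [Set.mem_univ, iff_true]
  exact absurd (h p.rep) p.rep_nonzero

theorem Y_one (k r : ℕ) (hr : 1 ≤ r) : Y 1 k r = Set.univ := by
  ext p
  simp only [Set.mem_univ, iff_true]
  show RankLE r p.rep
  refine RankLE_of_fintype (ι := Fin 1) (by simpa using hr) _ (fun _ => p.rep.1 (fun _ => 0))
    (fun _ _ => 1) ?_
  apply Subtype.ext
  funext i
  have hi : i = fun _ => 0 := Subsingleton.elim _ _
  rw [AddSubmonoidClass.coe_finsetSum, Finset.sum_apply]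
  simp only [Finset.univ_unique, Finset.sum_singleton]
  show p.rep.1 i = p.rep.1 (fun _ => 0) * ∏ _j : Fin k, (1 : ℂ)
  rw [hi]
  simp

/-- **Main theorem.** -/
theorem main {N k r : ℕ} (hk : 3 ≤ k) (hr : 2 ≤ r)
    (h : Y (min N (max 3 (k - 1))) k r ≠ Set.univ) : ¬ IsClosed[projTop N k] (Y N k r) := by
  intro hcl
  have hcl2 := closed_sub (min_le_left N (max 3 (k - 1))) hcl
  have hM : min N (max 3 (k - 1)) ≤ max 3 (k - 1) := min_le_right _ _
  generalize min N (max 3 (k - 1)) = M at h hcl2 hM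
  apply h
  rcases M with _ | n
  · exact Y_zero k r (by omega)
  rcases Nat.eq_zero_or_pos n with h0 | hn
  · subst h0
    exact Y_one k r (by omega)
  · by_cases hnk : n + 2 ≤ k
    · exact univ_of_nl (nl_zero_main hn le_rfl hnk hr hcl2) hcl2
    · have h3 : n = 2 ∧ k = 3 := by omega
      obtain ⟨rfl, rfl⟩ := h3
      exact univ_of_nl (zero_two_three hr hcl2) hcl2

end H80R
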